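import Pool.Agent.H927R2.VT.Basic

open Finset

namespace VT927

theorem nbhd_rf (h : T_TNB) (k : ℕ) (h1 : 1 ≤ k) (h3 : k ≤ 3) :
    nbhd TT (rf k) = ⋃₀ {S ∈ TT | zt ^ 5 * uu ∈ S ∨ S = tl false 29 0 0} := by
  unfold nbhd
  congr 1
  ext S
  constructor
  · rintro ⟨hS, hne⟩
    exact ⟨hS, (h k h1 h3 S hS).1 hne⟩
  · rintro ⟨hS, hor⟩
    exact ⟨hS, (h k h1 h3 S hS).2 hor⟩

theorem rf_mem (k : ℕ) (h : k < 5) : rf k ∈ TT := Or.inr ⟨k, h, rfl⟩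

theorem hasThree_complex (hB : T_BODY) (hCB : T_CB) (hcov : T_TCOV) (hiso : T_TISO) (hdis : T_TDIS)
    (hne : T_TNE) (hnb : T_TNB) : HasThree ℂ := by
  obtain ⟨hc, ⟨e⟩⟩ := hB
  obtain ⟨e2⟩ := hCB
  refine ⟨Tile, TT, ⟨hc, ⟨e.trans e2⟩⟩, ⟨hiso, hcov, hdis⟩, rf 1, rf_mem 1 (by norm_num), rf 2,
    rf_mem 2 (by norm_num), rf 3, rf_mem 3 (by norm_num), hne.1, hne.2.1, hne.2.2, ?_, ?_⟩
  · rw [nbhd_rf hnb 1 (by norm_num) (by norm_num), nbhd_rf hnb 2 (by norm_num) (by norm_num)]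
  · rw [nbhd_rf hnb 2 (by norm_num) (by norm_num), nbhd_rf hnb 3 (by norm_num) (by norm_num)]

end VT927
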