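import Pool.Agent.H927R2.VT.Spec

open Finset

namespace VT927

theorem cr_add_right (x y z : ℂ) : cr x (y + z) = cr x y + cr x z := by
  simp only [cr, Complex.add_re, Complex.add_im]; ring
theorem cr_add_left (x y z : ℂ) : cr (x + y) z = cr x z + cr y z := by
  simp only [cr, Complex.add_re, Complex.add_im]; ring
theorem cr_sub_right (x y z : ℂ) : cr x (y - z) = cr x y - cr x z := by
  simp only [cr, Complex.sub_re, Complex.sub_im]; ring
theorem cr_sub_left (x y z : ℂ) : cr (x - y) z = cr x z - cr y z := by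
  simp only [cr, Complex.sub_re, Complex.sub_im]; ring
theorem cr_neg_right (x y : ℂ) : cr x (-y) = - cr x y := by
  simp only [cr, Complex.neg_re, Complex.neg_im]; ring
theorem cr_neg_left (x y : ℂ) : cr (-x) y = - cr x y := by
  simp only [cr, Complex.neg_re, Complex.neg_im]; ring
theorem cr_self (x : ℂ) : cr x x = 0 := by simp only [cr]; ring
theorem cr_zero_right (x : ℂ) : cr x 0 = 0 := by simp [cr]
theorem cr_zero_left (x : ℂ) : cr 0 x = 0 := by simp [cr]
theorem cr_swap (x y : ℂ) : cr y x = - cr x y := by simp only [cr]; ring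
theorem cr_real_right (t : ℝ) (x y : ℂ) : cr x ((t : ℂ) * y) = t * cr x y := by
  simp only [cr, Complex.mul_re, Complex.mul_im, Complex.ofReal_re, Complex.ofReal_im]; ring
theorem cr_real_left (t : ℝ) (x y : ℂ) : cr ((t : ℂ) * x) y = t * cr x y := by
  simp only [cr, Complex.mul_re, Complex.mul_im, Complex.ofReal_re, Complex.ofReal_im]; ring
theorem cr_mul (w x y : ℂ) : cr (w * x) (w * y) = Complex.normSq w * cr x y := by
  simp only [cr, Complex.mul_re, Complex.mul_im, Complex.normSq_apply]; ring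
theorem cr_conj (x y : ℂ) : cr ((starRingEnd ℂ) x) ((starRingEnd ℂ) y) = - cr x y := by
  simp only [cr, Complex.conj_re, Complex.conj_im]; ring
theorem cr_mul_of_norm {w : ℂ} (hw : ‖w‖ = 1) (x y : ℂ) : cr (w * x) (w * y) = cr x y := by
  rw [cr_mul, Complex.normSq_eq_norm_sq, hw]; ring
theorem cr_sum_right {ι : Type*} (s : Finset ι) (f : ι → ℂ) (x : ℂ) :
    cr x (∑ i ∈ s, f i) = ∑ i ∈ s, cr x (f i) := by
  classical
  induction s using Finset.induction_on with
  | empty => simp [cr]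
  | insert i s hi ih => rw [sum_insert hi, sum_insert hi, cr_add_right, ih]
theorem cr_continuous_right (x : ℂ) : Continuous (fun z => cr x z) := by
  unfold cr; fun_prop
theorem abs_cr_le (x y : ℂ) : |cr x y| ≤ ‖x‖ * ‖y‖ := by
  have h : cr x y = ((starRingEnd ℂ) x * y).im := by
    simp [cr, Complex.mul_im]; ring
  rw [h]
  calc |((starRingEnd ℂ) x * y).im| ≤ ‖(starRingEnd ℂ) x * y‖ := Complex.abs_im_le_norm _
    _ = ‖x‖ * ‖y‖ := by rw [norm_mul, Complex.norm_conj]

theorem zt_pow_eq (k : ℕ) : zt ^ k = Complex.exp ((((k : ℝ) * (Real.pi / 15) : ℝ) : ℂ) * Complex.I) := by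
  unfold zt
  rw [← Complex.exp_nat_mul]
  congr 1
  push_cast
  ring
theorem zt_pow_re (k : ℕ) : (zt ^ k).re = Real.cos ((k : ℝ) * (Real.pi / 15)) := by
  rw [zt_pow_eq, Complex.exp_ofReal_mul_I_re]
theorem zt_pow_im (k : ℕ) : (zt ^ k).im = Real.sin ((k : ℝ) * (Real.pi / 15)) := by
  rw [zt_pow_eq, Complex.exp_ofReal_mul_I_im]
theorem zt_re : zt.re = Real.cos (Real.pi / 15) := by
  have := zt_pow_re 1; simpa using this
theorem zt_im : zt.im = Real.sin (Real.pi / 15) := by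
  have := zt_pow_im 1; simpa using this
theorem zt_norm : ‖zt‖ = 1 := by
  unfold zt; exact Complex.norm_exp_ofReal_mul_I _
theorem zt_pow_norm (k : ℕ) : ‖zt ^ k‖ = 1 := by rw [norm_pow, zt_norm, one_pow]
theorem zt_ne : zt ≠ 0 := by
  intro h; have := zt_norm; rw [h, norm_zero] at this; exact zero_ne_one this
theorem zt_pow_15 : zt ^ 15 = -1 := by
  rw [zt_pow_eq]
  have : (((15 : ℕ) : ℝ) * (Real.pi / 15) : ℝ) = Real.pi := by push_cast; ring
  rw [this, Complex.exp_pi_mul_I]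
theorem zt_pow_30 : zt ^ 30 = 1 := by
  rw [show (30 : ℕ) = 15 * 2 from rfl, pow_mul, zt_pow_15]; norm_num
theorem zt_inv : zt⁻¹ = zt ^ 29 := by
  apply inv_eq_of_mul_eq_one_left
  rw [← pow_succ]; exact zt_pow_30
theorem zt_conj : (starRingEnd ℂ) zt = zt⁻¹ := by
  rw [Complex.inv_def, Complex.normSq_eq_norm_sq, zt_norm]; simp
theorem zt_conj_pow (k : ℕ) : (starRingEnd ℂ) (zt ^ k) = zt⁻¹ ^ k := by
  rw [map_pow, zt_conj]
/-- `zt^5 + zt^25 = 2 cos 60° = 1` -/
theorem zt_five : zt ^ 5 + zt ^ 25 = 1 := by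
  apply Complex.ext
  · rw [Complex.add_re, zt_pow_re, zt_pow_re]
    have h1 : (((5 : ℕ) : ℝ) * (Real.pi / 15) : ℝ) = Real.pi / 3 := by push_cast; ring
    have h2 : (((25 : ℕ) : ℝ) * (Real.pi / 15) : ℝ) = 2 * Real.pi - Real.pi / 3 := by push_cast; ring
    rw [h1, h2, Real.cos_two_pi_sub, Real.cos_pi_div_three]; norm_num
  · rw [Complex.add_im, zt_pow_im, zt_pow_im]
    have h1 : (((5 : ℕ) : ℝ) * (Real.pi / 15) : ℝ) = Real.pi / 3 := by push_cast; ring
    have h2 : (((25 : ℕ) : ℝ) * (Real.pi / 15) : ℝ) = 2 * Real.pi - Real.pi / 3 := by push_cast; ring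
    rw [h1, h2, Real.sin_two_pi_sub]; norm_num
theorem zt_ten : zt ^ 10 = zt ^ 5 - 1 := by
  have h := zt_five
  have h25 : zt ^ 25 = - zt ^ 10 := by
    rw [show (25 : ℕ) = 15 + 10 from rfl, pow_add, zt_pow_15]; ring
  rw [h25] at h
  linear_combination (-1 : ℂ) * h
theorem uu_eq : uu = 1 + zt + zt ^ 2 + zt ^ 3 + zt ^ 4 := by
  simp [uu, LL, sum_range_succ]
theorem zt_mul_uu : zt * uu = uu + zt ^ 10 := by
  rw [zt_ten, uu_eq]; ring
theorem LL_zero : LL 0 = 0 := by simp [LL]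
theorem LL_succ (j : ℕ) : LL (j + 1) = LL j + zt ^ j := by simp [LL, sum_range_succ]
theorem vx_of_le {e : ℕ} (h : e ≤ 5) : vx e = LL e := by simp [vx, h]
theorem vx_of_gt {e : ℕ} (h : 5 < e) : vx e = zt * LL (11 - e) := by
  simp [vx, not_le.mpr h]

/-- the basic formula: `cr (zt^i) (zt^j) = sin ((j - i) * 12°)` -/
theorem cr_zt (i j : ℕ) : cr (zt ^ i) (zt ^ j) = Real.sin (((j : ℝ) - (i : ℝ)) * (Real.pi / 15)) := by
  simp only [cr, zt_pow_re, zt_pow_im]
  rw [sub_mul, Real.sin_sub]; ring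
theorem cr_zt_mul (k : ℕ) (x y : ℂ) : cr (zt ^ k * x) (zt ^ k * y) = cr x y :=
  cr_mul_of_norm (zt_pow_norm k) x y
/-- `sin (k * 12°) > 0` for `0 < k < 15` -/
theorem sin_pos_k {k : ℕ} (h0 : 0 < k) (h1 : k < 15) : 0 < Real.sin ((k : ℝ) * (Real.pi / 15)) := by
  apply Real.sin_pos_of_pos_of_lt_pi
  · have : (0 : ℝ) < k := by exact_mod_cast h0
    have := Real.pi_pos
    positivity
  · have h : (k : ℝ) < 15 := by exact_mod_cast h1
    have := Real.pi_pos
    nlinarith
/-- `cr (zt^i) (zt^j) ≥ 0` for `i ≤ j ≤ i + 15` -/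
theorem cr_zt_nonneg {i j : ℕ} (h : i ≤ j) (h2 : j ≤ i + 15) : 0 ≤ cr (zt ^ i) (zt ^ j) := by
  rw [cr_zt]
  have hpi := Real.pi_pos
  have h1 : (i : ℝ) ≤ j := by exact_mod_cast h
  have h3 : (j : ℝ) ≤ i + 15 := by exact_mod_cast h2
  apply Real.sin_nonneg_of_nonneg_of_le_pi
  · apply mul_nonneg (by linarith) (by positivity)
  · nlinarith
theorem cr_zt_pos {i j : ℕ} (h : i < j) (h2 : j < i + 15) : 0 < cr (zt ^ i) (zt ^ j) := by
  rw [cr_zt]
  have hpi := Real.pi_pos
  have h1 : (i : ℝ) < j := by exact_mod_cast h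
  have h3 : (j : ℝ) < i + 15 := by exact_mod_cast h2
  apply Real.sin_pos_of_pos_of_lt_pi
  · apply mul_pos (by linarith) (by positivity)
  · nlinarith
theorem phi_sub (j : ℕ) (z w : ℂ) : phi j (z + w) = phi j z + cr (zt ^ j) w := by
  unfold phi
  rw [show z + w - LL j = (z - LL j) + w by ring, cr_add_right]
theorem phi_eq (j : ℕ) (z : ℂ) : phi j z = cr (zt ^ j) z - cr (zt ^ j) (LL j) := by
  unfold phi; rw [cr_sub_right]
theorem phi_continuous (j : ℕ) : Continuous (phi j) := by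
  unfold phi
  exact (cr_continuous_right _).comp (continuous_id.sub continuous_const)
theorem pt_zero (k : ℕ) : pt k 0 0 = 0 := by simp [pt]
theorem mp_false (p w z : ℂ) : mp false p w z = p + w * z := by simp [mp]
theorem mp_true (p w z : ℂ) : mp true p w z = p + w * (starRingEnd ℂ) z := by simp [mp]

end VT927
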