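import Pool.Agent.H927R2.VT.Stubs
import Pool.Agent.H927R2.VT.Asm

open Finset

namespace VT927

theorem t_VTX : T_VTX := k_VTX
theorem t_VTY : T_VTY := k_VTY
theorem t_KER : T_KER := k_KER
theorem t_CPOS : T_CPOS := k_CPOS t_KER
theorem t_TRIIN : T_TRIIN := k_TRIIN k_BARY t_KER t_CPOS t_VTX t_VTY
theorem t_CC : T_CC := k_CC t_KER
theorem t_BETA : T_BETA := k_BETA t_KER t_CPOS t_VTX t_CC
theorem t_FF : T_FF := k_FF t_KER t_CPOS t_VTX t_CC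
theorem t_BODY : T_BODY := k_BODY k_STAR t_FF
theorem t_CINT : T_CINT := k_CINT t_FF
theorem t_WSUM : T_WSUM := k_WSUM k_ANTI
theorem t_EU : T_EU := k_EU k_ANTI
theorem t_EV : T_EV := k_EV k_ANTI
theorem t_ROW : T_ROW := k_ROW t_WSUM t_EU t_EV
theorem t_TOTB : T_TOTB := k_TOTB t_ROW
theorem t_TOT1 : T_TOT1 := k_TOT1 t_TOTB k_BSIDE
theorem t_WPOS : T_WPOS := k_WPOS t_KER k_TRI01
theorem t_WIN : T_WIN := k_WIN t_KER k_TRI01 k_TRIC t_TRIIN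
theorem t_WOP : T_WOP := k_WOP t_KER k_TRI01 k_TRIO t_BETA k_BAIRE
theorem t_COV : T_COV := k_COV t_TOT1 t_WIN
theorem t_TWO : T_TWO := k_TWO t_TOT1 t_WPOS
theorem t_DIS : T_DIS := k_DIS t_TWO t_WOP
theorem t_CN : T_CN := k_CN k_BARY t_KER t_BETA
theorem t_CONE : T_CONE := k_CONE t_CN
theorem t_SIDE : T_SIDE := k_SIDE k_BARY t_KER t_BETA
theorem t_SIDES : T_SIDES := k_SIDES k_BARY t_KER t_BETA t_SIDE
theorem t_FSUP : T_FSUP := k_FSUP k_MON t_CONE t_SIDE t_VTX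
theorem t_NA : T_NA := k_NA k_MON t_CONE t_SIDES
theorem t_NB : T_NB := k_NB k_MON t_VTX
theorem t_TCOV : T_TCOV := k_TCOV t_COV k_RF k_FSUB t_FSUP k_SIG
theorem t_TISO : T_TISO := k_TISO k_ISO
theorem t_TDIS : T_TDIS := k_TDIS t_DIS k_RF k_FSUB t_FSUP k_SIG t_CINT k_ISO k_BAIRE
theorem t_TNE : T_TNE := k_TNE t_DIS k_RF t_CINT k_SIG k_ISO
theorem t_TNB : T_TNB :=
  k_TNB t_DIS k_RF k_FSUB k_SIG t_CINT k_ISO k_BAIRE t_NA t_NB k_SGB t_VTX t_VTY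

theorem hasThree : HasThree E2 :=
  k_TRANS (hasThree_complex t_BODY k_CB t_TCOV t_TISO t_TDIS t_TNE t_TNB)

end VT927
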