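import Pool.Agent.H927R2.VT.Basic

/-! task ANTI: chi antisymmetric -/

open Finset

namespace VT927

theorem k_ANTI : T_ANTI := by
  intro z p q
  have h : cr (p - q) (z - q) = - cr (q - p) (z - p) := by
    simp only [cr, Complex.sub_re, Complex.sub_im]; ring
  unfold chi
  rw [h]
  have e1 : (q.im ≤ z.im ∧ z.im < p.im ∧ 0 < -cr (q - p) (z - p)) ↔
      (q.im ≤ z.im ∧ z.im < p.im ∧ cr (q - p) (z - p) < 0) := by
    rw [neg_pos]
  have e2 : (p.im ≤ z.im ∧ z.im < q.im ∧ -cr (q - p) (z - p) < 0) ↔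
      (p.im ≤ z.im ∧ z.im < q.im ∧ 0 < cr (q - p) (z - p)) := by
    rw [neg_lt_zero]
  by_cases hA : p.im ≤ z.im ∧ z.im < q.im ∧ 0 < cr (q - p) (z - p)
  · have hB : ¬ (q.im ≤ z.im ∧ z.im < p.im ∧ cr (q - p) (z - p) < 0) := by
      rintro ⟨h1, _, _⟩
      exact absurd hA.2.1 (not_lt.mpr h1)
    rw [if_pos hA, if_neg (fun h => hB (e1.1 h)), if_pos (e2.2 hA)]
  · by_cases hB : q.im ≤ z.im ∧ z.im < p.im ∧ cr (q - p) (z - p) < 0
    · rw [if_neg hA, if_pos hB, if_pos (e1.2 hB)]; rfl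
    · rw [if_neg hA, if_neg hB, if_neg (fun h => hB (e1.1 h)), if_neg (fun h => hA (e2.1 h))]; rfl

end VT927
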