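import Pool.Agent.H927R2.VT.Basic

/-! task BAIRE -/

open Finset

namespace VT927

theorem k_BAIRE : T_BAIRE := by
  intro n
  induction n with
  | zero =>
    intro S O _ _ hne hcov
    obtain ⟨z, hz⟩ := hne
    obtain ⟨e, he, _⟩ := hcov z hz
    exact absurd he (Nat.not_lt_zero e)
  | succ n ih =>
    intro S O hcl hO hne hcov
    by_cases h : (O \ S n).Nonempty
    · have hopen : IsOpen (O \ S n) := hO.sdiff (hcl n (Nat.lt_succ_self n))
      have hcov' : ∀ z ∈ O \ S n, ∃ e < n, z ∈ S e := by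
        intro z hz
        obtain ⟨e, he, hze⟩ := hcov z hz.1
        rcases Nat.lt_succ_iff_lt_or_eq.mp he with h1 | h1
        · exact ⟨e, h1, hze⟩
        · subst h1; exact absurd hze hz.2
      obtain ⟨e, he, O', hsub, h1, h2, h3⟩ :=
        ih S (O \ S n) (fun e he => hcl e (Nat.lt_succ_of_lt he)) hopen h hcov'
      exact ⟨e, Nat.lt_succ_of_lt he, O', fun z hz => (hsub hz).1, h1, h2, h3⟩
    · refine ⟨n, Nat.lt_succ_self n, O, le_refl _, hO, hne, ?_⟩
      intro z hz
      by_contra hc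
      exact h ⟨z, hz, hc⟩

end VT927
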