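import Pool.Agent.H927R2.VT.Basic

/-! task BARY -/

open Finset

namespace VT927

theorem k_BARY : T_BARY := by
  intro p q r z hD hz
  obtain ⟨h1, h2, h3⟩ := hz
  set D := cr (q - p) (r - p) with hDdef
  have hD0 : D ≠ 0 := ne_of_gt hD
  have hsum : cr (r - q) (z - q) + cr (p - r) (z - r) + cr (q - p) (z - p) = D := by
    rw [hDdef]; simp only [cr, Complex.sub_re, Complex.sub_im]; ring
  refine ⟨cr (r - q) (z - q) / D, cr (p - r) (z - r) / D, cr (q - p) (z - p) / D,
    div_nonneg h2 hD.le, div_nonneg h3 hD.le, div_nonneg h1 hD.le, ?_, ?_⟩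
  · rw [← add_div, ← add_div, hsum, div_self hD0]
  · have hre : D * z.re = cr (r - q) (z - q) * p.re + cr (p - r) (z - r) * q.re + cr (q - p) (z - p) * r.re := by
      rw [hDdef]; simp only [cr, Complex.sub_re, Complex.sub_im]; ring
    have him : D * z.im = cr (r - q) (z - q) * p.im + cr (p - r) (z - r) * q.im + cr (q - p) (z - p) * r.im := by
      rw [hDdef]; simp only [cr, Complex.sub_re, Complex.sub_im]; ring
    apply Complex.ext
    · simp only [Complex.add_re, Complex.mul_re, Complex.ofReal_re, Complex.ofReal_im, zero_mul, sub_zero]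
      field_simp
      linarith
    · simp only [Complex.add_im, Complex.mul_im, Complex.ofReal_re, Complex.ofReal_im, zero_mul, add_zero]
      field_simp
      linarith

end VT927
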