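import Pool.Agent.H927R2.VT.Ori

/-! task BETA -/

open Finset

namespace VT927

theorem beta_aux1 (A B : ℂ) (s t : ℝ) :
    cr (B - A) ((s : ℂ) * A + (t : ℂ) * B - A) = (1 - s - t) * cr A B := by
  simp only [cr, Complex.sub_re, Complex.sub_im, Complex.add_re, Complex.add_im, Complex.mul_re,
    Complex.mul_im, Complex.ofReal_re, Complex.ofReal_im]
  ring

theorem beta_aux2 (A B : ℂ) (s t : ℝ) :
    cr (-B) ((s : ℂ) * A + (t : ℂ) * B - B) = s * cr A B := by
  simp only [cr, Complex.sub_re, Complex.sub_im, Complex.add_re, Complex.add_im, Complex.mul_re,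
    Complex.mul_im, Complex.ofReal_re, Complex.ofReal_im, Complex.neg_re, Complex.neg_im]
  ring

theorem k_BETA : T_KER → T_CPOS → T_VTX → T_CC → T_BETA := by
  intro hK hC hX hCC z hz
  obtain ⟨e, he, s, t, hs, ht, hx⟩ := hCC (z - cc)
  have hD := ker_orient hK he
  set A := vx e - cc with hA
  set B := vx (e + 1) - cc with hB
  have hz' : z = cc + ((s : ℂ) * A + (t : ℂ) * B) := by rw [← hx]; ring
  refine ⟨e, he, ?_, ?_, ?_⟩
  · have : cr (vx e - cc) (z - cc) = t * cr A B := by
      rw [hx, ← hA, cr_add_right, cr_real_right, cr_real_right, cr_self]; ring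
    rw [this]; exact mul_nonneg ht hD.le
  · have hval : cr (vx (e + 1) - vx e) (z - vx e) = (1 - s - t) * cr A B := by
      have e1 : vx (e + 1) - vx e = B - A := by rw [hA, hB]; ring
      have e2 : z - vx e = (s : ℂ) * A + (t : ℂ) * B - A := by rw [hz', hA]; ring
      rw [e1, e2]; exact beta_aux1 A B s t
    rcases Nat.lt_or_ge e 5 with h5 | h5
    · have := hz.1 e h5
      unfold phi at this
      rw [vx_of_le (by omega), vx_of_le (by omega), LL_succ, add_sub_cancel_left]
      exact this
    rcases Nat.eq_or_lt_of_le h5 with h6 | h6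
    · subst h6
      have := hz.2.2
      rw [vx_of_gt (by norm_num), vx_of_le (by norm_num)]
      have e1 : zt * LL (11 - (5 + 1)) - LL 5 = zt ^ 10 := by
        have := zt_mul_uu
        unfold uu at this
        simp only [Nat.reduceAdd, Nat.reduceSub]
        rw [this]; ring
      rw [e1]; exact this
    · by_contra hneg
      push Not at hneg
      rw [hval] at hneg
      have hst : 1 - s - t < 0 := by
        by_contra h
        push Not at h
        have := mul_nonneg h hD.le
        linarith
      obtain ⟨j, hj, hle⟩ := hz.2.1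
      have hzz : zt⁻¹ * z = (((1 - s - t : ℝ)) : ℂ) * (zt⁻¹ * cc) + (s : ℂ) * (zt⁻¹ * vx e)
          + (t : ℂ) * (zt⁻¹ * vx (e + 1)) := by
        rw [hz', hA, hB]; push_cast; ring
      have v1 : zt⁻¹ * vx e = LL (11 - e) := by
        rw [vx_of_gt h6]; field_simp [zt_ne]
      have v2 : zt⁻¹ * vx (e + 1) = LL (11 - (e + 1)) := by
        rw [vx_of_gt (by omega)]; field_simp [zt_ne]
      rw [hzz, phi_comb j (by ring), v1, v2] at hle
      have p1 : 0 ≤ phi j (LL (11 - e)) := by
        have := (hX (11 - e) (by omega)).1 j hj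
        rwa [vx_of_le (by omega)] at this
      have p2 : 0 ≤ phi j (LL (11 - (e + 1))) := by
        have := (hX (11 - (e + 1)) (by omega)).1 j hj
        rwa [vx_of_le (by omega)] at this
      have p3 := hC.2.1 j hj
      have q1 := mul_pos_of_neg_of_neg hst p3
      have q2 := mul_nonneg hs p1
      have q3 := mul_nonneg ht p2
      linarith
  · have : cr (cc - vx (e + 1)) (z - vx (e + 1)) = s * cr A B := by
      have e1 : cc - vx (e + 1) = -B := by rw [hB]; ring
      have e2 : z - vx (e + 1) = (s : ℂ) * A + (t : ℂ) * B - B := by rw [hz', hB]; ring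
      rw [e1, e2]; exact beta_aux2 A B s t
    rw [this]; exact mul_nonneg hs hD.le

end VT927
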