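import Pool.Agent.H927R2.VT.Basic

/-! task BODY -/

open Finset

namespace VT927

theorem k_BODY : T_STAR → T_FF → T_BODY := by
  intro hS hF
  obtain ⟨f, hc, hh, hp, hT⟩ := hF
  obtain ⟨hcomp, ⟨e⟩⟩ := hS f hc hh hp
  let τ : ℂ ≃ₜ ℂ := Homeomorph.addRight cc
  have hset : Tile = τ '' {x : ℂ | f x ≤ 1} := by
    ext z
    constructor
    · intro hz
      exact ⟨z - cc, (hT z).1 hz, by simp [τ]⟩
    · rintro ⟨x, hx, rfl⟩
      apply (hT _).2
      simpa [τ] using hx
  constructor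
  · rw [hset]
    exact hcomp.image τ.continuous
  · rw [hset]
    exact ⟨(τ.image {x : ℂ | f x ≤ 1}).symm.trans e⟩

end VT927
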