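import Pool.Agent.H927R2.VT.Basic

/-! task BSIDE -/

open Finset

namespace VT927

theorem bs_uu : cr (zt ^ 10) uu ≤ -1 := by
  have hpi := Real.pi_pos
  have e0 : uu = zt ^ 0 + zt ^ 1 + zt ^ 2 + zt ^ 3 + zt ^ 4 := by
    rw [uu_eq, pow_zero, pow_one]
  have n0 : cr (zt ^ 10) (zt ^ 0) ≤ 0 := by
    rw [cr_swap]; have := cr_zt_nonneg (i := 0) (j := 10) (by norm_num) (by norm_num); linarith
  have n1 : cr (zt ^ 10) (zt ^ 1) ≤ 0 := by
    rw [cr_swap]; have := cr_zt_nonneg (i := 1) (j := 10) (by norm_num) (by norm_num); linarith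
  have n2 : cr (zt ^ 10) (zt ^ 2) ≤ 0 := by
    rw [cr_swap]; have := cr_zt_nonneg (i := 2) (j := 10) (by norm_num) (by norm_num); linarith
  have key : ∀ t : ℕ, t ≤ 10 → (((10 : ℕ) : ℝ) - t) * (Real.pi / 15) ≤ Real.pi / 2 →
      cr (zt ^ 10) (zt ^ t) ≤ - (2 / Real.pi * ((((10 : ℕ) : ℝ) - t) * (Real.pi / 15))) := by
    intro t ht h2
    rw [cr_swap, cr_zt]
    have h0 : (0 : ℝ) ≤ (((10 : ℕ) : ℝ) - t) * (Real.pi / 15) := by
      apply mul_nonneg _ (by positivity)
      have : (t : ℝ) ≤ ((10 : ℕ) : ℝ) := by exact_mod_cast ht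
      linarith
    have := Real.mul_le_sin h0 h2
    linarith
  have n3 : cr (zt ^ 10) (zt ^ 3) ≤ - (14 / 15) := by
    have := key 3 (by norm_num) (by push_cast; nlinarith)
    have e : 2 / Real.pi * ((((10 : ℕ) : ℝ) - ((3 : ℕ) : ℝ)) * (Real.pi / 15)) = 14 / 15 := by
      push_cast; field_simp; norm_num
    rw [e] at this; exact this
  have n4 : cr (zt ^ 10) (zt ^ 4) ≤ - (12 / 15) := by
    have := key 4 (by norm_num) (by push_cast; nlinarith)
    have e : 2 / Real.pi * ((((10 : ℕ) : ℝ) - ((4 : ℕ) : ℝ)) * (Real.pi / 15)) = 12 / 15 := by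
      push_cast; field_simp; norm_num
    rw [e] at this; exact this
  rw [e0, cr_add_right, cr_add_right, cr_add_right, cr_add_right]
  linarith

theorem k_BSIDE : T_BSIDE := by
  intro k R z hz
  set d := zt ^ (k + 10) with hd
  have hP : ∀ i ≤ R, pt k i (R - i) = zt ^ k * ((R : ℂ) * uu + ((R - i : ℕ) : ℂ) * zt ^ 10) := by
    intro i hi
    have h1 : (R : ℂ) = (i : ℂ) + ((R - i : ℕ) : ℂ) := by
      rw [← Nat.cast_add]; congr 1; omega
    simp only [pt]
    rw [zt_mul_uu, h1]; ring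
  have hstep : ∀ i < R, pt k i (R - i) - pt k (i + 1) (R - (i + 1)) = d := by
    intro i hi
    rw [hP i hi.le, hP (i + 1) hi, hd, pow_add]
    have h1 : ((R - i : ℕ) : ℂ) = ((R - (i + 1) : ℕ) : ℂ) + 1 := by
      rw [← Nat.cast_add_one]; congr 1; omega
    rw [h1]; ring
  have hcr : ∀ i ≤ R, 0 < cr d (z - pt k i (R - i)) := by
    intro i hi
    rw [hP i hi, cr_sub_right, hd, pow_add, mul_comm (zt ^ k) (zt ^ 10)]
    have e1 : cr (zt ^ 10 * zt ^ k) (zt ^ k * ((R : ℂ) * uu + ((R - i : ℕ) : ℂ) * zt ^ 10))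
        = (R : ℝ) * cr (zt ^ 10) uu := by
      rw [mul_comm (zt ^ 10) (zt ^ k), cr_zt_mul, cr_add_right]
      have a1 := cr_real_right (R : ℝ) (zt ^ 10) uu
      have a2 := cr_real_right ((R - i : ℕ) : ℝ) (zt ^ 10) (zt ^ 10)
      push_cast at a1 a2
      rw [a1, a2, cr_self]; ring
    rw [e1]
    have h2 : |cr (zt ^ 10 * zt ^ k) z| ≤ ‖z‖ := by
      have := abs_cr_le (zt ^ 10 * zt ^ k) z
      rwa [norm_mul, zt_pow_norm, zt_pow_norm, one_mul, one_mul] at this
    have h3 := (abs_le.mp h2).1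
    have h4 := bs_uu
    have hR : (0 : ℝ) ≤ R := Nat.cast_nonneg R
    nlinarith
  have hterm : ∀ i ∈ range R, chi z (pt k (i + 1) (R - 1 - i)) (pt k i (R - i))
      = if 0 < d.im then
          (if (pt k (i + 1) (R - (i + 1))).im ≤ z.im then (1 : ℤ) else 0)
            - (if (pt k i (R - i)).im ≤ z.im then 1 else 0)
        else 0 := by
    intro i hi
    have hi' := mem_range.mp hi
    have e1 : R - 1 - i = R - (i + 1) := by omega
    rw [e1]
    unfold chi
    rw [hstep i hi']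
    have hc := hcr (i + 1) hi'
    have him : (pt k i (R - i)).im = (pt k (i + 1) (R - (i + 1))).im + d.im := by
      rw [← hstep i hi', Complex.sub_im]; ring
    have hno : ¬ ((pt k i (R - i)).im ≤ z.im ∧ z.im < (pt k (i + 1) (R - (i + 1))).im ∧
        cr d (z - pt k (i + 1) (R - (i + 1))) < 0) := by
      rintro ⟨_, _, h⟩; linarith
    rw [if_neg hno]
    by_cases hdi : 0 < d.im
    · rw [if_pos hdi]
      by_cases ha : (pt k (i + 1) (R - (i + 1))).im ≤ z.im
      · by_cases hb : (pt k i (R - i)).im ≤ z.im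
        · rw [if_neg (by rintro ⟨_, h, _⟩; linarith), if_pos ha, if_pos hb]; rfl
        · push Not at hb
          rw [if_pos ⟨ha, hb, hc⟩, if_pos ha, if_neg (not_le.mpr hb)]; rfl
      · have hb : ¬ (pt k i (R - i)).im ≤ z.im := by
          intro h; apply ha; linarith
        rw [if_neg (fun h => ha h.1), if_neg ha, if_neg hb]; rfl
    · rw [if_neg hdi, if_neg]
      rintro ⟨h1, h2, _⟩
      apply hdi
      linarith
  unfold BB
  rw [sum_congr rfl hterm]
  by_cases hdi : 0 < d.im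
  · simp only [if_pos hdi]
    rw [sum_range_sub (fun i => if (pt k i (R - i)).im ≤ z.im then (1 : ℤ) else 0) R]
    have e1 : pt k R (R - R) = pt k R 0 := by rw [Nat.sub_self]
    have e2 : pt k 0 (R - 0) = pt (k + 1) R 0 := by
      simp only [pt, Nat.sub_zero]
      push_cast; ring
    simp only [e1, e2]
  · simp only [if_neg hdi, sum_const_zero]

end VT927
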