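import Pool.Agent.H927R2.VT.Basic

/-! task CB -/

open Finset

namespace VT927

theorem k_CB : T_CB := by
  let Φ : ℂ ≃ₗᵢ[ℝ] EuclideanSpace ℝ (Fin 2) := Complex.orthonormalBasisOneI.repr
  have h : Metric.closedBall (0 : E2) 1 = Φ.toHomeomorph '' Metric.closedBall (0 : ℂ) 1 := by
    have := Φ.image_closedBall (0 : ℂ) 1
    rw [map_zero] at this
    exact this.symm
  rw [T_CB, h]
  exact ⟨Φ.toHomeomorph.image _⟩

end VT927
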