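import Pool.Agent.H927R2.VT.Basic

/-! task CC -/

open Finset

namespace VT927

theorem k_CC : T_KER → T_CC := by
  intro hK x
  set σ : ℕ → ℝ := fun e => cr (vx e - cc) x with hσ
  have h11 : σ 11 = σ 0 := by
    simp only [hσ]
    congr 2
    rw [vx_of_gt (by norm_num), vx_of_le (by norm_num)]
    simp [LL]
  have h13 : 9 * σ 3 + σ 1 = 0 := by
    simp only [hσ]
    have e : cc = (9 / 10) * vx 3 + (1 / 10) * vx 1 := by
      rw [vx_of_le (by norm_num), vx_of_le (by norm_num)]
      simp only [cc, LL, sum_range_succ, sum_range_zero, pow_zero, pow_one]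
      ring
    have e2 : (9 : ℂ) * (vx 3 - cc) + (vx 1 - cc) = 0 := by
      rw [e]; ring
    have e3 : cr ((9 : ℂ) * (vx 3 - cc) + (vx 1 - cc)) x = 0 := by rw [e2, cr_zero_left]
    rw [cr_add_left] at e3
    have e4 : cr ((9 : ℂ) * (vx 3 - cc)) x = 9 * cr (vx 3 - cc) x := by
      have := cr_real_left 9 (vx 3 - cc) x
      simpa using this
    rw [e4] at e3
    exact e3
  -- there is e < 11 with σ e ≥ 0 and σ (e+1) ≤ 0
  have hex : ∃ e < 11, 0 ≤ σ e ∧ σ (e + 1) ≤ 0 := by
    by_contra hcon
    push Not at hcon
    have step : ∀ e < 11, 0 ≤ σ e → 0 < σ (e + 1) := fun e he h => hcon e he h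
    have up : ∀ n a : ℕ, a + n ≤ 11 → 0 ≤ σ a → 0 ≤ σ (a + n) := by
      intro n
      induction n with
      | zero => intro a _ h; simpa using h
      | succ n ih =>
        intro a ha h
        have := ih a (by omega) h
        exact (step (a + n) (by omega) this).le
    have allpos : 0 ≤ σ 0 → (0 < σ 1 ∧ 0 < σ 3) := by
      intro h0
      have h2 := up 2 0 (by norm_num) h0
      exact ⟨step 0 (by norm_num) h0, step 2 (by norm_num) h2⟩
    have hcase : 0 ≤ σ 1 ∨ 0 ≤ σ 3 := by
      by_contra h
      push Not at h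
      linarith [h.1, h.2]
    have h0 : 0 ≤ σ 0 := by
      rw [← h11]
      rcases hcase with h | h
      · exact up 10 1 (by norm_num) h
      · exact up 8 3 (by norm_num) h
    have := allpos h0
    linarith [this.1, this.2]
  obtain ⟨e, he, h0, h1⟩ := hex
  have hD : 0 < cr (vx e - cc) (vx (e + 1) - cc) := by
    have := hK e he
    have e1 : cr (vx (e + 1) - vx e) (cc - vx e) = cr (vx e - cc) (vx (e + 1) - cc) := by
      simp only [cr, Complex.sub_re, Complex.sub_im]; ring
    rw [e1] at this
    exact this
  set A := vx e - cc with hA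
  set B := vx (e + 1) - cc with hB
  have hD0 : cr A B ≠ 0 := ne_of_gt hD
  refine ⟨e, he, - cr B x / cr A B, cr A x / cr A B, ?_, ?_, ?_⟩
  · apply div_nonneg _ hD.le
    have : σ (e + 1) = cr B x := rfl
    linarith
  · exact div_nonneg h0 hD.le
  · have hre : cr A B * x.re = - cr B x * A.re + cr A x * B.re := by
      simp only [cr]; ring
    have him : cr A B * x.im = - cr B x * A.im + cr A x * B.im := by
      simp only [cr]; ring
    apply Complex.ext
    · simp only [Complex.add_re, Complex.mul_re, Complex.ofReal_re, Complex.ofReal_im, zero_mul, sub_zero]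
      field_simp
      linarith
    · simp only [Complex.add_im, Complex.mul_im, Complex.ofReal_re, Complex.ofReal_im, zero_mul, add_zero]
      field_simp
      linarith

end VT927
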