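import Pool.Agent.H927R2.VT.Basic

/-! task CINT -/

open Finset

namespace VT927

theorem k_CINT : T_FF → T_CINT := by
  rintro ⟨f, hc, hh, hp, hT⟩
  have hf0 : f 0 = 0 := by
    have := hh 0 (le_refl _) 0
    simpa using this
  have hset : Tile = {z | f (z - cc) ≤ 1} := by
    ext z; exact hT z
  have hcont : Continuous (fun z : ℂ => f (z - cc)) := hc.comp (continuous_id.sub continuous_const)
  have hint : {z : ℂ | f (z - cc) < 1} ⊆ interior Tile := by
    apply interior_maximal
    · intro z hz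
      rw [hset]
      exact le_of_lt (show f (z - cc) < 1 from hz)
    · exact isOpen_lt hcont continuous_const
  refine ⟨?_, ?_, ?_⟩
  · rw [hset]
    exact isClosed_le hcont continuous_const
  · intro z hz
    have hz1 : f (z - cc) ≤ 1 := (hT z).1 hz
    have hnn : 0 ≤ f (z - cc) := by
      by_cases h : z - cc = 0
      · rw [h, hf0]
      · exact (hp _ h).le
    rw [Metric.mem_closure_iff]
    intro ε hε
    set N := ‖z - cc‖ with hN
    have hNn : 0 ≤ N := norm_nonneg _
    -- t = 1 - δ
    obtain ⟨δ, hδ0, hδ1, hδ2⟩ : ∃ δ : ℝ, 0 < δ ∧ δ ≤ 1 ∧ δ * N < ε := by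
      refine ⟨min 1 (ε / (2 * (N + 1))), ?_, min_le_left _ _, ?_⟩
      · apply lt_min one_pos
        positivity
      · have h1 : min 1 (ε / (2 * (N + 1))) ≤ ε / (2 * (N + 1)) := min_le_right _ _
        have h2 : min 1 (ε / (2 * (N + 1))) * N ≤ ε / (2 * (N + 1)) * N :=
          mul_le_mul_of_nonneg_right h1 hNn
        have h3 : ε / (2 * (N + 1)) * N < ε := by
          rw [div_mul_eq_mul_div, div_lt_iff₀ (by positivity)]
          nlinarith
        linarith
    refine ⟨cc + ((1 - δ : ℝ) : ℂ) * (z - cc), ?_, ?_⟩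
    · apply hint
      show f (cc + ((1 - δ : ℝ) : ℂ) * (z - cc) - cc) < 1
      have e : cc + ((1 - δ : ℝ) : ℂ) * (z - cc) - cc = ((1 - δ : ℝ) : ℂ) * (z - cc) := by ring
      rw [e, hh _ (by linarith)]
      nlinarith
    · rw [dist_eq_norm]
      have e : z - (cc + ((1 - δ : ℝ) : ℂ) * (z - cc)) = (δ : ℂ) * (z - cc) := by
        push_cast; ring
      rw [e, norm_mul, Complex.norm_real, Real.norm_eq_abs, abs_of_pos hδ0]
      exact hδ2
  · refine ⟨cc, hint ?_⟩
    show f (cc - cc) < 1
    rw [sub_self, hf0]; exact one_pos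

end VT927
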