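import Pool.Agent.H927R2.VT.Ori

/-! task CN -/

open Finset

namespace VT927

theorem cr_LL_left (n : ℕ) (x : ℂ) : cr (LL n) x = ∑ t ∈ range n, cr (zt ^ t) x := by
  rw [cr_swap, LL, cr_sum_right, ← sum_neg_distrib]
  exact sum_congr rfl fun t _ => (cr_swap _ _).symm

theorem cr_ztLL_left (n : ℕ) (x : ℂ) : cr (zt * LL n) x = ∑ t ∈ range n, cr (zt ^ (t + 1)) x := by
  rw [cr_swap, LL, mul_sum, cr_sum_right, ← sum_neg_distrib]
  refine sum_congr rfl fun t _ => ?_
  rw [cr_swap, neg_neg, pow_succ, mul_comm]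

theorem k_CN : T_BARY → T_KER → T_BETA → T_CN := by
  intro hB hK hBe w hw
  have Q0 : 0 ≤ cr (zt ^ 0) (zt ^ 3) := cr_zt_nonneg (by norm_num) (by norm_num)
  have Q1 : 0 ≤ cr (zt ^ 1) (zt ^ 3) := cr_zt_nonneg (by norm_num) (by norm_num)
  have Q2 : 0 ≤ cr (zt ^ 2) (zt ^ 3) := cr_zt_nonneg (by norm_num) (by norm_num)
  have Q3 : cr (zt ^ 3) (zt ^ 3) = 0 := cr_self _
  have Q4 : cr (zt ^ 4) (zt ^ 3) = - cr (zt ^ 2) (zt ^ 3) := by
    rw [cr_zt, cr_zt, ← Real.sin_neg]
    congr 1; push_cast; ring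
  have Q5 : cr (zt ^ 5) (zt ^ 3) = - cr (zt ^ 1) (zt ^ 3) := by
    rw [cr_zt, cr_zt, ← Real.sin_neg]
    congr 1; push_cast; ring
  have hcc : 0 ≤ cr cc (zt ^ 3) := by
    have : cc = zt ^ 0 + ((9 / 10 : ℝ) : ℂ) * (zt ^ 1 + zt ^ 2) := by
      unfold cc; push_cast; ring
    rw [this, cr_add_left, cr_real_left, cr_add_left]
    linarith
  have hv : ∀ e < 12, 0 ≤ cr (vx e) (zt ^ 3) := by
    intro e he
    by_cases h5 : e ≤ 5
    · rw [vx_of_le h5, cr_LL_left]
      interval_cases e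
      all_goals simp only [sum_range_succ, sum_range_zero]
      all_goals linarith
    · rw [vx_of_gt (by omega), cr_ztLL_left]
      have h6 : 6 ≤ e := by omega
      interval_cases e
      all_goals simp only [sum_range_succ, sum_range_zero, Nat.reduceSub, Nat.reduceAdd]
      all_goals linarith
  obtain ⟨e, he, hz⟩ := hBe w hw
  obtain ⟨α, β, γ, h1, h2, h3, h4, h5⟩ := hB cc (vx e) (vx (e + 1)) w (ker_orient hK he) hz
  have hq : 0 ≤ cr w (zt ^ 3) := by
    rw [h5, cr_add_left, cr_add_left, cr_real_left, cr_real_left, cr_real_left]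
    have := hv e (by omega)
    have := hv (e + 1) (by omega)
    positivity
  have him : 0 ≤ w.im := by
    have := hw.1 0 (by norm_num)
    simpa [phi, cr, LL] using this
  have hs3 : 0 < (zt ^ 3).im := by
    rw [zt_pow_im]; exact sin_pos_k (by norm_num) (by norm_num)
  refine ⟨cr w (zt ^ 3) / (zt ^ 3).im, w.im / (zt ^ 3).im, div_nonneg hq hs3.le, div_nonneg him hs3.le, ?_⟩
  apply Complex.ext
  · simp only [cr, Complex.add_re, Complex.mul_re, Complex.ofReal_re, Complex.ofReal_im, zero_mul, sub_zero]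
    field_simp
    ring
  · simp only [Complex.add_im, Complex.mul_im, Complex.ofReal_re, Complex.ofReal_im, zero_mul, add_zero, zero_add]
    field_simp

end VT927
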