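import Pool.Agent.H927R2.VT.Basic

/-! task CONE -/

open Finset

namespace VT927

theorem k_CONE : T_CN → T_CONE := by
  intro hC w hw hw0 k hk
  obtain ⟨s, t, hs, ht, rfl⟩ := hC w hw
  have hpi := Real.pi_pos
  have hk' : (k : ℝ) ≤ 9 := by
    have : k ≤ 9 := by omega
    exact_mod_cast this
  have hk0 : (0 : ℝ) ≤ k := Nat.cast_nonneg k
  have e1 : (zt ^ (25 + k) * ((s : ℂ) + (t : ℂ) * zt ^ 3)).re
      = s * (zt ^ (25 + k)).re + t * (zt ^ (28 + k)).re := by
    have : zt ^ (25 + k) * ((s : ℂ) + (t : ℂ) * zt ^ 3)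
        = (s : ℂ) * zt ^ (25 + k) + (t : ℂ) * zt ^ (28 + k) := by
      rw [show 28 + k = (25 + k) + 3 by ring, pow_add zt (25 + k) 3]; ring
    rw [this]
    simp [Complex.mul_re]
  have c1 : 0 < (zt ^ (25 + k)).re := by
    rw [zt_pow_re]
    have : ((25 + k : ℕ) : ℝ) * (Real.pi / 15) = (((k : ℝ) - 5) * (Real.pi / 15)) + 2 * Real.pi := by
      push_cast; ring
    rw [this, Real.cos_add_two_pi]
    apply Real.cos_pos_of_mem_Ioo
    constructor <;> nlinarith
  have c2 : 0 < (zt ^ (28 + k)).re := by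
    rw [zt_pow_re]
    have : ((28 + k : ℕ) : ℝ) * (Real.pi / 15) = (((k : ℝ) - 2) * (Real.pi / 15)) + 2 * Real.pi := by
      push_cast; ring
    rw [this, Real.cos_add_two_pi]
    apply Real.cos_pos_of_mem_Ioo
    constructor <;> nlinarith
  rw [e1]
  rcases eq_or_lt_of_le hs with h | h
  · rcases eq_or_lt_of_le ht with h' | h'
    · exfalso; apply hw0; rw [← h, ← h']; simp
    · have := mul_pos h' c2
      have := mul_nonneg hs c1.le
      linarith
  · have := mul_pos h c1
    have := mul_nonneg ht c2.le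
    linarith

end VT927
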