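import Pool.Agent.H927R2.VT.Basic

/-! task COV -/

open Finset

namespace VT927

theorem k_COV : T_TOT1 → T_WIN → T_COV := by
  intro hT hW z
  obtain ⟨R, hR⟩ := exists_nat_gt ‖z‖
  have h1 := hT R z hR
  by_contra hcon
  push Not at hcon
  have hU : ∀ k < 30, ∀ i j, WU k i j z ≤ 0 := by
    intro k hk i j
    by_contra h
    push Not at h
    exact hcon false k i j hk (hW false (pt k i j) (zt ^ k) z (zt_pow_norm _) h)
  have hV : ∀ k < 30, ∀ i j, WV k i j z ≤ 0 := by
    intro k hk i j
    by_contra h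
    push Not at h
    exact hcon true k i j hk (hW true (pt k (i + 1) (j + 1)) (zt ^ (k + 20)) z (zt_pow_norm _) h)
  have : Tot R z ≤ 0 := by
    unfold Tot
    apply sum_nonpos
    intro k hk
    have hk' : k < 30 := mem_range.mp hk
    apply sum_nonpos
    intro r _
    unfold Row
    have a1 : ∑ i ∈ range (r + 1), WU k i (r - i) z ≤ 0 := sum_nonpos fun i _ => hU k hk' _ _
    have a2 : ∑ i ∈ range r, WV k i (r - 1 - i) z ≤ 0 := sum_nonpos fun i _ => hV k hk' _ _
    linarith
  omega

end VT927
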