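import Pool.Agent.H927R2.VT.Basic

/-! task CPOS: position of cc (15-30 lines) -/

open Finset

namespace VT927

theorem k_CPOS : T_KER → T_CPOS := by
  intro hK
  refine ⟨fun j hj => ?_, fun j hj => ?_, ?_⟩
  · have h := hK j (by omega)
    rw [vx_of_le (by omega), vx_of_le (by omega), LL_succ] at h
    have e : LL j + zt ^ j - LL j = zt ^ j := by ring
    rw [e] at h
    exact h
  · have h := hK (10 - j) (by omega)
    rw [vx_of_gt (e := 10 - j + 1) (by omega), vx_of_gt (e := 10 - j) (by omega)] at h
    have e1 : 11 - (10 - j + 1) = j := by omega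
    have e2 : 11 - (10 - j) = j + 1 := by omega
    rw [e1, e2, LL_succ] at h
    have e3 : zt * LL j - zt * (LL j + zt ^ j) = -(zt ^ (j + 1)) := by ring
    have e4 : cc - zt * (LL j + zt ^ j) = (cc - zt * LL j) - zt ^ (j + 1) := by ring
    rw [e3, e4, cr_neg_left, cr_sub_right, cr_self, sub_zero] at h
    have h2 : phi j (zt⁻¹ * cc) = cr (zt ^ (j + 1)) (cc - zt * LL j) := by
      unfold phi
      rw [← cr_mul_of_norm zt_norm (zt ^ j)]
      have e5 : zt * zt ^ j = zt ^ (j + 1) := by ring
      have e6 : zt * (zt⁻¹ * cc - LL j) = cc - zt * LL j := by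
        rw [mul_sub, mul_inv_cancel_left₀ zt_ne]
      rw [e5, e6]
    rw [h2]
    linarith
  · have h := hK 5 (by norm_num)
    rw [vx_of_gt (e := 5 + 1) (by norm_num), vx_of_le le_rfl] at h
    have e1 : 11 - (5 + 1) = 5 := by norm_num
    rw [e1] at h
    have e2 : zt * LL 5 - LL 5 = zt ^ 10 := by
      have := zt_mul_uu
      rw [uu] at this
      rw [this]
      ring
    rw [e2] at h
    exact h

end VT927
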