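import Pool.Agent.H927R2.VT.Basic

/-! task DIS -/

open Finset

namespace VT927

theorem k_DIS : T_TWO → T_WOP → T_DIS := by
  intro h2 hW b k i j b' k' i' j' hk hk' hne O hO h1 h1'
  by_contra hcon
  have hne0 : O.Nonempty := Set.nonempty_iff_ne_empty.mpr hcon
  have key : ∀ (b : Bool) (k i j : ℕ) (O : Set ℂ), IsOpen O → O.Nonempty → O ⊆ tl b k i j →
      ∃ O' ⊆ O, IsOpen O' ∧ O'.Nonempty ∧ ∀ z ∈ O', 1 ≤ WT b k i j z := by
    intro b k i j O hO hne hsub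
    cases b with
    | false =>
      exact hW false (pt k i j) (zt ^ k) (zt_pow_norm _) O hO hne hsub
    | true =>
      exact hW true (pt k (i + 1) (j + 1)) (zt ^ (k + 20)) (zt_pow_norm _) O hO hne hsub
  obtain ⟨O1, hs1, ho1, hn1, hp1⟩ := key b k i j O hO hne0 h1
  obtain ⟨O2, hs2, ho2, ⟨z, hz⟩, hp2⟩ := key b' k' i' j' O1 ho1 hn1 (hs1.trans h1')
  exact h2 b k i j b' k' i' j' z hk hk' hne ⟨hp1 z (hs2 hz), hp2 z hz⟩

end VT927
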