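import Pool.Agent.H927R2.VT.Basic

/-! task EU -/

open Finset

namespace VT927

theorem k_EU : T_ANTI → T_EU := by
  intro hA k i j z
  have hv : ∀ e : ℕ, e < 11 →
      chi z (mp false (pt k i j) (zt ^ k) (vx e)) (mp false (pt k i j) (zt ^ k) (vx (e + 1)))
      = if e < 5 then chi z (pt k i j + zt ^ k * LL e) (pt k i j + zt ^ k * LL (e + 1))
        else if e = 5 then chi z (pt k (i + 1) j) (pt k i (j + 1))
        else - chi z (pt k i j + zt ^ (k + 1) * LL (10 - e)) (pt k i j + zt ^ (k + 1) * LL (11 - e)) := by
    intro e he
    by_cases h5 : e < 5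
    · rw [if_pos h5, vx_of_le (by omega), vx_of_le (by omega), mp_false, mp_false]
    · rw [if_neg h5]
      by_cases h6 : e = 5
      · subst h6
        rw [if_pos rfl, vx_of_le (by omega), vx_of_gt (by omega), mp_false, mp_false]
        congr 1
        · simp only [pt, uu]; push_cast; ring
        · simp only [pt, uu, Nat.reduceAdd, Nat.reduceSub]; push_cast; ring
      · rw [if_neg h6, vx_of_gt (by omega), vx_of_gt (by omega), mp_false, mp_false, ← hA]
        have e1 : 11 - (e + 1) = 10 - e := by omega
        rw [e1, pow_succ]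
        congr 1 <;> ring
  unfold ES leg
  rw [sum_congr rfl fun e he => hv e (mem_range.mp he)]
  simp only [sum_range_succ, sum_range_zero]
  norm_num
  ring

end VT927
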