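import Pool.Agent.H927R2.VT.Basic

/-! task EV -/

open Finset

namespace VT927

theorem ev_pw {t : ℕ} (ht : t ≤ 5) : zt ^ 20 * zt⁻¹ ^ t = - zt ^ (5 - t) := by
  have h1 : zt ^ 20 = zt ^ 15 * zt ^ (5 - t) * zt ^ t := by
    rw [← pow_add, ← pow_add]; congr 1; omega
  have h2 : zt ^ t * zt⁻¹ ^ t = 1 := by
    rw [← mul_pow, mul_inv_cancel₀ zt_ne, one_pow]
  rw [h1, mul_assoc, h2, zt_pow_15]; ring

theorem ev_key {m : ℕ} (hm : m ≤ 5) :
    zt ^ 20 * (starRingEnd ℂ) (LL m) = - zt * (LL 5 - LL (5 - m)) := by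
  have h1 : zt ^ 20 * (starRingEnd ℂ) (LL m) = ∑ t ∈ range m, - zt ^ (5 - t) := by
    rw [LL, map_sum, mul_sum]
    refine sum_congr rfl fun t ht => ?_
    rw [zt_conj_pow]
    exact ev_pw (by have := mem_range.mp ht; omega)
  rw [h1]
  interval_cases m <;> simp only [LL, sum_range_succ, sum_range_zero, Nat.reduceSub] <;> ring

theorem k_EV : T_ANTI → T_EV := by
  intro hA k i j z
  have c1 : ∀ m ≤ 5, mp true (pt k (i + 1) (j + 1)) (zt ^ (k + 20)) (LL m)
      = pt k (i + 1) j + zt ^ (k + 1) * LL (5 - m) := by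
    intro m hm
    rw [mp_true, pow_add, mul_assoc, ev_key hm]
    simp only [pt, uu]
    push_cast
    ring
  have c2 : ∀ m ≤ 5, mp true (pt k (i + 1) (j + 1)) (zt ^ (k + 20)) (zt * LL m)
      = pt k i (j + 1) + zt ^ k * LL (5 - m) := by
    intro m hm
    rw [mp_true, map_mul, zt_conj]
    have e : zt ^ (k + 20) * (zt⁻¹ * (starRingEnd ℂ) (LL m))
        = zt ^ k * (zt⁻¹ * (zt ^ 20 * (starRingEnd ℂ) (LL m))) := by
      rw [pow_add]; ring
    rw [e, ev_key hm]
    have e2 : zt⁻¹ * (-zt * (LL 5 - LL (5 - m))) = - (LL 5 - LL (5 - m)) := by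
      have := zt_ne
      field_simp
    rw [e2]
    simp only [pt, uu]
    push_cast
    ring
  have hv : ∀ e : ℕ, e < 11 →
      chi z (mp true (pt k (i + 1) (j + 1)) (zt ^ (k + 20)) (vx e))
        (mp true (pt k (i + 1) (j + 1)) (zt ^ (k + 20)) (vx (e + 1)))
      = if e < 5 then
          - chi z (pt k (i + 1) j + zt ^ (k + 1) * LL (4 - e)) (pt k (i + 1) j + zt ^ (k + 1) * LL (5 - e))
        else if e = 5 then chi z (pt k (i + 1) j) (pt k i (j + 1))
        else chi z (pt k i (j + 1) + zt ^ k * LL (e - 6)) (pt k i (j + 1) + zt ^ k * LL (e - 5)) := by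
    intro e he
    by_cases h5 : e < 5
    · rw [if_pos h5, vx_of_le (by omega), vx_of_le (by omega), c1 e (by omega), c1 (e + 1) (by omega), ← hA]
      have e1 : 5 - (e + 1) = 4 - e := by omega
      rw [e1]
    · rw [if_neg h5]
      by_cases h6 : e = 5
      · subst h6
        rw [if_pos rfl, vx_of_le (by omega), vx_of_gt (by omega), c1 5 (by omega), c2 _ (by omega)]
        simp [LL_zero]
      · rw [if_neg h6, vx_of_gt (by omega), vx_of_gt (by omega), c2 _ (by omega), c2 _ (by omega)]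
        have e1 : 5 - (11 - e) = e - 6 := by omega
        have e2 : 5 - (11 - (e + 1)) = e - 5 := by omega
        rw [e1, e2]
  unfold ES leg
  rw [sum_congr rfl fun e he => hv e (mem_range.mp he)]
  simp only [sum_range_succ, sum_range_zero]
  norm_num
  ring

end VT927
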