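import Pool.Agent.H927R2.VT.Basic

/-! task FF: gauge of the tile (60-110 lines) -/

open Finset

namespace VT927

namespace KFF

noncomputable def mx (g : ℕ → ℝ) : ℝ := max (max (max (max (g 0) (g 1)) (g 2)) (g 3)) (g 4)
noncomputable def mn (g : ℕ → ℝ) : ℝ := min (min (min (min (g 0) (g 1)) (g 2)) (g 3)) (g 4)

theorem mx_le {g : ℕ → ℝ} {c : ℝ} : mx g ≤ c ↔ ∀ j < 5, g j ≤ c := by
  unfold mx
  simp only [max_le_iff]
  constructor
  · rintro ⟨⟨⟨⟨h0, h1⟩, h2⟩, h3⟩, h4⟩ j hj
    interval_cases j <;> assumption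
  · intro h
    exact ⟨⟨⟨⟨h 0 (by norm_num), h 1 (by norm_num)⟩, h 2 (by norm_num)⟩, h 3 (by norm_num)⟩, h 4 (by norm_num)⟩

theorem mn_le {g : ℕ → ℝ} {c : ℝ} : mn g ≤ c ↔ ∃ j < 5, g j ≤ c := by
  unfold mn
  simp only [min_le_iff]
  constructor
  · rintro ((((h | h) | h) | h) | h)
    · exact ⟨0, by norm_num, h⟩
    · exact ⟨1, by norm_num, h⟩
    · exact ⟨2, by norm_num, h⟩
    · exact ⟨3, by norm_num, h⟩
    · exact ⟨4, by norm_num, h⟩
  · rintro ⟨j, hj, h⟩
    interval_cases j
    · exact Or.inl (Or.inl (Or.inl (Or.inl h)))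
    · exact Or.inl (Or.inl (Or.inl (Or.inr h)))
    · exact Or.inl (Or.inl (Or.inr h))
    · exact Or.inl (Or.inr h)
    · exact Or.inr h

theorem mx_mul {t : ℝ} (ht : 0 ≤ t) (g : ℕ → ℝ) : mx (fun j => t * g j) = t * mx g := by
  unfold mx
  simp only [mul_max_of_nonneg _ _ ht]

theorem mn_mul {t : ℝ} (ht : 0 ≤ t) (g : ℕ → ℝ) : mn (fun j => t * g j) = t * mn g := by
  unfold mn
  simp only [mul_min_of_nonneg _ _ ht]

noncomputable def lam (x : ℂ) (j : ℕ) : ℝ := - cr (zt ^ j) x / phi j cc
noncomputable def lamb (x : ℂ) : ℝ := - cr (zt ^ 10) x / cr (zt ^ 10) (cc - uu)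
noncomputable def mu (x : ℂ) (j : ℕ) : ℝ := cr (zt ^ (j + 1)) x / (- phi j (zt⁻¹ * cc))

noncomputable def ff (x : ℂ) : ℝ := max (mx (lam x)) (max (lamb x) (mn (mu x)))

theorem ff_cont : Continuous ff := by
  unfold ff mx mn lam lamb mu
  have h := cr_continuous_right
  have h1 : ∀ j : ℕ, Continuous (fun x : ℂ => - cr (zt ^ j) x / phi j cc) := fun j =>
    ((h _).neg).div_const _
  have h2 : Continuous (fun x : ℂ => - cr (zt ^ 10) x / cr (zt ^ 10) (cc - uu)) :=
    ((h _).neg).div_const _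
  have h3 : ∀ j : ℕ, Continuous (fun x : ℂ => cr (zt ^ (j + 1)) x / (- phi j (zt⁻¹ * cc))) := fun j =>
    (h _).div_const _
  exact ((((((h1 0).max (h1 1)).max (h1 2)).max (h1 3)).max (h1 4))).max
    (h2.max (((((h3 0).min (h3 1)).min (h3 2)).min (h3 3)).min (h3 4)))

theorem ff_hom (t : ℝ) (ht : 0 ≤ t) (x : ℂ) : ff ((t : ℂ) * x) = t * ff x := by
  unfold ff
  have h1 : lam ((t : ℂ) * x) = fun j => t * lam x j := by
    funext j; simp only [lam, cr_real_right]; ring
  have h2 : lamb ((t : ℂ) * x) = t * lamb x := by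
    simp only [lamb, cr_real_right]; ring
  have h3 : mu ((t : ℂ) * x) = fun j => t * mu x j := by
    funext j; simp only [mu, cr_real_right]; ring
  rw [h1, h2, h3, mx_mul ht, mn_mul ht, mul_max_of_nonneg _ _ ht, mul_max_of_nonneg _ _ ht]

theorem phi_rot (j : ℕ) (z : ℂ) :
    phi j (zt⁻¹ * z) = phi j (zt⁻¹ * cc) + cr (zt ^ (j + 1)) (z - cc) := by
  have h : zt⁻¹ * z = zt⁻¹ * cc + zt⁻¹ * (z - cc) := by ring
  rw [h, phi_sub]
  congr 1
  have h2 := cr_mul_of_norm zt_norm (zt ^ j) (zt⁻¹ * (z - cc))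
  rw [← h2, ← mul_assoc zt zt⁻¹, mul_inv_cancel₀ zt_ne, one_mul, pow_succ']

theorem phi_sh (j : ℕ) (z : ℂ) : phi j z = phi j cc + cr (zt ^ j) (z - cc) := by
  have h : z = cc + (z - cc) := by ring
  conv_lhs => rw [h]
  rw [phi_sub]

end KFF

open KFF

theorem k_FF : T_KER → T_CPOS → T_VTX → T_CC → T_FF := by
  intro _ hC hV hcc
  obtain ⟨hC1, hC2, hC3⟩ := hC
  refine ⟨ff, ff_cont, ff_hom, ?_, ?_⟩
  · intro x hx
    obtain ⟨e, he, s, t, hs, ht, hxe⟩ := hcc x
    have hst : 0 < s + t := by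
      rcases (add_nonneg hs ht).lt_or_eq with h | h
      · exact h
      · exfalso
        have h1 : s = 0 := by linarith
        have h2 : t = 0 := by linarith
        apply hx
        rw [hxe, h1, h2]; simp
    have hcr : ∀ j : ℕ, cr (zt ^ j) x = s * cr (zt ^ j) (vx e - cc) + t * cr (zt ^ j) (vx (e + 1) - cc) := by
      intro j
      rw [hxe, cr_add_right, cr_real_right, cr_real_right]
    rcases Nat.lt_trichotomy e 5 with h5 | h5 | h5
    · -- a leg edge
      have hp := hC1 e h5
      have e1 : cr (zt ^ e) (vx e - cc) = - phi e cc := by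
        have := phi_sh e (vx e)
        have h0 : phi e (vx e) = 0 := by
          rw [vx_of_le (by omega)]; unfold phi; rw [sub_self, cr_zero_right]
        linarith
      have e2 : cr (zt ^ e) (vx (e + 1) - cc) = - phi e cc := by
        have := phi_sh e (vx (e + 1))
        have h0 : phi e (vx (e + 1)) = 0 := by
          rw [vx_of_le (by omega), LL_succ]; unfold phi
          rw [add_sub_cancel_left, cr_self]
        linarith
      have hl : lam x e = s + t := by
        unfold lam
        rw [hcr e, e1, e2]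
        field_simp
        ring
      have : lam x e ≤ mx (lam x) := (mx_le.mp le_rfl) e h5
      have h3 : mx (lam x) ≤ ff x := le_max_left _ _
      linarith
    · subst h5
      have e1 : cr (zt ^ 10) (vx 5 - cc) = - cr (zt ^ 10) (cc - uu) := by
        rw [vx_of_le (le_refl 5)]
        rw [show LL 5 - cc = -(cc - uu) by unfold uu; ring, cr_neg_right]
      have e2 : cr (zt ^ 10) (vx (5 + 1) - cc) = - cr (zt ^ 10) (cc - uu) := by
        rw [vx_of_gt (by norm_num)]
        have h0 : zt * LL (11 - (5 + 1)) = uu + zt ^ 10 := by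
          rw [← zt_mul_uu]; rfl
        rw [h0, show uu + zt ^ 10 - cc = zt ^ 10 + -(cc - uu) by ring, cr_add_right, cr_self,
          cr_neg_right, zero_add]
      have hl : lamb x = s + t := by
        unfold lamb
        rw [hcr 10, e1, e2]
        field_simp
        ring
      have h3 : lamb x ≤ ff x := le_trans (le_max_left _ _) (le_max_right _ _)
      linarith
    · -- concave leg
      have key : ∀ e', 5 < e' → e' < 12 → ∀ j < 5,
          - phi j (zt⁻¹ * cc) ≤ cr (zt ^ (j + 1)) (vx e' - cc) := by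
        intro e' h1 h2 j hj
        have h3 := phi_rot j (vx e')
        have h4 : zt⁻¹ * vx e' = LL (11 - e') := by
          rw [vx_of_gt h1, ← mul_assoc, inv_mul_cancel₀ zt_ne, one_mul]
        have h5 := (hV (11 - e') (by omega)).1 j hj
        rw [vx_of_le (by omega)] at h5
        rw [h4] at h3
        linarith
      have hmu : ∀ j < 5, s + t ≤ mu x j := by
        intro j hj
        have hp := hC2 j hj
        have k1 := key e h5 (by omega) j hj
        have k2 := key (e + 1) (by omega) (by omega) j hj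
        unfold mu
        rw [le_div_iff₀ (by linarith), hcr (j + 1)]
        nlinarith
      have h3 : mn (mu x) ≤ ff x := le_trans (le_max_right _ _) (le_max_right _ _)
      obtain ⟨j, hj, h6⟩ := mn_le.mp h3
      have := hmu j hj
      linarith
  · intro z
    have a1 : ∀ j < 5, (0 ≤ phi j z ↔ lam (z - cc) j ≤ 1) := by
      intro j hj
      have hp := hC1 j hj
      unfold lam
      rw [div_le_one hp, phi_sh j z]
      constructor <;> intro h <;> linarith
    have a2 : 0 ≤ cr (zt ^ 10) (z - uu) ↔ lamb (z - cc) ≤ 1 := by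
      unfold lamb
      rw [div_le_one hC3, show z - uu = (z - cc) + (cc - uu) by ring, cr_add_right]
      constructor <;> intro h <;> linarith
    have a3 : ∀ j < 5, (phi j (zt⁻¹ * z) ≤ 0 ↔ mu (z - cc) j ≤ 1) := by
      intro j hj
      have hp := hC2 j hj
      unfold mu
      rw [div_le_one (by linarith), phi_rot j z]
      constructor <;> intro h <;> linarith
    unfold ff
    rw [max_le_iff, max_le_iff, mx_le, mn_le]
    constructor
    · rintro ⟨h1, ⟨j, hj, h2⟩, h3⟩
      exact ⟨fun j hj => (a1 j hj).mp (h1 j hj), a2.mp h3, j, hj, (a3 j hj).mp h2⟩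
    · rintro ⟨h1, h3, j, hj, h2⟩
      exact ⟨fun j hj => (a1 j hj).mpr (h1 j hj), ⟨j, hj, (a3 j hj).mpr h2⟩, a2.mpr h3⟩

end VT927
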