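import Pool.Agent.H927R2.VT.Basic

/-! task FSUB: FF is covered by five tiles (20-40 lines) -/

open Finset

namespace VT927

theorem k_FSUB : T_FSUB := by
  intro z hz
  obtain ⟨hpos, hns, hside⟩ := hz
  have hcl : ∃ k < 5, Pos (zt ^ (30 - k) * z) ∧ ¬ SPos (zt ^ (29 - k) * z) := by
    by_contra hcon
    push Not at hcon
    have hSP : ∀ j < 5, ∀ x : ℂ, SPos x → 0 ≤ phi j x := fun j hj x hx => (hx j hj).le
    have hstep : ∀ k : ℕ, k < 5 → SPos (zt ^ (29 - k) * z) := by
      intro k
      induction k with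
      | zero =>
        intro _
        apply hcon 0 (by norm_num)
        show Pos (zt ^ 30 * z)
        rw [zt_pow_30, one_mul]
        exact hpos
      | succ k ih =>
        intro hk
        have h1 := ih (by omega)
        apply hcon (k + 1) hk
        have e : 30 - (k + 1) = 29 - k := by omega
        rw [e]
        exact fun j hj => (h1 j hj).le
    exact hns (hstep 4 (by norm_num))
  obtain ⟨k, hk, h1, h2⟩ := hcl
  refine ⟨k, hk, ?_⟩
  have hmul : zt ^ k * (zt ^ (30 - k) * z) = z := by
    rw [← mul_assoc, ← pow_add, show k + (30 - k) = 30 by omega, zt_pow_30, one_mul]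
  show z ∈ (if (false : Bool) then mp true (pt k (0 + 1) (0 + 1)) (zt ^ (k + 20)) '' Tile
    else mp false (pt k 0 0) (zt ^ k) '' Tile)
  rw [if_neg (by simp)]
  refine ⟨zt ^ (30 - k) * z, ⟨h1, ?_, ?_⟩, ?_⟩
  · unfold SPos at h2
    push Not at h2
    obtain ⟨j, hj, hj2⟩ := h2
    refine ⟨j, hj, ?_⟩
    have e : zt⁻¹ * (zt ^ (30 - k) * z) = zt ^ (29 - k) * z := by
      have e1 : zt ^ (30 - k) = zt * zt ^ (29 - k) := by
        rw [← pow_succ', show 29 - k + 1 = 30 - k by omega]
      rw [e1, mul_assoc, inv_mul_cancel_left₀ zt_ne]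
    rw [e]
    exact hj2
  · have h3 := hside k hk
    unfold side at h3
    have e : cr (zt ^ (k + 10)) (z - zt ^ k * uu) = cr (zt ^ 10) (zt ^ (30 - k) * z - uu) := by
      have e2 : z - zt ^ k * uu = zt ^ k * (zt ^ (30 - k) * z - uu) := by
        rw [mul_sub, hmul]
      rw [e2, pow_add, cr_zt_mul]
    rw [e] at h3
    exact h3
  · rw [mp_false, pt_zero, zero_add, hmul]

end VT927
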