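import Pool.Agent.H927R2.VT.Basic

/-! task FSUP: the five tiles lie in FF (40-70 lines) -/

open Finset

namespace VT927

private theorem step_aux (hM : T_MON) (hC : T_CONE) {w : ℂ} (hw : w ∈ Tile) (hw0 : w ≠ 0) (a : ℕ)
    (ha : 25 ≤ a) (ha' : a < 35) (h : Pos (zt ^ a * w)) : SPos (zt ^ (a + 1) * w) := by
  have h1 := hC w hw hw0 (a - 25) (by omega)
  rw [show 25 + (a - 25) = a by omega] at h1
  have h2 := hM _ h h1
  rwa [← mul_assoc, ← pow_succ'] at h2

private theorem up_aux (hM : T_MON) (hC : T_CONE) {w : ℂ} (hw : w ∈ Tile) (hw0 : w ≠ 0) (n : ℕ) :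
    ∀ a : ℕ, 25 ≤ a → a + n < 35 → Pos (zt ^ a * w) → SPos (zt ^ (a + n + 1) * w) := by
  induction n with
  | zero => intro a ha ha' h; exact step_aux hM hC hw hw0 a ha (by omega) h
  | succ n ih =>
    intro a ha ha' h
    have h1 := ih a ha (by omega) h
    have h2 := step_aux hM hC hw hw0 (a + n + 1) (by omega) (by omega) (fun j hj => (h1 j hj).le)
    exact h2

private theorem not29 {w : ℂ} (hw : w ∈ Tile) : ¬ SPos (zt ^ 29 * w) := by
  intro h
  obtain ⟨j, hj, hj'⟩ := hw.2.1
  rw [zt_inv] at hj'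
  exact absurd (h j hj) (not_lt.2 hj')

private theorem side_eq {k : ℕ} (hk : k < 5) (k' : ℕ) (w : ℂ) :
    side k' (zt ^ k * w) = cr (zt ^ (k' + 10 - k)) w - cr (zt ^ 10) uu := by
  unfold side
  rw [cr_sub_right]
  congr 1
  · rw [show zt ^ (k' + 10) = zt ^ k * zt ^ (k' + 10 - k) by rw [← pow_add]; congr 1; omega]
    exact cr_zt_mul k _ _
  · rw [pow_add]
    exact cr_zt_mul k' _ _

theorem k_FSUP : T_MON → T_CONE → T_SIDE → T_VTX → T_FSUP := by
  intro hM hC hS hV k hk z hz
  have hz' : ∃ w ∈ Tile, z = zt ^ k * w := by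
    simp only [tl, Bool.false_eq_true, if_false, Set.mem_image, mp_false, pt_zero, zero_add] at hz
    obtain ⟨w, hw, h⟩ := hz
    exact ⟨w, hw, h.symm⟩
  obtain ⟨w, hw, rfl⟩ := hz'
  refine ⟨?_, ?_, ?_⟩
  · by_cases hw0 : w = 0
    · subst hw0
      rw [mul_zero]
      have h := (hV 0 (by norm_num)).1
      rwa [vx_of_le (by norm_num), LL_zero] at h
    · rcases Nat.eq_zero_or_pos k with h0 | h0
      · subst h0
        rw [pow_zero, one_mul]
        exact hw.1
      · obtain ⟨n, rfl⟩ : ∃ n, k = n + 1 := ⟨k - 1, by omega⟩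
        have h1 := up_aux hM hC hw hw0 n 30 (by norm_num) (by omega) (by
          rw [zt_pow_30, one_mul]; exact hw.1)
        rw [show 30 + n + 1 = 30 + (n + 1) by omega, pow_add, zt_pow_30, one_mul] at h1
        exact fun j hj => (h1 j hj).le
  · intro h
    rw [← mul_assoc, ← pow_add] at h
    by_cases hw0 : w = 0
    · subst hw0
      rw [mul_zero] at h
      have h1 := h 0 (by norm_num)
      simp [phi, cr, LL_zero] at h1
    · rcases Nat.lt_or_ge k 4 with h4 | h4
      · have h1 := up_aux hM hC hw hw0 (3 - k) (25 + k) (by omega) (by omega) (fun j hj => (h j hj).le)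
        rw [show 25 + k + (3 - k) + 1 = 29 by omega] at h1
        exact not29 hw h1
      · have h5 : k = 4 := by omega
        subst h5
        exact not29 hw h
  · intro k' _
    rw [side_eq hk]
    have := hS w hw (k' + 10 - k)
    linarith

end VT927
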