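import Pool.Agent.H927R2.VT.Basic

/-! task ISO -/

open Finset

namespace VT927

theorem k_ISO : T_ISO := by
  intro m p w hw
  have hw0 : w ≠ 0 := by
    intro h; rw [h, norm_zero] at hw; exact zero_ne_one hw
  cases m with
  | false =>
    refine ⟨IsometryEquiv.mk' (fun z => p + w * z) (fun z => w⁻¹ * (z - p)) ?_ ?_, ?_⟩
    · intro z
      field_simp
      ring
    · apply Isometry.of_dist_eq
      intro x y
      rw [dist_eq_norm, dist_eq_norm]
      have : p + w * x - (p + w * y) = w * (x - y) := by ring
      rw [this, norm_mul, hw, one_mul]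
    · intro z
      simp [mp, IsometryEquiv.mk']
  | true =>
    refine ⟨IsometryEquiv.mk' (fun z => p + w * (starRingEnd ℂ) z)
      (fun z => (starRingEnd ℂ) (w⁻¹ * (z - p))) ?_ ?_, ?_⟩
    · intro z
      rw [Complex.conj_conj]
      field_simp
      ring
    · apply Isometry.of_dist_eq
      intro x y
      rw [dist_eq_norm, dist_eq_norm]
      have : p + w * (starRingEnd ℂ) x - (p + w * (starRingEnd ℂ) y) = w * (starRingEnd ℂ) (x - y) := by
        rw [map_sub]; ring
      rw [this, norm_mul, hw, one_mul, Complex.norm_conj]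
    · intro z
      simp [mp, IsometryEquiv.mk']

end VT927
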