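import Pool.Agent.H927R2.VT.Basic

/-! task KER: kernel point: 11 cross products > 0 (50-90 lines) -/

open Finset

namespace VT927

namespace KER

noncomputable def S (n : ℤ) : ℝ := Real.sin ((n : ℝ) * (Real.pi / 15))

theorem S_neg (n : ℤ) : S (-n) = - S n := by
  unfold S; push_cast; rw [neg_mul, Real.sin_neg]

theorem S_zero : S 0 = 0 := by simp [S]

theorem S_pos {n : ℤ} (h0 : 0 < n) (h1 : n < 15) : 0 < S n := by
  unfold S
  have hpi := Real.pi_pos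
  have h2 : (0 : ℝ) < n := by exact_mod_cast h0
  have h3 : (n : ℝ) < 15 := by exact_mod_cast h1
  apply Real.sin_pos_of_pos_of_lt_pi
  · positivity
  · nlinarith

theorem S_le {n : ℤ} (h0 : 0 ≤ n) : S n ≤ n * (Real.pi / 15) := by
  unfold S
  have hpi := Real.pi_pos
  have h2 : (0 : ℝ) ≤ n := by exact_mod_cast h0
  exact Real.sin_le (by positivity)

theorem S_mono {m n : ℤ} (h0 : -7 ≤ m) (h : m ≤ n) (h1 : n ≤ 7) : S m ≤ S n := by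
  unfold S
  have hpi := Real.pi_pos
  have h2 : (-7 : ℝ) ≤ m := by exact_mod_cast h0
  have h3 : (m : ℝ) ≤ n := by exact_mod_cast h
  have h4 : (n : ℝ) ≤ 7 := by exact_mod_cast h1
  apply Real.sin_le_sin_of_le_of_le_pi_div_two <;> nlinarith

theorem S5 : S 5 = Real.sqrt 3 / 2 := by
  unfold S
  rw [← Real.sin_pi_div_three]; congr 1; push_cast; ring

theorem S6 : S 6 = S 4 + S 1 := by
  have h1 : ((6 : ℤ) : ℝ) * (Real.pi / 15) = Real.pi / 3 + ((1 : ℤ) : ℝ) * (Real.pi / 15) := by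
    push_cast; ring
  have h2 : ((4 : ℤ) : ℝ) * (Real.pi / 15) = Real.pi / 3 - ((1 : ℤ) : ℝ) * (Real.pi / 15) := by
    push_cast; ring
  unfold S
  rw [h1, h2, Real.sin_add, Real.sin_sub, Real.cos_pi_div_three]; ring

theorem crS (i j : ℕ) : cr (zt ^ i) (zt ^ j) = S ((j : ℤ) - i) := by
  rw [cr_zt]; unfold S; push_cast; rfl

theorem lin (a : ℕ) (c0 c1 c2 c3 c4 c5 : ℝ) :
    cr (zt ^ a) ((c0 : ℂ) + c1 * zt + c2 * zt ^ 2 + c3 * zt ^ 3 + c4 * zt ^ 4 + c5 * zt ^ 5)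
      = c0 * S (0 - a) + c1 * S (1 - a) + c2 * S (2 - a) + c3 * S (3 - a) + c4 * S (4 - a)
        + c5 * S (5 - a) := by
  have h0 : (c0 : ℂ) = c0 * zt ^ 0 := by simp
  have h1 : (c1 : ℂ) * zt = c1 * zt ^ 1 := by simp
  rw [h0, h1]
  simp only [cr_add_right, cr_real_right, crS]
  push_cast
  ring

end KER

open KER in
theorem k_KER : T_KER := by
  have p1 : 0 < S 1 := S_pos (by norm_num) (by norm_num)
  have p2 : 0 < S 2 := S_pos (by norm_num) (by norm_num)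
  have p3 : 0 < S 3 := S_pos (by norm_num) (by norm_num)
  have p4 : 0 < S 4 := S_pos (by norm_num) (by norm_num)
  have p6 : 0 < S 6 := S_pos (by norm_num) (by norm_num)
  have p7 : 0 < S 7 := S_pos (by norm_num) (by norm_num)
  have p8 : 0 < S 8 := S_pos (by norm_num) (by norm_num)
  have p9 : 0 < S 9 := S_pos (by norm_num) (by norm_num)
  have m12 : S 1 ≤ S 2 := S_mono (by norm_num) (by norm_num) (by norm_num)
  have m23 : S 2 ≤ S 3 := S_mono (by norm_num) (by norm_num) (by norm_num)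
  have m34 : S 3 ≤ S 4 := S_mono (by norm_num) (by norm_num) (by norm_num)
  have m56 : S 5 ≤ S 6 := S_mono (by norm_num) (by norm_num) (by norm_num)
  have l1 : S 1 ≤ ((1 : ℤ) : ℝ) * (Real.pi / 15) := S_le (by norm_num)
  have l2 : S 2 ≤ ((2 : ℤ) : ℝ) * (Real.pi / 15) := S_le (by norm_num)
  have l3 : S 3 ≤ ((3 : ℤ) : ℝ) * (Real.pi / 15) := S_le (by norm_num)
  have l4 : S 4 ≤ ((4 : ℤ) : ℝ) * (Real.pi / 15) := S_le (by norm_num)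
  push_cast at l1 l2 l3 l4
  have hpi := Real.pi_lt_d2
  have h3 : (1.73 : ℝ) ≤ Real.sqrt 3 := Real.le_sqrt_of_sq_le (by norm_num)
  have h5 := S5
  have h6 := S6
  have n1 := S_neg 1
  have n2 := S_neg 2
  have n3 := S_neg 3
  have n4 := S_neg 4
  have n5 := S_neg 5
  have n6 := S_neg 6
  have n7 := S_neg 7
  have n8 := S_neg 8
  have n9 := S_neg 9
  have n10 := S_neg 10
  have n0 := S_zero
  intro e he
  interval_cases e
  · have : cr (vx (0 + 1) - vx 0) (cc - vx 0) = cr (zt ^ 0) (((1 : ℝ) : ℂ) + ((9 / 10 : ℝ) : ℂ) * zt + ((9 / 10 : ℝ) : ℂ) * zt ^ 2 + ((0 : ℝ) : ℂ) * zt ^ 3 + ((0 : ℝ) : ℂ) * zt ^ 4 + ((0 : ℝ) : ℂ) * zt ^ 5) := by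
      congr 1
      · simp [vx, LL, sum_range_succ]
      · simp [vx, LL, sum_range_succ, cc]; ring
    rw [this, lin]
    norm_num
    linarith
  · have : cr (vx (1 + 1) - vx 1) (cc - vx 1) = cr (zt ^ 1) (((0 : ℝ) : ℂ) + ((9 / 10 : ℝ) : ℂ) * zt + ((9 / 10 : ℝ) : ℂ) * zt ^ 2 + ((0 : ℝ) : ℂ) * zt ^ 3 + ((0 : ℝ) : ℂ) * zt ^ 4 + ((0 : ℝ) : ℂ) * zt ^ 5) := by
      congr 1
      · simp [vx, LL, sum_range_succ]
      · simp [vx, LL, sum_range_succ, cc]; ring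
    rw [this, lin]
    norm_num
    linarith
  · have : cr (vx (2 + 1) - vx 2) (cc - vx 2) = cr (zt ^ 2) (((0 : ℝ) : ℂ) + ((-1 / 10 : ℝ) : ℂ) * zt + ((9 / 10 : ℝ) : ℂ) * zt ^ 2 + ((0 : ℝ) : ℂ) * zt ^ 3 + ((0 : ℝ) : ℂ) * zt ^ 4 + ((0 : ℝ) : ℂ) * zt ^ 5) := by
      congr 1
      · simp [vx, LL, sum_range_succ]
      · simp [vx, LL, sum_range_succ, cc]; ring
    rw [this, lin]
    norm_num
    linarith
  · have : cr (vx (3 + 1) - vx 3) (cc - vx 3) = cr (zt ^ 3) (((0 : ℝ) : ℂ) + ((-1 / 10 : ℝ) : ℂ) * zt + ((-1 / 10 : ℝ) : ℂ) * zt ^ 2 + ((0 : ℝ) : ℂ) * zt ^ 3 + ((0 : ℝ) : ℂ) * zt ^ 4 + ((0 : ℝ) : ℂ) * zt ^ 5) := by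
      congr 1
      · simp [vx, LL, sum_range_succ]
      · simp [vx, LL, sum_range_succ, cc]; ring
    rw [this, lin]
    norm_num
    linarith
  · have : cr (vx (4 + 1) - vx 4) (cc - vx 4) = cr (zt ^ 4) (((0 : ℝ) : ℂ) + ((-1 / 10 : ℝ) : ℂ) * zt + ((-1 / 10 : ℝ) : ℂ) * zt ^ 2 + ((-1 : ℝ) : ℂ) * zt ^ 3 + ((0 : ℝ) : ℂ) * zt ^ 4 + ((0 : ℝ) : ℂ) * zt ^ 5) := by
      congr 1
      · simp [vx, LL, sum_range_succ]
      · simp [vx, LL, sum_range_succ, cc]; ring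
    rw [this, lin]
    norm_num
    linarith
  · have : cr (vx (5 + 1) - vx 5) (cc - vx 5) = cr (zt ^ 10) (((0 : ℝ) : ℂ) + ((-1 / 10 : ℝ) : ℂ) * zt + ((-1 / 10 : ℝ) : ℂ) * zt ^ 2 + ((-1 : ℝ) : ℂ) * zt ^ 3 + ((-1 : ℝ) : ℂ) * zt ^ 4 + ((0 : ℝ) : ℂ) * zt ^ 5) := by
      congr 1
      · rw [zt_ten]
        simp [vx, LL, sum_range_succ]; ring
      · simp [vx, LL, sum_range_succ, cc]; ring
    rw [this, lin]
    norm_num
    linarith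
  · have : cr (vx (6 + 1) - vx 6) (cc - vx 6) = cr (zt ^ 5) (((-1 : ℝ) : ℂ) + ((1 / 10 : ℝ) : ℂ) * zt + ((1 / 10 : ℝ) : ℂ) * zt ^ 2 + ((1 : ℝ) : ℂ) * zt ^ 3 + ((1 : ℝ) : ℂ) * zt ^ 4 + ((1 : ℝ) : ℂ) * zt ^ 5) := by
      rw [show vx (6 + 1) - vx 6 = - zt ^ 5 by simp [vx, LL, sum_range_succ]; ring, cr_neg_left,
        ← cr_neg_right]
      congr 1
      simp [vx, LL, sum_range_succ, cc]; ring
    rw [this, lin]
    norm_num
    linarith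
  · have : cr (vx (7 + 1) - vx 7) (cc - vx 7) = cr (zt ^ 4) (((-1 : ℝ) : ℂ) + ((1 / 10 : ℝ) : ℂ) * zt + ((1 / 10 : ℝ) : ℂ) * zt ^ 2 + ((1 : ℝ) : ℂ) * zt ^ 3 + ((1 : ℝ) : ℂ) * zt ^ 4 + ((0 : ℝ) : ℂ) * zt ^ 5) := by
      rw [show vx (7 + 1) - vx 7 = - zt ^ 4 by simp [vx, LL, sum_range_succ]; ring, cr_neg_left,
        ← cr_neg_right]
      congr 1
      simp [vx, LL, sum_range_succ, cc]; ring
    rw [this, lin]
    norm_num
    linarith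
  · have : cr (vx (8 + 1) - vx 8) (cc - vx 8) = cr (zt ^ 3) (((-1 : ℝ) : ℂ) + ((1 / 10 : ℝ) : ℂ) * zt + ((1 / 10 : ℝ) : ℂ) * zt ^ 2 + ((1 : ℝ) : ℂ) * zt ^ 3 + ((0 : ℝ) : ℂ) * zt ^ 4 + ((0 : ℝ) : ℂ) * zt ^ 5) := by
      rw [show vx (8 + 1) - vx 8 = - zt ^ 3 by simp [vx, LL, sum_range_succ]; ring, cr_neg_left,
        ← cr_neg_right]
      congr 1
      simp [vx, LL, sum_range_succ, cc]; ring
    rw [this, lin]
    norm_num
    linarith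
  · have : cr (vx (9 + 1) - vx 9) (cc - vx 9) = cr (zt ^ 2) (((-1 : ℝ) : ℂ) + ((1 / 10 : ℝ) : ℂ) * zt + ((1 / 10 : ℝ) : ℂ) * zt ^ 2 + ((0 : ℝ) : ℂ) * zt ^ 3 + ((0 : ℝ) : ℂ) * zt ^ 4 + ((0 : ℝ) : ℂ) * zt ^ 5) := by
      rw [show vx (9 + 1) - vx 9 = - zt ^ 2 by simp [vx, LL, sum_range_succ]; ring, cr_neg_left,
        ← cr_neg_right]
      congr 1
      simp [vx, LL, sum_range_succ, cc]; ring
    rw [this, lin]
    norm_num
    linarith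
  · have : cr (vx (10 + 1) - vx 10) (cc - vx 10) = cr (zt ^ 1) (((-1 : ℝ) : ℂ) + ((1 / 10 : ℝ) : ℂ) * zt + ((-9 / 10 : ℝ) : ℂ) * zt ^ 2 + ((0 : ℝ) : ℂ) * zt ^ 3 + ((0 : ℝ) : ℂ) * zt ^ 4 + ((0 : ℝ) : ℂ) * zt ^ 5) := by
      rw [show vx (10 + 1) - vx 10 = - zt ^ 1 by simp [vx, LL, sum_range_succ], cr_neg_left,
        ← cr_neg_right]
      congr 1
      simp [vx, LL, sum_range_succ, cc]; ring
    rw [this, lin]
    norm_num
    linarith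

end VT927
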