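import Pool.Agent.H927R2.VT.Basic

/-! task MON -/

open Finset

namespace VT927

theorem k_MON : T_MON := by
  intro p hp hre j hj
  have him : 0 ≤ p.im := by
    have := hp 0 (by norm_num)
    simpa [phi, cr, LL] using this
  rcases Nat.eq_zero_or_pos j with h0 | h0
  · subst h0
    have h1 : phi 0 (zt * p) = zt.re * p.im + zt.im * p.re := by
      simp [phi, cr, LL]
    rw [h1, zt_re, zt_im]
    have hpi := Real.pi_pos
    have hc : 0 < Real.cos (Real.pi / 15) :=
      Real.cos_pos_of_mem_Ioo ⟨by linarith, by linarith⟩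
    have hs : 0 < Real.sin (Real.pi / 15) :=
      Real.sin_pos_of_pos_of_lt_pi (by positivity) (by linarith)
    have := mul_nonneg hc.le him
    have := mul_pos hs hre
    linarith
  · obtain ⟨i, rfl⟩ : ∃ i, j = i + 1 := ⟨j - 1, by omega⟩
    have hi := hp i (by omega)
    -- LL (i+1) = 1 + zt * LL i
    have hLL : LL (i + 1) = 1 + zt * LL i := by
      simp only [LL, sum_range_succ', mul_sum, pow_zero]
      rw [add_comm]
      congr 1
      apply sum_congr rfl
      intro x _
      ring
    have h1 : phi (i + 1) (zt * p) = phi i p + Real.sin (((i + 1 : ℕ) : ℝ) * (Real.pi / 15)) := by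
      unfold phi
      rw [hLL, show zt * p - (1 + zt * LL i) = zt * (p - LL i) - 1 by ring, cr_sub_right]
      have e1 : cr (zt ^ (i + 1)) (zt * (p - LL i)) = cr (zt ^ i) (p - LL i) := by
        rw [pow_succ, mul_comm (zt ^ i) zt, cr_mul_of_norm zt_norm]
      have e2 : cr (zt ^ (i + 1)) 1 = - Real.sin (((i + 1 : ℕ) : ℝ) * (Real.pi / 15)) := by
        simp only [cr, Complex.one_re, Complex.one_im, zt_pow_im]; ring
      rw [e1, e2]; ring
    rw [h1]
    have := sin_pos_k (k := i + 1) (by omega) (by omega)
    linarith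

end VT927
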