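import Pool.Agent.H927R2.VT.Basic

/-! task NA: inner points of the fan (40-70 lines) -/

open Finset

namespace VT927

private theorem na_step (hM : T_MON) (hC : T_CONE) {w : ℂ} (hw : w ∈ Tile) (hw0 : w ≠ 0) (a : ℕ)
    (ha : 25 ≤ a) (ha' : a < 35) (h : Pos (zt ^ a * w)) : SPos (zt ^ (a + 1) * w) := by
  have h1 := hC w hw hw0 (a - 25) (by omega)
  rw [show 25 + (a - 25) = a by omega] at h1
  have h2 := hM _ h h1
  rwa [← mul_assoc, ← pow_succ'] at h2

private theorem na_up (hM : T_MON) (hC : T_CONE) {w : ℂ} (hw : w ∈ Tile) (hw0 : w ≠ 0) (n : ℕ) :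
    ∀ a : ℕ, 25 ≤ a → a + n < 35 → Pos (zt ^ a * w) → SPos (zt ^ (a + n + 1) * w) := by
  induction n with
  | zero => intro a ha ha' h; exact na_step hM hC hw hw0 a ha (by omega) h
  | succ n ih =>
    intro a ha ha' h
    have h1 := ih a ha (by omega) h
    have h2 := na_step hM hC hw hw0 (a + n + 1) (by omega) (by omega) (fun j hj => (h1 j hj).le)
    exact h2

private theorem na_not29 {w : ℂ} (hw : w ∈ Tile) : ¬ SPos (zt ^ 29 * w) := by
  intro h
  obtain ⟨j, hj, hj'⟩ := hw.2.1
  rw [zt_inv] at hj'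
  exact absurd (h j hj) (not_lt.2 hj')

private theorem na_side {k : ℕ} (hk : k < 5) (k' : ℕ) (w : ℂ) :
    side k' (zt ^ k * w) = cr (zt ^ (k' + 10 - k)) w - cr (zt ^ 10) uu := by
  unfold side
  rw [cr_sub_right]
  congr 1
  · rw [show zt ^ (k' + 10) = zt ^ k * zt ^ (k' + 10 - k) by rw [← pow_add]; congr 1; omega]
    exact cr_zt_mul k _ _
  · rw [pow_add]
    exact cr_zt_mul k' _ _

private theorem side_cont (k : ℕ) : Continuous (side k) := by
  unfold side
  exact (cr_continuous_right _).comp (continuous_id.sub continuous_const)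

theorem k_NA : T_MON → T_CONE → T_SIDES → T_NA := by
  intro hM hC hS k hk1 hk3 w hw hw0 hseg
  rw [mem_interior]
  refine ⟨{z | SPos z} ∩ ({z | ¬ Pos (zt ^ 25 * z)} ∩ {z | ∀ k < 5, 0 < side k z}), ?_, ?_, ?_, ?_, ?_⟩
  · rintro z ⟨h1, h2, h3⟩
    exact ⟨fun j hj => (h1 j hj).le, fun h => h2 (fun j hj => (h j hj).le), fun k hk => (h3 k hk).le⟩
  · apply IsOpen.inter
    · have : {z | SPos z} = ⋂ j ∈ Finset.range 5, {z | 0 < phi j z} := by
        ext z
        simp only [SPos, Set.mem_setOf_eq, Set.mem_iInter, Finset.mem_range]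
      rw [this]
      exact isOpen_biInter_finset (fun j _ => isOpen_lt continuous_const (phi_continuous j))
    · apply IsOpen.inter
      · have : {z | ¬ Pos (zt ^ 25 * z)} = ⋃ j ∈ Finset.range 5, {z | phi j (zt ^ 25 * z) < 0} := by
          ext z
          simp only [Pos, Set.mem_setOf_eq, Set.mem_iUnion, Finset.mem_range, not_forall, not_le,
            exists_prop]
        rw [this]
        exact isOpen_biUnion (fun j _ =>
          isOpen_lt ((phi_continuous j).comp (continuous_const.mul continuous_id)) continuous_const)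
      · have : {z | ∀ k < 5, 0 < side k z} = ⋂ j ∈ Finset.range 5, {z | 0 < side j z} := by
          ext z
          simp only [Set.mem_setOf_eq, Set.mem_iInter, Finset.mem_range]
        rw [this]
        exact isOpen_biInter_finset (fun j _ => isOpen_lt continuous_const (side_cont j))
  · obtain ⟨n, rfl⟩ : ∃ n, k = n + 1 := ⟨k - 1, by omega⟩
    have h1 := na_up hM hC hw hw0 n 30 (by norm_num) (by omega) (by
      rw [zt_pow_30, one_mul]; exact hw.1)
    rw [show 30 + n + 1 = 30 + (n + 1) by omega, pow_add, zt_pow_30, one_mul] at h1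
    exact h1
  · intro h
    rw [← mul_assoc, ← pow_add] at h
    have h1 := na_up hM hC hw hw0 (3 - k) (25 + k) (by omega) (by omega) h
    rw [show 25 + k + (3 - k) + 1 = 29 by omega] at h1
    exact na_not29 hw h1
  · intro k' _
    rw [na_side (by omega)]
    have := hS w hw hseg (k' + 10 - k)
    linarith

end VT927
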