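import Pool.Agent.H927R2.VT.Basic

open Finset

namespace VT927

theorem nb_sin_ge {θ : ℝ} (h1 : Real.pi / 3 ≤ θ) (h2 : θ ≤ 2 * Real.pi / 3) :
    Real.sqrt 3 / 2 ≤ Real.sin θ := by
  have hpi := Real.pi_pos
  rw [← Real.cos_pi_div_two_sub, ← Real.cos_abs (Real.pi / 2 - θ), ← Real.cos_pi_div_six]
  apply Real.cos_le_cos_of_nonneg_of_le_pi (abs_nonneg _) (by linarith)
  rw [abs_le]; constructor <;> linarith

theorem nb_uu : cr (zt ^ 10) uu < -4 := by
  have hpi := Real.pi_pos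
  have key : ∀ i : ℕ, i < 5 → cr (zt ^ 10) (zt ^ i) ≤ - (Real.sqrt 3 / 2) := by
    intro i hi
    rw [cr_swap, cr_zt]
    have h5 : (i : ℝ) ≤ 4 := by exact_mod_cast Nat.lt_succ_iff.mp hi
    have h0 : (0 : ℝ) ≤ i := Nat.cast_nonneg i
    have := nb_sin_ge (θ := (((10 : ℕ) : ℝ) - (i : ℝ)) * (Real.pi / 15)) (by push_cast; nlinarith)
      (by push_cast; nlinarith)
    linarith
  have h3 : (1.7 : ℝ) < Real.sqrt 3 := by
    apply Real.lt_sqrt_of_sq_lt; norm_num
  have hs : cr (zt ^ 10) uu = ∑ i ∈ range 5, cr (zt ^ 10) (zt ^ i) := by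
    unfold uu LL; rw [cr_sum_right]
  rw [hs]
  have : ∑ i ∈ range 5, cr (zt ^ 10) (zt ^ i) ≤ ∑ i ∈ range 5, (- (Real.sqrt 3 / 2)) := by
    apply sum_le_sum
    intro i hi
    exact key i (mem_range.mp hi)
  simp at this
  linarith

theorem nb_LL_norm (j : ℕ) : ‖LL j‖ ≤ j := by
  unfold LL
  calc ‖∑ i ∈ range j, zt ^ i‖ ≤ ∑ i ∈ range j, ‖zt ^ i‖ := norm_sum_le _ _
    _ = j := by simp [zt_norm]

theorem nb_re {a : ℕ} (h : a ≤ 5) : 0 < (zt ^ a).re := by
  have hpi := Real.pi_pos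
  rw [zt_pow_re]
  have h5 : (a : ℝ) ≤ 5 := by exact_mod_cast h
  have h0 : (0 : ℝ) ≤ a := Nat.cast_nonneg a
  apply Real.cos_pos_of_mem_Ioo
  constructor
  · nlinarith [mul_nonneg h0 hpi.le]
  · nlinarith

theorem nb_re29 : 0 < (zt ^ 29).re := by
  rw [← zt_inv, ← zt_conj, Complex.conj_re]
  have := nb_re (a := 1) (by norm_num)
  simpa using this

theorem nb_LL_re {j : ℕ} (h0 : 1 ≤ j) (h : j ≤ 4) : 0 < (LL j).re := by
  unfold LL
  rw [Complex.re_sum]
  apply sum_pos
  · intro i hi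
    rw [mem_range] at hi
    exact nb_re (by omega)
  · exact ⟨0, by rw [mem_range]; omega⟩

theorem nb_LL_re29 {j : ℕ} (h0 : 1 ≤ j) (h : j ≤ 4) : 0 < (zt ^ 29 * LL j).re := by
  unfold LL
  rw [mul_sum, Complex.re_sum]
  apply sum_pos
  · intro i hi
    rw [mem_range] at hi
    rcases Nat.eq_zero_or_pos i with h1 | h1
    · subst h1; simpa using nb_re29
    · obtain ⟨k, rfl⟩ : ∃ k, i = k + 1 := ⟨i - 1, by omega⟩
      have : zt ^ 29 * zt ^ (k + 1) = zt ^ k := by
        have h30 := zt_pow_30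
        have e : zt ^ 29 * zt ^ (k + 1) = zt ^ 30 * zt ^ k := by ring
        rw [e, h30, one_mul]
      rw [this]
      exact nb_re (by omega)
  · exact ⟨0, by rw [mem_range]; omega⟩

theorem nb_sub : {z : ℂ | SPos (zt * z) ∧ (∃ j < 5, phi j (zt ^ 29 * z) < 0) ∧ 0 < cr (zt ^ 10) (z - uu) ∧
    0 < cr (zt ^ 10) (zt * z - uu)} ⊆ tl false 29 0 0 ∪ tl false 0 0 0 := by
  rintro z ⟨h1, ⟨j, hj, h2⟩, h3, h4⟩
  by_cases hp : Pos z
  · right
    refine ⟨z, ⟨hp, ⟨j, hj, ?_⟩, h3.le⟩, ?_⟩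
    · rw [zt_inv]; exact h2.le
    · simp [mp, pt]
  · left
    refine ⟨zt * z, ⟨fun i hi => (h1 i hi).le, ?_, h4.le⟩, ?_⟩
    · unfold Pos at hp
      push Not at hp
      obtain ⟨i, hi, h⟩ := hp
      refine ⟨i, hi, ?_⟩
      rw [← mul_assoc, inv_mul_cancel₀ zt_ne, one_mul]; exact h.le
    · simp only [mp, pt]
      have h30 := zt_pow_30
      have : zt ^ 29 * (zt * z) = z := by
        rw [← mul_assoc, ← pow_succ, zt_pow_30, one_mul]
      simp [this]

theorem nb_open : IsOpen {z : ℂ | SPos (zt * z) ∧ (∃ j < 5, phi j (zt ^ 29 * z) < 0) ∧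
    0 < cr (zt ^ 10) (z - uu) ∧ 0 < cr (zt ^ 10) (zt * z - uu)} := by
  have e1 : {z : ℂ | SPos (zt * z) ∧ (∃ j < 5, phi j (zt ^ 29 * z) < 0) ∧
      0 < cr (zt ^ 10) (z - uu) ∧ 0 < cr (zt ^ 10) (zt * z - uu)} =
      (⋂ j ∈ range 5, {z : ℂ | 0 < phi j (zt * z)}) ∩ ((⋃ j ∈ range 5, {z : ℂ | phi j (zt ^ 29 * z) < 0}) ∩
      ({z : ℂ | 0 < cr (zt ^ 10) (z - uu)} ∩ {z : ℂ | 0 < cr (zt ^ 10) (zt * z - uu)})) := by
    ext z
    simp [SPos]
  rw [e1]
  have c1 : ∀ j, Continuous (fun z : ℂ => phi j (zt * z)) := fun j =>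
    (phi_continuous j).comp (continuous_const.mul continuous_id)
  have c2 : ∀ j, Continuous (fun z : ℂ => phi j (zt ^ 29 * z)) := fun j =>
    (phi_continuous j).comp (continuous_const.mul continuous_id)
  apply IsOpen.inter
  · apply isOpen_biInter_finset
    intro j _
    exact isOpen_lt continuous_const (c1 j)
  apply IsOpen.inter
  · apply isOpen_biUnion
    intro j _
    exact isOpen_lt (c2 j) continuous_const
  apply IsOpen.inter
  · exact isOpen_lt continuous_const ((cr_continuous_right _).comp (continuous_id.sub continuous_const))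
  · exact isOpen_lt continuous_const ((cr_continuous_right _).comp
      ((continuous_const.mul continuous_id).sub continuous_const))

theorem k_NB : T_MON → T_VTX → T_NB := by
  intro hM hV j hj1 hj3 x hx
  rw [mem_interior]
  refine ⟨_, nb_sub, nb_open, ?_⟩
  obtain ⟨a, b, ha, hb, hab, rfl⟩ := hx
  have hsm1 : a • LL j + b • LL (j + 1) = (a : ℂ) * LL j + (b : ℂ) * LL (j + 1) := by
    simp
  rw [hsm1]
  set x : ℂ := (a : ℂ) * LL j + (b : ℂ) * LL (j + 1) with hx
  have hab' : (a : ℂ) + (b : ℂ) = 1 := by exact_mod_cast hab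
  have hx2 : x = LL j + (b : ℂ) * zt ^ j := by
    rw [hx, LL_succ]
    linear_combination (LL j) * hab'
  have hphi : ∀ i, phi i x = a * phi i (LL j) + b * phi i (LL (j + 1)) := by
    intro i
    unfold phi
    have : x - LL i = (a : ℂ) * (LL j - LL i) + (b : ℂ) * (LL (j + 1) - LL i) := by
      rw [hx]; linear_combination (- LL i) * (-hab')
    rw [this, cr_add_right, cr_real_right, cr_real_right]
  have hv : ∀ e, e ≤ 5 → ∀ i < 5, 0 ≤ phi i (LL e) := by
    intro e he i hi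
    have := (hV e (by omega)).1 i hi
    rwa [vx_of_le he] at this
  have hPos : Pos x := by
    intro i hi
    rw [hphi]
    have h1 := hv j (by omega) i hi
    have h2 := hv (j + 1) (by omega) i hi
    positivity
  have hre : 0 < x.re := by
    have h1 := nb_LL_re (j := j) hj1 (by omega)
    have h2 := nb_LL_re (j := j + 1) (by omega) (by omega)
    have : x.re = a * (LL j).re + b * (LL (j + 1)).re := by
      rw [hx]; simp
    rw [this]
    rcases lt_or_eq_of_le ha with h | h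
    · have := mul_pos h h1
      have := mul_nonneg hb h2.le
      linarith
    · have hb1 : b = 1 := by linarith
      rw [← h, hb1]; linarith
  have hre29 : 0 < (zt ^ 29 * x).re := by
    have h1 := nb_LL_re29 (j := j) hj1 (by omega)
    have h2 := nb_LL_re29 (j := j + 1) (by omega) (by omega)
    have : (zt ^ 29 * x).re = a * (zt ^ 29 * LL j).re + b * (zt ^ 29 * LL (j + 1)).re := by
      rw [hx, mul_add, mul_left_comm, mul_left_comm (zt ^ 29) (b : ℂ), Complex.add_re, Complex.re_ofReal_mul,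
        Complex.re_ofReal_mul]
    rw [this]
    rcases lt_or_eq_of_le ha with h | h
    · have := mul_pos h h1
      have := mul_nonneg hb h2.le
      linarith
    · have hb1 : b = 1 := by linarith
      rw [← h, hb1]; linarith
  have hphij : phi j x = 0 := by
    unfold phi
    rw [hx2, add_sub_cancel_left, cr_real_right, cr_self, mul_zero]
  have hnorm : ‖x‖ ≤ 4 := by
    rw [hx2]
    have h1 := nb_LL_norm j
    have h2 : ‖(b : ℂ) * zt ^ j‖ ≤ 1 := by
      rw [norm_mul, zt_pow_norm, mul_one, Complex.norm_real, Real.norm_eq_abs, abs_of_nonneg hb]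
      linarith
    have h3 : (j : ℝ) ≤ 3 := by exact_mod_cast hj3
    calc ‖LL j + (b : ℂ) * zt ^ j‖ ≤ ‖LL j‖ + ‖(b : ℂ) * zt ^ j‖ := norm_add_le _ _
      _ ≤ 4 := by linarith
  have hu := nb_uu
  refine ⟨hM x hPos hre, ?_, ?_, ?_⟩
  · by_contra hcon
    push Not at hcon
    have hP : Pos (zt ^ 29 * x) := fun i hi => hcon i hi
    have h2 := hM _ hP hre29
    have h3 : zt * (zt ^ 29 * x) = x := by
      rw [← mul_assoc, mul_comm zt (zt ^ 29), ← pow_succ, zt_pow_30, one_mul]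
    rw [h3] at h2
    have := h2 j (by omega)
    rw [hphij] at this
    exact lt_irrefl _ this
  · rw [cr_sub_right]
    have h1 := abs_cr_le (zt ^ 10) x
    rw [zt_pow_norm, one_mul] at h1
    have := (abs_le.mp h1).1
    linarith
  · rw [cr_sub_right]
    have h1 := abs_cr_le (zt ^ 10) (zt * x)
    rw [zt_pow_norm, one_mul, norm_mul, zt_norm, one_mul] at h1
    have := (abs_le.mp h1).1
    linarith

end VT927
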