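import Pool.Agent.H927R2.VT.Basic

/-! task RF -/

open Finset

namespace VT927

theorem k_RF : T_RF := by
  intro k hk
  have h : ∀ z : ℂ, mp true (zt ^ 5 * uu) (zt ^ (29 - k)) z = sg (mp false (pt k 0 0) (zt ^ k) z) := by
    intro z
    rw [mp_true, mp_false, pt_zero, zero_add]
    unfold sg
    rw [map_mul, zt_conj_pow]
    have e : zt ^ (29 - k) = zt ^ 29 * zt⁻¹ ^ k := by
      have hz := zt_ne
      rw [inv_pow]
      have : zt ^ 29 = zt ^ (29 - k) * zt ^ k := by
        rw [← pow_add]; congr 1; omega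
      rw [this]
      field_simp
    rw [e]; ring
  unfold rf tl
  simp only [Bool.false_eq_true, if_false]
  ext x
  constructor
  · rintro ⟨y, hy, rfl⟩
    exact ⟨mp false (pt k 0 0) (zt ^ k) y, ⟨y, hy, rfl⟩, (h y).symm⟩
  · rintro ⟨_, ⟨y, hy, rfl⟩, rfl⟩
    exact ⟨y, hy, h y⟩

end VT927
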