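import Pool.Agent.H927R2.VT.Basic

/-! task ROW: telescoping of a row (30-60 lines) -/

open Finset

namespace VT927

theorem k_ROW : T_WSUM → T_EU → T_EV → T_ROW := by
  intro hW hU hV k r z
  have h1 : ∀ i ∈ range (r + 1), WU k i (r - i) z =
      (leg z (pt k i (r - i)) k - leg z (pt k i (r - i)) (k + 1)) +
        chi z (pt k (i + 1) (r + 1 - 1 - i)) (pt k i (r + 1 - i)) := by
    intro i hi
    have hi' : i ≤ r := Nat.lt_succ_iff.1 (mem_range.1 hi)
    have e1 : r + 1 - 1 - i = r - i := by omega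
    have e2 : r + 1 - i = (r - i) + 1 := by omega
    unfold WU
    rw [hW, hU, e1, e2]
    simp only [Bool.false_eq_true, if_false]
    ring
  have h2 : ∀ i ∈ range r, WV k i (r - 1 - i) z =
      (leg z (pt k (i + 1) (r - (i + 1))) (k + 1) - leg z (pt k i (r - i)) k) -
        chi z (pt k (i + 1) (r - 1 - i)) (pt k i (r - i)) := by
    intro i hi
    have hi' : i < r := mem_range.1 hi
    have e1 : r - (i + 1) = r - 1 - i := by omega
    have e2 : r - i = (r - 1 - i) + 1 := by omega
    unfold WV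
    rw [hW, hV, e1, e2]
    simp only [if_true]
    ring
  have e3 : BB k (r + 1) z = ∑ i ∈ range (r + 1),
      chi z (pt k (i + 1) (r + 1 - 1 - i)) (pt k i (r + 1 - i)) := rfl
  have e4 : BB k r z = ∑ i ∈ range r,
      chi z (pt k (i + 1) (r - 1 - i)) (pt k i (r - i)) := rfl
  have e5 : Row k r z = ∑ i ∈ range (r + 1), WU k i (r - i) z +
      ∑ i ∈ range r, WV k i (r - 1 - i) z := rfl
  have e6 : ∑ i ∈ range (r + 1), leg z (pt k i (r - i)) k =
      ∑ i ∈ range r, leg z (pt k i (r - i)) k + leg z (pt k r 0) k := by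
    rw [sum_range_succ, Nat.sub_self]
  have e7 : ∑ i ∈ range (r + 1), leg z (pt k i (r - i)) (k + 1) =
      ∑ i ∈ range r, leg z (pt k (i + 1) (r - (i + 1))) (k + 1) + leg z (pt k 0 r) (k + 1) := by
    rw [sum_range_succ', Nat.sub_zero]
  rw [e5, sum_congr rfl h1, sum_congr rfl h2, e3, e4]
  simp only [sum_add_distrib, sum_sub_distrib]
  rw [e6, e7]
  ring

end VT927
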