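import Pool.Agent.H927R2.VT.Basic

/-! task SGB: image of the base (20-40 lines) -/

open Finset

namespace VT927

theorem conj_uu_aux : (starRingEnd ℂ) uu = zt ^ 26 * uu := by
  rw [uu_eq]
  simp only [map_add, map_one, zt_conj_pow, zt_conj]
  have h30 := zt_pow_30
  have hi := zt_inv
  rw [hi]
  have e2 : (zt ^ 29) ^ 2 = zt ^ 28 := by
    rw [← pow_mul, show 29 * 2 = 30 + 28 from rfl, pow_add, h30, one_mul]
  have e3 : (zt ^ 29) ^ 3 = zt ^ 27 := by
    rw [← pow_mul, show 29 * 3 = 30 * 2 + 27 from rfl, pow_add, pow_mul, h30, one_pow, one_mul]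
  have e4 : (zt ^ 29) ^ 4 = zt ^ 26 := by
    rw [← pow_mul, show 29 * 4 = 30 * 3 + 26 from rfl, pow_add, pow_mul, h30, one_pow, one_mul]
  rw [e2, e3, e4]
  linear_combination (-1 : ℂ) * h30

theorem sg_zt_uu (k : ℕ) (hk : k ≤ 5) : sg (zt ^ k * uu) = LL (5 - k) := by
  unfold sg
  rw [map_mul, conj_uu_aux, zt_conj_pow]
  have h30 := zt_pow_30
  have h10 := zt_ten
  have hinv : zt⁻¹ ^ k = zt ^ (30 - k) := by
    rw [inv_pow]
    apply inv_eq_of_mul_eq_one_left
    rw [← pow_add, show 30 - k + k = 30 by omega, h30]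
  rw [hinv]
  have e : zt ^ 29 * (zt ^ (30 - k) * (zt ^ 26 * uu)) = zt ^ (25 - k) * uu := by
    have : zt ^ 29 * (zt ^ (30 - k) * (zt ^ 26 * uu)) = (zt ^ 29 * zt ^ (30 - k) * zt ^ 26) * uu := by
      ring
    rw [this, ← pow_add, ← pow_add, show 29 + (30 - k) + 26 = 30 * 2 + (25 - k) by omega, pow_add,
      pow_mul, h30, one_pow, one_mul]
  rw [e]
  have h15 := zt_pow_15
  have hA : ∀ m : ℕ, zt ^ (15 + m) = - zt ^ m := fun m => by rw [pow_add, h15]; ring
  have hk' : k = 0 ∨ k = 1 ∨ k = 2 ∨ k = 3 ∨ k = 4 ∨ k = 5 := by omega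
  rw [uu_eq]
  rcases hk' with rfl | rfl | rfl | rfl | rfl | rfl
  · have e1 : zt ^ (25 - 0) = - zt ^ 10 := hA 10
    rw [e1, h10]
    simp only [LL, sum_range_succ, range_zero, sum_empty]
    ring
  · have e1 : zt ^ (25 - 1) = - zt ^ 9 := hA 9
    rw [e1]
    simp only [LL, sum_range_succ, range_zero, sum_empty]
    have e10 : zt ^ 10 - zt ^ 5 + 1 = 0 := by rw [h10]; ring
    linear_combination (-(1 + zt + zt ^ 2 + zt ^ 3)) * e10
  · have e1 : zt ^ (25 - 2) = - zt ^ 8 := hA 8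
    rw [e1]
    simp only [LL, sum_range_succ, range_zero, sum_empty]
    have e10 : zt ^ 10 - zt ^ 5 + 1 = 0 := by rw [h10]; ring
    linear_combination (-(1 + zt + zt ^ 2)) * e10
  · have e1 : zt ^ (25 - 3) = - zt ^ 7 := hA 7
    rw [e1]
    simp only [LL, sum_range_succ, range_zero, sum_empty]
    have e10 : zt ^ 10 - zt ^ 5 + 1 = 0 := by rw [h10]; ring
    linear_combination (-(1 + zt)) * e10
  · have e1 : zt ^ (25 - 4) = - zt ^ 6 := hA 6
    rw [e1]
    simp only [LL, sum_range_succ, range_zero, sum_empty]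
    have e10 : zt ^ 10 - zt ^ 5 + 1 = 0 := by rw [h10]; ring
    linear_combination (-1 : ℂ) * e10
  · have e1 : zt ^ (25 - 5) = - zt ^ 5 := hA 5
    rw [e1]
    simp only [LL, range_zero, sum_empty]
    ring

theorem sg_comb (a b : ℝ) (hab : a + b = 1) (x y : ℂ) :
    sg ((a : ℂ) * x + (b : ℂ) * y) = (a : ℂ) * sg x + (b : ℂ) * sg y := by
  unfold sg
  simp only [map_add, map_mul, Complex.conj_ofReal]
  have : (a : ℂ) + (b : ℂ) = 1 := by exact_mod_cast hab
  linear_combination (-(zt ^ 5 * uu)) * this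

theorem k_SGB : T_SGB := by
  intro k hk1 hk3 w hw
  obtain ⟨a, b, ha, hb, hab, rfl⟩ := hw
  have e : zt ^ k * (a • uu + b • (zt * uu)) =
      (a : ℂ) * (zt ^ k * uu) + (b : ℂ) * (zt ^ (k + 1) * uu) := by
    rw [Complex.real_smul, Complex.real_smul, pow_succ]
    ring
  rw [e, sg_comb a b hab, sg_zt_uu k (by omega), sg_zt_uu (k + 1) (by omega)]
  refine ⟨b, a, hb, ha, by linarith, ?_⟩
  rw [Complex.real_smul, Complex.real_smul, show 5 - (k + 1) = 4 - k by omega]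
  ring

end VT927
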