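import Pool.Agent.H927R2.VT.Basic

/-! task SIDE: all tile points are left of the 30 sides (50-90 lines) -/

open Finset

namespace VT927

theorem kSIDE_cos (n : ℕ) : - Real.cos (Real.pi / 15) ≤ Real.cos (2 * ((n : ℝ) * (Real.pi / 15))) := by
  have hpi := Real.pi_pos
  have aux : ∀ r : ℕ, r ≤ 7 → - Real.cos (Real.pi / 15) ≤ Real.cos (2 * ((r : ℝ) * (Real.pi / 15))) := by
    intro r hr
    have hr' : (r : ℝ) ≤ 7 := by exact_mod_cast hr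
    have h0 : (0 : ℝ) ≤ r := Nat.cast_nonneg r
    rw [← Real.cos_pi_sub]
    apply Real.cos_le_cos_of_nonneg_of_le_pi
    · positivity
    · linarith
    · nlinarith
  have hn : (n : ℝ) = (15 : ℝ) * ((n / 15 : ℕ) : ℝ) + ((n % 15 : ℕ) : ℝ) := by
    exact_mod_cast (Nat.div_add_mod n 15).symm
  have hlt : n % 15 < 15 := Nat.mod_lt _ (by norm_num)
  rw [hn]
  have e1 : 2 * (((15 : ℝ) * ((n / 15 : ℕ) : ℝ) + ((n % 15 : ℕ) : ℝ)) * (Real.pi / 15))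
      = 2 * (((n % 15 : ℕ) : ℝ) * (Real.pi / 15)) + ((n / 15 : ℕ) : ℝ) * (2 * Real.pi) := by ring
  rw [e1, Real.cos_add_nat_mul_two_pi]
  by_cases h7 : n % 15 ≤ 7
  · exact aux _ h7
  · have h8 := aux (15 - n % 15) (by omega)
    have e2 : (((15 - n % 15 : ℕ)) : ℝ) = 15 - ((n % 15 : ℕ) : ℝ) := by
      rw [Nat.cast_sub hlt.le]; norm_num
    rw [e2] at h8
    have e3 : 2 * ((15 - ((n % 15 : ℕ) : ℝ)) * (Real.pi / 15))
        = 2 * Real.pi - 2 * (((n % 15 : ℕ) : ℝ) * (Real.pi / 15)) := by ring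
    rw [e3, Real.cos_two_pi_sub] at h8
    exact h8

theorem kSIDE_sin8 : Real.sin (8 * (Real.pi / 15)) = Real.cos (Real.pi / 30) := by
  rw [← Real.cos_sub_pi_div_two]
  congr 1
  ring

theorem kSIDE_sin8_ge : (99 / 100 : ℝ) ≤ Real.sin (8 * (Real.pi / 15)) := by
  rw [kSIDE_sin8]
  have h := Real.one_sub_sq_div_two_le_cos (x := Real.pi / 30)
  have h1 := Real.pi_lt_d2
  have h2 := Real.pi_pos
  nlinarith

theorem kSIDE_abs_sin (n : ℕ) : |Real.sin ((n : ℝ) * (Real.pi / 15))| ≤ Real.sin (8 * (Real.pi / 15)) := by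
  have h1 := kSIDE_cos n
  have h8 := kSIDE_sin8_ge
  apply abs_le_of_sq_le_sq _ (by linarith)
  have e1 := Real.cos_sq ((n : ℝ) * (Real.pi / 15))
  have e2 := Real.cos_sq (8 * (Real.pi / 15))
  have e3 := Real.sin_sq_add_cos_sq ((n : ℝ) * (Real.pi / 15))
  have e4 := Real.sin_sq_add_cos_sq (8 * (Real.pi / 15))
  have e5 : Real.cos (2 * (8 * (Real.pi / 15))) = - Real.cos (Real.pi / 15) := by
    rw [← Real.cos_add_pi]
    congr 1
    ring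
  rw [e5] at e2
  linarith

/-- the length of `uu` -/
noncomputable def kSIDE_rho : ℝ := 1 + 2 * Real.cos (Real.pi / 15) + 2 * Real.cos (2 * (Real.pi / 15))

theorem kSIDE_rho_ge : (9 / 2 : ℝ) ≤ kSIDE_rho := by
  unfold kSIDE_rho
  have h1 := Real.one_sub_sq_div_two_le_cos (x := Real.pi / 15)
  have h2 := Real.one_sub_sq_div_two_le_cos (x := 2 * (Real.pi / 15))
  have h3 := Real.pi_lt_d2
  have h4 := Real.pi_pos
  nlinarith

theorem kSIDE_uu : uu = (kSIDE_rho : ℂ) * zt ^ 2 := by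
  have hz : zt * zt⁻¹ = 1 := mul_inv_cancel₀ zt_ne
  have c1 : ((2 * Real.cos (Real.pi / 15) : ℝ) : ℂ) = zt + zt⁻¹ := by
    have : (Real.cos (Real.pi / 15) : ℝ) = zt.re := zt_re.symm
    rw [this, ← zt_conj, Complex.add_conj]
  have c2 : ((2 * Real.cos (2 * (Real.pi / 15)) : ℝ) : ℂ) = zt ^ 2 + zt⁻¹ ^ 2 := by
    have : (Real.cos (2 * (Real.pi / 15)) : ℝ) = (zt ^ 2).re := by
      rw [zt_pow_re]; norm_num
    rw [this, ← zt_conj_pow, Complex.add_conj]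
  have c3 : (kSIDE_rho : ℂ) = 1 + (zt + zt⁻¹) + (zt ^ 2 + zt⁻¹ ^ 2) := by
    rw [← c1, ← c2]; unfold kSIDE_rho; push_cast; ring
  rw [c3, uu_eq]
  have : (1 + (zt + zt⁻¹) + (zt ^ 2 + zt⁻¹ ^ 2)) * zt ^ 2
    = zt ^ 2 + zt ^ 3 + (zt * zt⁻¹) * zt + zt ^ 4 + (zt * zt⁻¹) ^ 2 := by ring
  rw [this, hz]; ring

theorem kSIDE_cr_uu (d : ℕ) : cr (zt ^ d) uu = kSIDE_rho * Real.sin (((2 : ℝ) - d) * (Real.pi / 15)) := by
  rw [kSIDE_uu, cr_real_right, cr_zt]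
  norm_num

theorem kSIDE_ten : cr (zt ^ 10) uu = - (kSIDE_rho * Real.sin (8 * (Real.pi / 15))) := by
  rw [kSIDE_cr_uu]
  have : ((2 : ℝ) - ((10 : ℕ) : ℝ)) * (Real.pi / 15) = - (8 * (Real.pi / 15)) := by push_cast; ring
  rw [this, Real.sin_neg]; ring

theorem kSIDE_ten_lt : cr (zt ^ 10) uu < -4 := by
  rw [kSIDE_ten]
  have h1 := kSIDE_rho_ge
  have h2 := kSIDE_sin8_ge
  nlinarith

theorem kSIDE_uu_ge (d : ℕ) : cr (zt ^ 10) uu ≤ cr (zt ^ d) uu := by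
  rw [kSIDE_ten, kSIDE_cr_uu]
  have h1 := kSIDE_rho_ge
  have h2 := kSIDE_abs_sin (d + 28)
  have h3 : Real.sin ((((d + 28 : ℕ)) : ℝ) * (Real.pi / 15)) = - Real.sin (((2 : ℝ) - d) * (Real.pi / 15)) := by
    have : (((d + 28 : ℕ)) : ℝ) * (Real.pi / 15) = 2 * Real.pi - ((2 : ℝ) - d) * (Real.pi / 15) := by
      push_cast; ring
    rw [this, Real.sin_two_pi_sub]
  rw [h3, abs_neg] at h2
  have h4 := (abs_le.mp h2).1
  nlinarith

theorem kSIDE_zuu_ge (d : ℕ) : cr (zt ^ 10) uu ≤ cr (zt ^ d) (zt * uu) := by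
  have h := cr_zt_mul 29 (zt ^ d) (zt * uu)
  rw [← pow_add, show zt ^ 29 * (zt * uu) = zt ^ 30 * uu by ring, zt_pow_30, one_mul] at h
  rw [← h]
  exact kSIDE_uu_ge _

theorem kSIDE_LL_norm (i : ℕ) : ‖LL i‖ ≤ i := by
  unfold LL
  calc ‖∑ t ∈ range i, zt ^ t‖ ≤ ∑ t ∈ range i, ‖zt ^ t‖ := norm_sum_le _ _
    _ = ∑ t ∈ range i, (1 : ℝ) := by simp only [zt_pow_norm]
    _ = i := by simp

theorem kSIDE_cc_norm : ‖cc‖ ≤ 4 := by
  unfold cc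
  have h1 : ‖(9 / 10 : ℂ)‖ ≤ 1 := by
    rw [show (9 / 10 : ℂ) = ((9 / 10 : ℝ) : ℂ) by push_cast; rfl, Complex.norm_real]; norm_num
  have h2 : ‖zt + zt ^ 2‖ ≤ 2 := by
    calc ‖zt + zt ^ 2‖ ≤ ‖zt‖ + ‖zt ^ 2‖ := norm_add_le _ _
      _ = 2 := by rw [zt_norm, zt_pow_norm]; norm_num
  have h3 : ‖(9 / 10 : ℂ) * (zt + zt ^ 2)‖ ≤ 2 := by
    rw [norm_mul]
    have := norm_nonneg (zt + zt ^ 2)
    have := norm_nonneg (9 / 10 : ℂ)
    nlinarith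
  calc ‖1 + (9 / 10 : ℂ) * (zt + zt ^ 2)‖ ≤ ‖(1 : ℂ)‖ + ‖(9 / 10 : ℂ) * (zt + zt ^ 2)‖ := norm_add_le _ _
    _ ≤ 4 := by rw [norm_one]; linarith

theorem kSIDE_small {v : ℂ} (hv : ‖v‖ ≤ 4) (d : ℕ) : cr (zt ^ 10) uu < cr (zt ^ d) v := by
  have h1 := kSIDE_ten_lt
  have h2 := abs_cr_le (zt ^ d) v
  rw [zt_pow_norm, one_mul] at h2
  have h3 := (abs_le.mp (h2.trans hv)).1
  linarith

/-- vertices different from `vx 5` and `vx 6` are short -/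
theorem kSIDE_vx_small {e : ℕ} (he : e < 12) (h5 : e ≠ 5) (h6 : e ≠ 6) : ‖vx e‖ ≤ 4 := by
  by_cases h : e ≤ 5
  · rw [vx_of_le h]
    have h4 : (e : ℝ) ≤ 4 := by exact_mod_cast (by omega : e ≤ 4)
    exact (kSIDE_LL_norm e).trans h4
  · rw [vx_of_gt (by omega), norm_mul, zt_norm, one_mul]
    have h4 : ((11 - e : ℕ) : ℝ) ≤ 4 := by exact_mod_cast (by omega : 11 - e ≤ 4)
    exact (kSIDE_LL_norm _).trans h4

theorem kSIDE_vx_ge {e : ℕ} (he : e < 12) (d : ℕ) : cr (zt ^ 10) uu ≤ cr (zt ^ d) (vx e) := by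
  by_cases h5 : e = 5
  · subst h5
    rw [vx_of_le (by norm_num)]
    exact kSIDE_uu_ge d
  by_cases h6 : e = 6
  · subst h6
    rw [vx_of_gt (by norm_num)]
    exact kSIDE_zuu_ge d
  · exact (kSIDE_small (kSIDE_vx_small he h5 h6) d).le

/-- barycentric coordinates of a tile point -/
theorem kSIDE_bary (hB : T_BARY) (hK : T_KER) (hBe : T_BETA) {w : ℂ} (hw : w ∈ Tile) :
    ∃ e < 11, ∃ α β γ : ℝ, 0 ≤ α ∧ 0 ≤ β ∧ 0 ≤ γ ∧ α + β + γ = 1 ∧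
      w = (α : ℂ) * cc + (β : ℂ) * vx e + (γ : ℂ) * vx (e + 1) := by
  obtain ⟨e, he, hz⟩ := hBe w hw
  refine ⟨e, he, hB cc (vx e) (vx (e + 1)) w ?_ hz⟩
  have h := hK e he
  have : cr (vx e - cc) (vx (e + 1) - cc) = cr (vx (e + 1) - vx e) (cc - vx e) := by
    simp only [cr, Complex.sub_re, Complex.sub_im]; ring
  rw [this]; exact h

theorem k_SIDE : T_BARY → T_KER → T_BETA → T_SIDE := by
  intro hB hK hBe w hw d
  obtain ⟨e, he, α, β, γ, hα, hβ, hγ, hs, rfl⟩ := kSIDE_bary hB hK hBe hw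
  rw [cr_add_right, cr_add_right, cr_real_right, cr_real_right, cr_real_right]
  have h1 := (kSIDE_small kSIDE_cc_norm d).le
  have h2 := kSIDE_vx_ge (show e < 12 by omega) d
  have h3 := kSIDE_vx_ge (show e + 1 < 12 by omega) d
  have := mul_le_mul_of_nonneg_left h1 hα
  have := mul_le_mul_of_nonneg_left h2 hβ
  have := mul_le_mul_of_nonneg_left h3 hγ
  have e : cr (zt ^ 10) uu = α * cr (zt ^ 10) uu + β * cr (zt ^ 10) uu + γ * cr (zt ^ 10) uu := by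
    rw [← add_mul, ← add_mul, hs, one_mul]
  linarith

end VT927
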