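import Pool.Agent.H927R2.VT.Basic

/-! task SIDES: strict version outside the base (helper86) -/

open Finset

namespace VT927

namespace SIDESx

theorem sin_le_seven {k : ℕ} (hk : k ≤ 15) :
    Real.sin ((k : ℝ) * (Real.pi / 15)) ≤ Real.sin (7 * (Real.pi / 15)) := by
  have hpi := Real.pi_pos
  rcases le_total k 7 with h | h
  · have h' : (k : ℝ) ≤ 7 := by exact_mod_cast h
    have h0 : (0 : ℝ) ≤ k := Nat.cast_nonneg k
    apply Real.sin_le_sin_of_le_of_le_pi_div_two
    · have : 0 ≤ (k : ℝ) * (Real.pi / 15) := by positivity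
      linarith
    · linarith
    · nlinarith
  · rcases Nat.lt_or_ge k 8 with h2 | h2
    · have : k = 7 := by omega
      rw [this]
      push_cast
      exact le_refl _
    · have h3 : Real.sin ((k : ℝ) * (Real.pi / 15)) =
          Real.sin ((15 - (k : ℝ)) * (Real.pi / 15)) := by
        rw [← Real.sin_pi_sub]
        congr 1
        ring
      rw [h3]
      have h' : (8 : ℝ) ≤ k := by exact_mod_cast h2
      have h'' : (k : ℝ) ≤ 15 := by exact_mod_cast hk
      apply Real.sin_le_sin_of_le_of_le_pi_div_two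
      · have : 0 ≤ (15 - (k : ℝ)) * (Real.pi / 15) := by
          apply mul_nonneg (by linarith) (by positivity)
        linarith
      · linarith
      · nlinarith

/-- the length of the base line -/
noncomputable def rho : ℝ := 1 + 2 * Real.cos (Real.pi / 15) + 2 * Real.cos (2 * (Real.pi / 15))

theorem uu_rho : uu = (rho : ℂ) * zt ^ 2 := by
  have h1 : (2 : ℂ) * ((Real.cos (Real.pi / 15) : ℝ) : ℂ) = zt + zt⁻¹ := by
    rw [← zt_conj, Complex.add_conj, zt_re]
    push_cast
    ring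
  have h2 : (2 : ℂ) * ((Real.cos (2 * (Real.pi / 15)) : ℝ) : ℂ) = zt ^ 2 + zt⁻¹ ^ 2 := by
    rw [← zt_conj_pow, Complex.add_conj, zt_pow_re]
    push_cast
    ring
  have h3 : (rho : ℂ) = 1 + (zt + zt⁻¹) + (zt ^ 2 + zt⁻¹ ^ 2) := by
    rw [← h1, ← h2]
    unfold rho
    push_cast
    ring
  rw [h3, uu_eq]
  have hz := zt_ne
  field_simp
  ring

theorem rho_pos : 0 < rho := by
  unfold rho
  have hpi := Real.pi_pos
  have h1 : 0 < Real.cos (Real.pi / 15) :=
    Real.cos_pos_of_mem_Ioo ⟨by linarith, by linarith⟩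
  have h2 : 0 < Real.cos (2 * (Real.pi / 15)) :=
    Real.cos_pos_of_mem_Ioo ⟨by linarith, by linarith⟩
  positivity

theorem cr_d_two (d : ℕ) : cr (zt ^ 10) (zt ^ 2) ≤ cr (zt ^ d) (zt ^ 2) := by
  have h10 : cr (zt ^ 10) (zt ^ 2) = - Real.sin (7 * (Real.pi / 15)) := by
    rw [cr_swap, cr_zt, ← Real.sin_pi_sub]
    congr 2
    push_cast
    ring
  have hnn : 0 ≤ Real.sin (7 * (Real.pi / 15)) := by
    have := sin_le_seven (k := 0) (by norm_num)
    simpa using this
  have hd : zt ^ d = zt ^ (d % 30) := by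
    conv_lhs => rw [← Nat.mod_add_div d 30]
    rw [pow_add, pow_mul, zt_pow_30, one_pow, mul_one]
  rw [hd, h10]
  obtain ⟨r, hr⟩ : ∃ r, r = d % 30 := ⟨_, rfl⟩
  have hr30 : r < 30 := by omega
  rw [← hr]
  rcases Nat.lt_or_ge 2 r with h2 | h2
  · rcases Nat.lt_or_ge 17 r with h17 | h17
    · have h3 : (zt ^ 2 : ℂ) = zt ^ 32 := by
        rw [show (32 : ℕ) = 30 + 2 from rfl, pow_add, zt_pow_30, one_mul]
      rw [h3]
      have := cr_zt_nonneg (i := r) (j := 32) (by omega) (by omega)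
      linarith
    · rw [cr_swap, cr_zt]
      have h4 := sin_le_seven (k := r - 2) (by omega)
      rw [Nat.cast_sub (by omega)] at h4
      linarith
  · have := cr_zt_nonneg (i := r) (j := 2) h2 (by omega)
    linarith

theorem cr_d_uu (d : ℕ) : cr (zt ^ 10) uu ≤ cr (zt ^ d) uu := by
  rw [uu_rho, cr_real_right, cr_real_right]
  exact mul_le_mul_of_nonneg_left (cr_d_two d) rho_pos.le

theorem cr_d_ztuu (d : ℕ) : cr (zt ^ 10) uu ≤ cr (zt ^ d) (zt * uu) := by
  have h : cr (zt ^ d) (zt * uu) = cr (zt ^ (d + 29)) uu := by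
    have h1 := cr_zt_mul 29 (zt ^ d) (zt * uu)
    have e1 : zt ^ 29 * zt ^ d = zt ^ (d + 29) := by rw [← pow_add, add_comm]
    have e2 : zt ^ 29 * (zt * uu) = uu := by
      rw [← mul_assoc, ← pow_succ]
      have : (29 + 1 : ℕ) = 30 := rfl
      rw [this, zt_pow_30, one_mul]
    rw [e1, e2] at h1
    exact h1.symm
  rw [h]
  exact cr_d_uu _

theorem h_gt : cr (zt ^ 10) uu < -4 := by
  rw [uu_eq, cr_add_right, cr_add_right, cr_add_right, cr_add_right]
  have e0 : cr (zt ^ 10) 1 = - Real.sin (5 * (Real.pi / 15)) := by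
    have : (1 : ℂ) = zt ^ 0 := (pow_zero _).symm
    rw [this, cr_swap, cr_zt, ← Real.sin_pi_sub]
    congr 2; push_cast; ring
  have e1 : cr (zt ^ 10) zt = - Real.sin (6 * (Real.pi / 15)) := by
    have : (zt : ℂ) = zt ^ 1 := (pow_one _).symm
    rw [cr_swap]
    conv_lhs => rw [show cr zt (zt ^ 10) = cr (zt ^ 1) (zt ^ 10) by rw [pow_one]]
    rw [cr_zt, ← Real.sin_pi_sub]
    congr 2; push_cast; ring
  have e2 : cr (zt ^ 10) (zt ^ 2) = - Real.sin (7 * (Real.pi / 15)) := by
    rw [cr_swap, cr_zt, ← Real.sin_pi_sub]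
    congr 2; push_cast; ring
  have e3 : cr (zt ^ 10) (zt ^ 3) = - Real.sin (7 * (Real.pi / 15)) := by
    rw [cr_swap, cr_zt]
    congr 2; push_cast; ring
  have e4 : cr (zt ^ 10) (zt ^ 4) = - Real.sin (6 * (Real.pi / 15)) := by
    rw [cr_swap, cr_zt]
    congr 2; push_cast; ring
  rw [e0, e1, e2, e3, e4]
  have hpi := Real.pi_pos
  have h56 : Real.sin (5 * (Real.pi / 15)) ≤ Real.sin (6 * (Real.pi / 15)) :=
    Real.sin_le_sin_of_le_of_le_pi_div_two (by linarith) (by linarith) (by linarith)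
  have h57 : Real.sin (5 * (Real.pi / 15)) ≤ Real.sin (7 * (Real.pi / 15)) :=
    Real.sin_le_sin_of_le_of_le_pi_div_two (by linarith) (by linarith) (by linarith)
  have h5 : Real.sin (5 * (Real.pi / 15)) = Real.sqrt 3 / 2 := by
    rw [show 5 * (Real.pi / 15) = Real.pi / 3 by ring, Real.sin_pi_div_three]
  have hs : (1.7 : ℝ) < Real.sqrt 3 := by
    apply Real.lt_sqrt_of_sq_lt
    norm_num
  rw [h5] at h56 h57 ⊢
  linarith

theorem norm_LL (j : ℕ) : ‖LL j‖ ≤ j := by
  unfold LL
  refine (norm_sum_le _ _).trans ?_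
  simp only [zt_pow_norm, Finset.sum_const, Finset.card_range, nsmul_eq_mul, mul_one]
  exact le_refl _

theorem strict_of_norm {v : ℂ} (hv : ‖v‖ ≤ 4) (d : ℕ) : cr (zt ^ 10) uu < cr (zt ^ d) v := by
  have h1 := abs_cr_le (zt ^ d) v
  rw [zt_pow_norm, one_mul] at h1
  have h2 := (abs_le.1 (h1.trans hv)).1
  have := h_gt
  linarith

theorem norm_cc : ‖cc‖ ≤ 4 := by
  unfold cc
  have h1 : ‖(zt + zt ^ 2 : ℂ)‖ ≤ 2 := by
    refine (norm_add_le _ _).trans ?_
    rw [zt_norm, zt_pow_norm]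
    norm_num
  refine (norm_add_le _ _).trans ?_
  rw [norm_one, norm_mul]
  have h2 : ‖(9 / 10 : ℂ)‖ = 9 / 10 := by
    rw [show (9 / 10 : ℂ) = ((9 / 10 : ℝ) : ℂ) by push_cast; ring, Complex.norm_real]
    norm_num
  rw [h2]
  linarith

theorem vx_cases {i : ℕ} (hi : i ≤ 11) : (∀ d, cr (zt ^ 10) uu ≤ cr (zt ^ d) (vx i)) ∧
    ((∀ d, cr (zt ^ 10) uu < cr (zt ^ d) (vx i)) ∨ vx i ∈ segment ℝ uu (zt * uu)) := by
  rcases Nat.lt_or_ge i 5 with h | h
  · have hn : ‖vx i‖ ≤ 4 := by
      rw [vx_of_le (by omega)]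
      refine (norm_LL i).trans ?_
      have : i ≤ 4 := by omega
      exact_mod_cast this
    exact ⟨fun d => (strict_of_norm hn d).le, Or.inl fun d => strict_of_norm hn d⟩
  · rcases Nat.lt_or_ge i 7 with h7 | h7
    · rcases Nat.lt_or_ge i 6 with h6 | h6
      · have : i = 5 := by omega
        subst this
        have e : vx 5 = uu := by rw [vx_of_le (le_refl _)]; rfl
        rw [e]
        exact ⟨cr_d_uu, Or.inr (left_mem_segment ℝ _ _)⟩
      · have : i = 6 := by omega
        subst this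
        have e : vx 6 = zt * uu := by rw [vx_of_gt (by norm_num)]; rfl
        rw [e]
        exact ⟨cr_d_ztuu, Or.inr (right_mem_segment ℝ _ _)⟩
    · have hn : ‖vx i‖ ≤ 4 := by
        rw [vx_of_gt (by omega), norm_mul, zt_norm, one_mul]
        refine (norm_LL _).trans ?_
        have : 11 - i ≤ 4 := by omega
        exact_mod_cast this
      exact ⟨fun d => (strict_of_norm hn d).le, Or.inl fun d => strict_of_norm hn d⟩

end SIDESx

open SIDESx

theorem k_SIDES : T_BARY → T_KER → T_BETA → T_SIDE → T_SIDES := by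
  intro hBary hKer hBeta _ w hw hseg d
  obtain ⟨e, he, hcl⟩ := hBeta w hw
  have hor : 0 < cr (vx e - cc) (vx (e + 1) - cc) := by
    have h1 := hKer e he
    have h2 : cr (vx e - cc) (vx (e + 1) - cc) = cr (vx (e + 1) - vx e) (cc - vx e) := by
      simp only [cr, Complex.sub_re, Complex.sub_im]
      ring
    rw [h2]
    exact h1
  obtain ⟨α, β, γ, hα, hβ, hγ, hsum, hwe⟩ := hBary cc (vx e) (vx (e + 1)) w hor hcl
  obtain ⟨hB, hB'⟩ := vx_cases (i := e) (by omega)
  obtain ⟨hC, hC'⟩ := vx_cases (i := e + 1) (by omega)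
  have hA := strict_of_norm norm_cc d
  by_contra hcon
  push Not at hcon
  have hval : cr (zt ^ d) w = α * cr (zt ^ d) cc + β * cr (zt ^ d) (vx e) +
      γ * cr (zt ^ d) (vx (e + 1)) := by
    rw [hwe, cr_add_right, cr_add_right, cr_real_right, cr_real_right, cr_real_right]
  rw [hval] at hcon
  obtain ⟨t, ht⟩ : ∃ t, t = cr (zt ^ 10) uu := ⟨_, rfl⟩
  rw [← ht] at hcon hA
  have hB1 : 0 ≤ cr (zt ^ d) (vx e) - t := by rw [ht]; linarith [hB d]
  have hC1 : 0 ≤ cr (zt ^ d) (vx (e + 1)) - t := by rw [ht]; linarith [hC d]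
  have hsum0 : α * (cr (zt ^ d) cc - t) + β * (cr (zt ^ d) (vx e) - t) +
      γ * (cr (zt ^ d) (vx (e + 1)) - t) ≤ 0 := by
    have : α * t + β * t + γ * t = t := by rw [← add_mul, ← add_mul, hsum, one_mul]
    nlinarith
  have pA : 0 ≤ α * (cr (zt ^ d) cc - t) := mul_nonneg hα (by linarith)
  have pB : 0 ≤ β * (cr (zt ^ d) (vx e) - t) := mul_nonneg hβ hB1
  have pC : 0 ≤ γ * (cr (zt ^ d) (vx (e + 1)) - t) := mul_nonneg hγ hC1
  have zA : α * (cr (zt ^ d) cc - t) = 0 := by linarith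
  have zB : β * (cr (zt ^ d) (vx e) - t) = 0 := by linarith
  have zC : γ * (cr (zt ^ d) (vx (e + 1)) - t) = 0 := by linarith
  have hα0 : α = 0 := by
    rcases mul_eq_zero.1 zA with h | h
    · exact h
    · linarith
  have hβs : β = 0 ∨ vx e ∈ segment ℝ uu (zt * uu) := by
    rcases hB' with h | h
    · left
      rcases mul_eq_zero.1 zB with h1 | h1
      · exact h1
      · have := h d
        rw [← ht] at this
        linarith
    · exact Or.inr h
  have hγs : γ = 0 ∨ vx (e + 1) ∈ segment ℝ uu (zt * uu) := by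
    rcases hC' with h | h
    · left
      rcases mul_eq_zero.1 zC with h1 | h1
      · exact h1
      · have := h d
        rw [← ht] at this
        linarith
    · exact Or.inr h
  apply hseg
  have hw2 : w = β • vx e + γ • vx (e + 1) := by
    rw [hwe, hα0, Complex.real_smul, Complex.real_smul]
    push_cast
    ring
  rw [hw2]
  rcases hβs with h1 | h1
  · rcases hγs with h2 | h2
    · rw [hα0, h1, h2] at hsum
      norm_num at hsum
    · have hγ1 : γ = 1 := by rw [hα0, h1] at hsum; linarith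
      rw [h1, hγ1, zero_smul, one_smul, zero_add]
      exact h2
  · rcases hγs with h2 | h2
    · have hβ1 : β = 1 := by rw [hα0, h2] at hsum; linarith
      rw [h2, hβ1, zero_smul, one_smul, add_zero]
      exact h1
    · exact (convex_segment uu (zt * uu)) h1 h2 hβ hγ (by rw [hα0] at hsum; linarith)

end VT927
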