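import Pool.Agent.H927R2.VT.Basic

/-! task SIG: the reflection preserves the fan -/

open Finset

namespace VT927

theorem sig_conj_pow {i : ℕ} (h : i ≤ 30) : (starRingEnd ℂ) (zt ^ i) = zt ^ (30 - i) := by
  have h1 : zt ^ (30 - i) * zt ^ i = 1 := by
    rw [← pow_add, Nat.sub_add_cancel h, zt_pow_30]
  rw [zt_conj_pow, inv_pow]
  exact (eq_inv_of_mul_eq_one_left h1).symm

theorem sig_conj_uu : (starRingEnd ℂ) uu = zt ^ 26 * uu := by
  have h1 : (starRingEnd ℂ) (zt ^ 1) = zt ^ 29 := sig_conj_pow (by norm_num)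
  have h2 : (starRingEnd ℂ) (zt ^ 2) = zt ^ 28 := sig_conj_pow (by norm_num)
  have h3 : (starRingEnd ℂ) (zt ^ 3) = zt ^ 27 := sig_conj_pow (by norm_num)
  have h4 : (starRingEnd ℂ) (zt ^ 4) = zt ^ 26 := sig_conj_pow (by norm_num)
  rw [pow_one] at h1
  rw [uu_eq, map_add, map_add, map_add, map_add, map_one, h1, h2, h3, h4]
  linear_combination (-1 : ℂ) * zt_pow_30

theorem sig_LL (j : ℕ) : zt ^ 5 * uu = LL j + zt ^ (j + 5) * uu := by
  induction j with
  | zero => rw [LL_zero]; simp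
  | succ j ih =>
    rw [LL_succ, ih, uu_eq]
    linear_combination (-(zt ^ j) : ℂ) * zt_ten

theorem sig_inv (z : ℂ) : sg (sg z) = z := by
  have h25 : (starRingEnd ℂ) (zt ^ 5) = zt ^ 25 := sig_conj_pow (by norm_num)
  have h1 : (starRingEnd ℂ) (zt ^ 29) = zt ^ 1 := sig_conj_pow (by norm_num)
  unfold sg
  rw [map_add, map_mul, map_mul, sig_conj_uu, h25, h1, Complex.conj_conj]
  have h80 : zt ^ 80 = - zt ^ 5 := by
    rw [show (80 : ℕ) = 15 * 5 + 5 from rfl, pow_add, pow_mul, zt_pow_15]; ring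
  linear_combination uu * h80 + z * zt_pow_30

theorem sig_phi {j : ℕ} (hj : j ≤ 4) (z : ℂ) : phi j (sg z) = side (4 - j) z := by
  have e1 : sg z - LL j = zt ^ (j + 5) * uu + zt ^ 29 * (starRingEnd ℂ) z := by
    unfold sg
    rw [sig_LL j]; ring
  have hc : (starRingEnd ℂ) (zt ^ j) = zt ^ (30 - j) := sig_conj_pow (by omega)
  have h1 : (starRingEnd ℂ) (zt ^ 29) = zt ^ 1 := sig_conj_pow (by norm_num)
  have e2 : cr (zt ^ j) (zt ^ 29 * (starRingEnd ℂ) z) = cr (zt ^ (14 - j)) z := by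
    have a1 := cr_conj (zt ^ j) (zt ^ 29 * (starRingEnd ℂ) z)
    rw [map_mul, hc, h1, Complex.conj_conj] at a1
    have a2 := cr_zt_mul 29 (zt ^ (30 - j)) (zt ^ 1 * z)
    have a3 : zt ^ 29 * zt ^ (30 - j) = - zt ^ (14 - j) := by
      rw [← pow_add, show 29 + (30 - j) = 15 * 3 + (14 - j) by omega, pow_add, pow_mul, zt_pow_15]; ring
    have a4 : zt ^ 29 * (zt ^ 1 * z) = z := by
      linear_combination z * zt_pow_30
    rw [a3, a4, cr_neg_left] at a2
    linarith
  have e3 : cr (zt ^ j) (zt ^ (j + 5) * uu) = - cr (zt ^ 10) uu := by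
    have b1 := cr_zt_mul (j + 5) (zt ^ 10) uu
    have b2 : zt ^ (j + 5) * zt ^ 10 = - zt ^ j := by
      rw [← pow_add, show j + 5 + 10 = 15 + j by omega, pow_add, zt_pow_15]; ring
    rw [b2, cr_neg_left] at b1
    linarith
  have e4 : cr (zt ^ (14 - j)) (zt ^ (4 - j) * uu) = cr (zt ^ 10) uu := by
    have b1 := cr_zt_mul (4 - j) (zt ^ 10) uu
    rw [← pow_add, show 4 - j + 10 = 14 - j by omega] at b1
    exact b1
  unfold phi side
  rw [e1, cr_add_right, e2, e3, show 4 - j + 10 = 14 - j by omega, cr_sub_right, e4]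
  ring

theorem sig_side {j : ℕ} (hj : j ≤ 4) (z : ℂ) : side j (sg z) = phi (4 - j) z := by
  have h := sig_phi (j := 4 - j) (by omega) (sg z)
  rw [sig_inv, show 4 - (4 - j) = j by omega] at h
  exact h.symm

theorem sig_cr_le {a b : ℕ} (h : a ≤ b) : cr (zt ^ a) (zt ^ b) = (zt ^ (b - a)).im := by
  have h1 := cr_zt_mul a 1 (zt ^ (b - a))
  rw [mul_one, ← pow_add, Nat.add_sub_cancel' h] at h1
  rw [h1]
  simp [cr]

theorem sig_cr_ge {a b : ℕ} (h : b ≤ a) : cr (zt ^ a) (zt ^ b) = - (zt ^ (a - b)).im := by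
  rw [cr_swap, sig_cr_le h]

theorem sig_phi25 {j : ℕ} (hj : j ≤ 4) (z : ℂ) : phi j (zt ^ 25 * sg z) = phi (4 - j) (zt ^ 25 * z) := by
  have hc : (starRingEnd ℂ) (zt ^ j) = zt ^ (30 - j) := sig_conj_pow (by omega)
  have h1 : (starRingEnd ℂ) (zt ^ 24) = zt ^ 6 := sig_conj_pow (by norm_num)
  have e0 : zt ^ 25 * sg z = uu + zt ^ 24 * (starRingEnd ℂ) z := by
    unfold sg
    linear_combination (uu + zt ^ 24 * (starRingEnd ℂ) z) * zt_pow_30
  have e2 : cr (zt ^ j) (zt ^ 24 * (starRingEnd ℂ) z) = cr (zt ^ (4 - j)) (zt ^ 25 * z) := by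
    have a1 := cr_conj (zt ^ j) (zt ^ 24 * (starRingEnd ℂ) z)
    rw [map_mul, hc, h1, Complex.conj_conj] at a1
    have a2 := cr_zt_mul 19 (zt ^ (30 - j)) (zt ^ 6 * z)
    have a3 : zt ^ 19 * zt ^ (30 - j) = - zt ^ (4 - j) := by
      rw [← pow_add, show 19 + (30 - j) = 15 * 3 + (4 - j) by omega, pow_add, pow_mul, zt_pow_15]; ring
    have a4 : zt ^ 19 * (zt ^ 6 * z) = zt ^ 25 * z := by ring
    rw [a3, a4, cr_neg_left] at a2
    linarith
  have e3 : cr (zt ^ j) uu - cr (zt ^ j) (LL j) = - cr (zt ^ (4 - j)) (LL (4 - j)) := by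
    have L1 : LL 1 = zt ^ 0 := by simp [LL]
    have L2 : LL 2 = zt ^ 0 + zt ^ 1 := by simp [LL, sum_range_succ]
    have L3 : LL 3 = zt ^ 0 + zt ^ 1 + zt ^ 2 := by simp [LL, sum_range_succ]
    have L4 : LL 4 = zt ^ 0 + zt ^ 1 + zt ^ 2 + zt ^ 3 := by simp [LL, sum_range_succ]
    have L5 : uu = zt ^ 0 + zt ^ 1 + zt ^ 2 + zt ^ 3 + zt ^ 4 := by simp [uu, LL, sum_range_succ]
    have k01 := sig_cr_le (a := 0) (b := 1) (by norm_num)
    have k02 := sig_cr_le (a := 0) (b := 2) (by norm_num)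
    have k03 := sig_cr_le (a := 0) (b := 3) (by norm_num)
    have k04 := sig_cr_le (a := 0) (b := 4) (by norm_num)
    have k12 := sig_cr_le (a := 1) (b := 2) (by norm_num)
    have k13 := sig_cr_le (a := 1) (b := 3) (by norm_num)
    have k14 := sig_cr_le (a := 1) (b := 4) (by norm_num)
    have k23 := sig_cr_le (a := 2) (b := 3) (by norm_num)
    have k24 := sig_cr_le (a := 2) (b := 4) (by norm_num)
    have k34 := sig_cr_le (a := 3) (b := 4) (by norm_num)
    have k10 := sig_cr_ge (a := 1) (b := 0) (by norm_num)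
    have k20 := sig_cr_ge (a := 2) (b := 0) (by norm_num)
    have k30 := sig_cr_ge (a := 3) (b := 0) (by norm_num)
    have k40 := sig_cr_ge (a := 4) (b := 0) (by norm_num)
    have k21 := sig_cr_ge (a := 2) (b := 1) (by norm_num)
    have k31 := sig_cr_ge (a := 3) (b := 1) (by norm_num)
    have k41 := sig_cr_ge (a := 4) (b := 1) (by norm_num)
    have k32 := sig_cr_ge (a := 3) (b := 2) (by norm_num)
    have k42 := sig_cr_ge (a := 4) (b := 2) (by norm_num)
    have k43 := sig_cr_ge (a := 4) (b := 3) (by norm_num)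
    simp only [Nat.reduceSub] at k01 k02 k03 k04 k12 k13 k14 k23 k24 k34 k10 k20 k30 k40 k21 k31 k41 k32 k42 k43
    interval_cases j <;>
      simp only [L5, Nat.reduceSub, LL_zero, L1, L2, L3, L4, cr_add_right, cr_zero_right, cr_self,
        k01, k02, k03, k04, k12, k13, k14, k23, k24, k34, k10, k20, k30, k40, k21, k31, k41, k32, k42, k43] <;>
      ring
  rw [e0, phi_eq, phi_eq, cr_add_right, e2]
  linarith

theorem k_SIG : T_SIG := by
  refine ⟨sig_inv, ?_⟩
  rintro z ⟨h1, h2, h3⟩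
  refine ⟨?_, ?_, ?_⟩
  · intro j hj
    rw [sig_phi (by omega)]
    exact h3 _ (by omega)
  · intro h
    apply h2
    intro j hj
    have h4 := h (4 - j) (by omega)
    rw [sig_phi25 (by omega), show 4 - (4 - j) = j by omega] at h4
    exact h4
  · intro k hk
    rw [sig_side (by omega)]
    exact h1 _ (by omega)

end VT927
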