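import Pool.Agent.H927R2.VT.Basic

/-! task STAR: star-shaped sets are discs (60-110 lines) -/

open Finset

namespace VT927

theorem k_STAR : T_STAR := by
  intro f hf hhom hpos
  have f0 : f 0 = 0 := by
    have := hhom 0 le_rfl 0
    simpa using this
  have hnn : ∀ x, 0 ≤ f x := by
    intro x
    by_cases hx : x = 0
    · rw [hx, f0]
    · exact (hpos x hx).le
  obtain ⟨x0, hx0, hmin⟩ := (isCompact_sphere (0 : ℂ) 1).exists_isMinOn
    ⟨1, by simp⟩ hf.continuousOn
  have hx0ne : x0 ≠ 0 := by
    intro h
    rw [h] at hx0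
    simp at hx0
  set m : ℝ := f x0 with hm
  have hmpos : 0 < m := hpos x0 hx0ne
  have hlow : ∀ x : ℂ, m * ‖x‖ ≤ f x := by
    intro x
    by_cases hx : x = 0
    · rw [hx, f0]; simp
    · have hnx : 0 < ‖x‖ := norm_pos_iff.mpr hx
      have h1 : ((‖x‖ : ℝ) : ℂ) * (((‖x‖⁻¹ : ℝ) : ℂ) * x) = x := by
        rw [← mul_assoc, ← Complex.ofReal_mul, mul_inv_cancel₀ hnx.ne']; simp
      have h2 := hhom ‖x‖ hnx.le (((‖x‖⁻¹ : ℝ) : ℂ) * x)
      rw [h1] at h2
      rw [h2, mul_comm]
      apply mul_le_mul_of_nonneg_left _ hnx.le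
      apply hmin
      simp only [mem_sphere_iff_norm, sub_zero, norm_mul, Complex.norm_real, norm_inv, norm_norm]
      exact inv_mul_cancel₀ hnx.ne'
  refine ⟨?_, ?_⟩
  · apply Metric.isCompact_of_isClosed_isBounded
    · exact isClosed_le hf continuous_const
    · apply (Metric.isBounded_closedBall (x := (0 : ℂ)) (r := 1 / m)).subset
      intro x hx
      rw [mem_closedBall_zero_iff, le_div_iff₀ hmpos, mul_comm]
      exact (hlow x).trans hx
  · have hnorm1 : ∀ x : ℂ, ‖((f x / ‖x‖ : ℝ) : ℂ) * x‖ = f x := by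
      intro x
      by_cases hx : x = 0
      · rw [hx, f0]; simp
      · have hnx : 0 < ‖x‖ := norm_pos_iff.mpr hx
        rw [norm_mul, Complex.norm_real, Real.norm_eq_abs,
          abs_of_nonneg (div_nonneg (hnn x) hnx.le), div_mul_cancel₀ _ hnx.ne']
    have hnorm2 : ∀ y : ℂ, ‖((‖y‖ / f y : ℝ) : ℂ) * y‖ ≤ ‖y‖ / m := by
      intro y
      by_cases hy : y = 0
      · rw [hy]; simp
      · have hny : 0 < ‖y‖ := norm_pos_iff.mpr hy
        have hfy : 0 < f y := hpos y hy
        rw [norm_mul, Complex.norm_real, Real.norm_eq_abs,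
          abs_of_nonneg (div_nonneg hny.le hfy.le)]
        rw [le_div_iff₀ hmpos, div_mul_eq_mul_div, div_mul_eq_mul_div, div_le_iff₀ hfy]
        have := hlow y
        nlinarith
    let e : ℂ ≃ₜ ℂ :=
      { toFun := fun x => ((f x / ‖x‖ : ℝ) : ℂ) * x
        invFun := fun y => ((‖y‖ / f y : ℝ) : ℂ) * y
        left_inv := by
          intro x
          by_cases hx : x = 0
          · simp [hx]
          · have hnx : 0 < ‖x‖ := norm_pos_iff.mpr hx
            have hfx : 0 < f x := hpos x hx
            have h1 : f (((f x / ‖x‖ : ℝ) : ℂ) * x) = f x / ‖x‖ * f x :=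
              hhom _ (div_nonneg hfx.le hnx.le) x
            show (((‖((f x / ‖x‖ : ℝ) : ℂ) * x‖ / f (((f x / ‖x‖ : ℝ) : ℂ) * x) : ℝ)) : ℂ) *
              (((f x / ‖x‖ : ℝ) : ℂ) * x) = x
            rw [hnorm1, h1, ← mul_assoc, ← Complex.ofReal_mul]
            have : f x / (f x / ‖x‖ * f x) * (f x / ‖x‖) = 1 := by field_simp
            rw [this]; simp
        right_inv := by
          intro y
          by_cases hy : y = 0
          · simp [hy]
          · have hny : 0 < ‖y‖ := norm_pos_iff.mpr hy
            have hfy : 0 < f y := hpos y hy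
            have h1 : f (((‖y‖ / f y : ℝ) : ℂ) * y) = ‖y‖ / f y * f y :=
              hhom _ (div_nonneg hny.le hfy.le) y
            have h2 : ‖((‖y‖ / f y : ℝ) : ℂ) * y‖ = ‖y‖ / f y * ‖y‖ := by
              rw [norm_mul, Complex.norm_real, Real.norm_eq_abs,
                abs_of_nonneg (div_nonneg hny.le hfy.le)]
            show (((f (((‖y‖ / f y : ℝ) : ℂ) * y) / ‖((‖y‖ / f y : ℝ) : ℂ) * y‖ : ℝ)) : ℂ) *
              (((‖y‖ / f y : ℝ) : ℂ) * y) = y
            rw [h2, h1, ← mul_assoc, ← Complex.ofReal_mul]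
            have : ‖y‖ / f y * f y / (‖y‖ / f y * ‖y‖) * (‖y‖ / f y) = 1 := by field_simp
            rw [this]; simp
        continuous_toFun := by
          rw [continuous_iff_continuousAt]
          intro x
          by_cases hx : x = 0
          · rw [hx]
            show Filter.Tendsto _ _ _
            simp only [mul_zero]
            rw [tendsto_zero_iff_norm_tendsto_zero]
            simp only [hnorm1]
            have := hf.tendsto 0
            rwa [f0] at this
          · have h1 : ContinuousAt (fun x : ℂ => (f x / ‖x‖ : ℝ)) x :=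
              hf.continuousAt.div continuous_norm.continuousAt (norm_ne_zero_iff.mpr hx)
            exact (Complex.continuous_ofReal.continuousAt.comp h1).mul continuousAt_id
        continuous_invFun := by
          rw [continuous_iff_continuousAt]
          intro y
          by_cases hy : y = 0
          · rw [hy]
            show Filter.Tendsto _ _ _
            simp only [mul_zero]
            rw [tendsto_zero_iff_norm_tendsto_zero]
            apply squeeze_zero (fun y => norm_nonneg _) hnorm2
            have : Filter.Tendsto (fun y : ℂ => ‖y‖ / m) (nhds 0) (nhds (‖(0 : ℂ)‖ / m)) :=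
              (continuous_norm.div_const m).tendsto 0
            simpa using this
          · have h1 : ContinuousAt (fun y : ℂ => (‖y‖ / f y : ℝ)) y :=
              continuous_norm.continuousAt.div hf.continuousAt (hpos y hy).ne'
            exact (Complex.continuous_ofReal.continuousAt.comp h1).mul continuousAt_id }
    refine ⟨e.subtype (p := fun x => x ∈ {x : ℂ | f x ≤ 1})
      (q := fun y => y ∈ Metric.closedBall (0 : ℂ) 1) ?_⟩
    intro x
    rw [mem_closedBall_zero_iff]
    show f x ≤ 1 ↔ ‖((f x / ‖x‖ : ℝ) : ℂ) * x‖ ≤ 1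
    rw [hnorm1]

end VT927
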