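import Pool.Agent.H927R2.VT.Basic

/-! task TCOV -/

open Finset

namespace VT927

theorem k_TCOV : T_COV → T_RF → T_FSUB → T_FSUP → T_SIG → T_TCOV := by
  intro hC hR hsub hsup hS
  rw [T_TCOV, Set.eq_univ_iff_forall]
  intro z
  obtain ⟨b, k, i, j, hk, hz⟩ := hC z
  by_cases h : b = false ∧ k < 5 ∧ i = 0 ∧ j = 0
  · obtain ⟨rfl, hk5, rfl, rfl⟩ := h
    have h1 : z ∈ FF := hsup k hk5 hz
    have h2 : sg z ∈ FF := hS.2 z h1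
    obtain ⟨q, hq, h3⟩ := hsub (sg z) h2
    refine ⟨rf q, Or.inr ⟨q, hq, rfl⟩, ?_⟩
    rw [hR q hq]
    exact ⟨sg z, h3, hS.1 z⟩
  · exact ⟨tl b k i j, Or.inl ⟨b, k, i, j, hk, h, rfl⟩, hz⟩

end VT927
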