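import Pool.Agent.H927R2.VT.Basic

/-! task TDIS: modified tiling: disjoint interiors (40-80 lines) -/

open Finset

namespace VT927

theorem tdis_closed (hC : T_CINT) (hI : T_ISO) (k : ℕ) : IsClosed (tl false k 0 0) := by
  obtain ⟨g, hg⟩ := hI false (pt k 0 0) (zt ^ k) (zt_pow_norm k)
  have h4 : tl false k 0 0 = g.toHomeomorph '' Tile := by
    unfold tl
    simp only [Bool.false_eq_true, if_false]
    apply Set.image_congr
    intro z _
    exact (hg z).symm
  rw [h4]
  exact g.toHomeomorph.isClosed_image.2 hC.1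

theorem tdis_cont : Continuous sg := by
  unfold sg
  exact continuous_const.add (continuous_const.mul Complex.continuous_conj)

theorem tdis_rr (hD : T_DIS) (hRF : T_RF) (hS : T_SIG) (k k' : ℕ) (hk : k < 5) (hk' : k' < 5)
    (hne : k ≠ k') (O : Set ℂ) (hO : IsOpen O) (h1 : O ⊆ rf k) (h2 : O ⊆ rf k') : O = ∅ := by
  have hsub : ∀ q < 5, O ⊆ rf q → sg ⁻¹' O ⊆ tl false q 0 0 := by
    intro q hq h z hz
    have h3 : sg z ∈ rf q := h hz
    rw [hRF q hq] at h3
    obtain ⟨w, hw, hwz⟩ := h3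
    have h4 : w = z := by
      rw [← hS.1 w, hwz, hS.1]
    rw [← h4]
    exact hw
  have h3 := hD false k 0 0 false k' 0 0 (by omega) (by omega)
    (by
      intro he
      simp only [Prod.mk.injEq] at he
      exact hne he.2.1)
    (sg ⁻¹' O) (hO.preimage tdis_cont) (hsub k hk h1) (hsub k' hk' h2)
  rw [Set.eq_empty_iff_forall_notMem]
  intro z hz
  have h4 : sg z ∈ sg ⁻¹' O := by
    show sg (sg z) ∈ O
    rw [hS.1]
    exact hz
  rw [h3] at h4
  exact h4

theorem tdis_tr (hD : T_DIS) (hRF : T_RF) (hB : T_FSUB) (hP : T_FSUP) (hS : T_SIG) (hC : T_CINT)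
    (hI : T_ISO) (hBa : T_BAIRE) (b : Bool) (k i j k' : ℕ) (hk : k < 30) (hk' : k' < 5)
    (hf : ¬ (b = false ∧ k < 5 ∧ i = 0 ∧ j = 0)) (O : Set ℂ) (hO : IsOpen O)
    (h1 : O ⊆ tl b k i j) (h2 : O ⊆ rf k') : O = ∅ := by
  by_contra hne
  have hne' : O.Nonempty := Set.nonempty_iff_ne_empty.2 hne
  obtain ⟨q, hq, O', hO'O, hO', hO'ne, hO'q⟩ := hBa 5 (fun q => tl false q 0 0) O
    (fun e _ => tdis_closed hC hI e) hO hne' (by
      intro z hz
      have h3 : z ∈ rf k' := h2 hz
      rw [hRF k' hk'] at h3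
      obtain ⟨w, hw, hwz⟩ := h3
      have h4 : z ∈ FF := by
        rw [← hwz]
        exact hS.2 w (hP k' hk' hw)
      exact hB z h4)
  have h5 := hD b k i j false q 0 0 hk (by omega) (by
    intro he
    simp only [Prod.mk.injEq] at he
    apply hf
    exact ⟨he.1, by omega, he.2.2.1, he.2.2.2⟩) O' hO' (hO'O.trans h1) hO'q
  exact hO'ne.ne_empty h5

theorem k_TDIS : T_DIS → T_RF → T_FSUB → T_FSUP → T_SIG → T_CINT → T_ISO → T_BAIRE → T_TDIS := by
  intro hD hRF hB hP hS hC hI hBa T hT T' hT' hne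
  have key : ∀ O : Set ℂ, IsOpen O → O ⊆ T → O ⊆ T' → O = ∅ := by
    intro O hO h1 h2
    rcases hT with ⟨b, k, i, j, hk, hf, rfl⟩ | ⟨k, hk, rfl⟩
    · rcases hT' with ⟨b', k', i', j', hk', hf', rfl⟩ | ⟨k', hk', rfl⟩
      · refine hD b k i j b' k' i' j' hk hk' ?_ O hO h1 h2
        intro he
        simp only [Prod.mk.injEq] at he
        obtain ⟨e1, e2, e3, e4⟩ := he
        apply hne
        rw [e1, e2, e3, e4]
      · exact tdis_tr hD hRF hB hP hS hC hI hBa b k i j k' hk hk' hf O hO h1 h2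
    · rcases hT' with ⟨b', k', i', j', hk', hf', rfl⟩ | ⟨k', hk', rfl⟩
      · exact tdis_tr hD hRF hB hP hS hC hI hBa b' k' i' j' k hk' hk hf' O hO h2 h1
      · refine tdis_rr hD hRF hS k k' hk hk' ?_ O hO h1 h2
        intro he
        apply hne
        rw [he]
  rw [Set.disjoint_iff_inter_eq_empty]
  exact key _ (isOpen_interior.inter isOpen_interior)
    (Set.inter_subset_left.trans interior_subset) (Set.inter_subset_right.trans interior_subset)

end VT927
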