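import Pool.Agent.H927R2.VT.Basic

/-! task TISO -/

open Finset

namespace VT927

theorem k_TISO : T_ISO → T_TISO := by
  intro hI T hT
  have key : ∀ (m : Bool) (p w : ℂ), ‖w‖ = 1 → ∃ g : ℂ ≃ᵢ ℂ, mp m p w '' Tile = g '' Tile := by
    intro m p w hw
    obtain ⟨g, hg⟩ := hI m p w hw
    exact ⟨g, Set.image_congr fun z _ => (hg z).symm⟩
  rcases hT with ⟨b, k, i, j, _, _, rfl⟩ | ⟨k, _, rfl⟩
  · unfold tl
    cases b with
    | false =>
      simp only [Bool.false_eq_true, if_false]
      exact key _ _ _ (zt_pow_norm _)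
    | true =>
      simp only [if_true]
      exact key _ _ _ (zt_pow_norm _)
  · exact key _ _ _ (zt_pow_norm _)

end VT927
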