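import Pool.Agent.H927R2.VT.Basic

/-! task TNB: neighbours of rf k (70-120 lines) -/

open Finset

namespace VT927

theorem TNB_vtile (hVTX : T_VTX) (hVTY : T_VTY) : ∀ e < 12, vx e ∈ Tile := by
  intro e he
  obtain ⟨h1, h2⟩ := hVTX e he
  refine ⟨h1, ?_, h2⟩
  by_cases h : e < 11
  · obtain ⟨j, hj, h3, _⟩ := hVTY e h
    exact ⟨j, hj, h3⟩
  · have he' : e = 10 + 1 := by omega
    obtain ⟨j, hj, _, h3⟩ := hVTY 10 (by norm_num)
    exact ⟨j, hj, he' ▸ h3⟩

theorem TNB_placed (hCINT : T_CINT) (hISO : T_ISO) (m : Bool) (p w : ℂ) (hw : ‖w‖ = 1) :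
    IsClosed (mp m p w '' Tile) ∧ mp m p w '' Tile ⊆ closure (interior (mp m p w '' Tile)) := by
  obtain ⟨g, hg⟩ := hISO m p w hw
  have himg : mp m p w '' Tile = g.toHomeomorph '' Tile := by
    apply Set.image_congr
    intro a _
    exact (hg a).symm
  rw [himg]
  obtain ⟨hc, hi, _⟩ := hCINT
  refine ⟨(Homeomorph.isClosed_image _).2 hc, ?_⟩
  rw [← Homeomorph.image_interior, ← Homeomorph.image_closure]
  exact Set.image_mono hi

theorem TNB_tl (hCINT : T_CINT) (hISO : T_ISO) (b : Bool) (k i j : ℕ) :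
    IsClosed (tl b k i j) ∧ tl b k i j ⊆ closure (interior (tl b k i j)) := by
  unfold tl
  cases b with
  | false => simpa using TNB_placed hCINT hISO false (pt k i j) (zt ^ k) (zt_pow_norm k)
  | true => simpa using TNB_placed hCINT hISO true (pt k (i + 1) (j + 1)) (zt ^ (k + 20)) (zt_pow_norm _)

theorem TNB_mem_tl (k : ℕ) (z : ℂ) : z ∈ tl false k 0 0 ↔ ∃ w ∈ Tile, z = zt ^ k * w := by
  unfold tl
  simp only [Bool.false_eq_true, if_false, Set.mem_image, pt_zero, mp_false, zero_add]
  constructor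
  · rintro ⟨w, hw, rfl⟩; exact ⟨w, hw, rfl⟩
  · rintro ⟨w, hw, rfl⟩; exact ⟨w, hw, rfl⟩

theorem TNB_conj_uu : (starRingEnd ℂ) uu = zt ^ 26 * uu := by
  have h30 := zt_pow_30
  rw [uu_eq]
  simp only [map_add, map_one, map_pow, zt_conj, zt_inv]
  have e2 : (zt ^ 29) ^ 2 = zt ^ 28 := by
    rw [← pow_mul, show 29 * 2 = 30 * 1 + 28 from rfl, pow_add, pow_mul, h30]; ring
  have e3 : (zt ^ 29) ^ 3 = zt ^ 27 := by
    rw [← pow_mul, show 29 * 3 = 30 * 2 + 27 from rfl, pow_add, pow_mul, h30]; ring
  have e4 : (zt ^ 29) ^ 4 = zt ^ 26 := by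
    rw [← pow_mul, show 29 * 4 = 30 * 3 + 26 from rfl, pow_add, pow_mul, h30]; ring
  rw [e2, e3, e4]
  linear_combination (-1 : ℂ) * h30

theorem TNB_pt {k : ℕ} (h1 : 1 ≤ k) (h3 : k ≤ 3) : sg (zt ^ k * uu) = zt ^ 29 * (zt * LL (5 - k)) := by
  have h30 := zt_pow_30
  have h10 := zt_ten
  have h15 := zt_pow_15
  have hr : zt ^ 29 * (zt * LL (5 - k)) = LL (5 - k) := by
    rw [← mul_assoc, ← pow_succ, h30, one_mul]
  rw [hr]
  unfold sg
  rw [map_mul, map_pow, zt_conj, zt_inv, TNB_conj_uu, ← pow_mul]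
  have hk : k = 1 ∨ k = 2 ∨ k = 3 := by omega
  have key : ∀ a b : ℕ, 29 + a + 26 = 30 * b + (25 - k) → k ≤ 25 →
      zt ^ 29 * (zt ^ a * (zt ^ 26 * uu)) = zt ^ (25 - k) * uu := by
    intro a b hab _
    rw [← mul_assoc, ← mul_assoc, ← pow_add, ← pow_add, hab, pow_add, pow_mul, h30, one_pow, one_mul]
  rcases hk with rfl | rfl | rfl
  · rw [key (29 * 1) 2 (by norm_num) (by norm_num)]
    have e : zt ^ (25 - 1) = - zt ^ 9 := by
      rw [show 25 - 1 = 15 + 9 from rfl, pow_add, h15]; ring
    rw [e, uu_eq]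
    simp only [LL, sum_range_succ, range_zero, sum_empty]
    linear_combination (-1 + -1 * zt + -1 * zt ^ 2 + -1 * zt ^ 3) * h10
  · rw [key (29 * 2) 3 (by norm_num) (by norm_num)]
    have e : zt ^ (25 - 2) = - zt ^ 8 := by
      rw [show 25 - 2 = 15 + 8 from rfl, pow_add, h15]; ring
    rw [e, uu_eq]
    simp only [LL, sum_range_succ, range_zero, sum_empty]
    linear_combination (-1 + -1 * zt + -1 * zt ^ 2) * h10
  · rw [key (29 * 3) 4 (by norm_num) (by norm_num)]
    have e : zt ^ (25 - 3) = - zt ^ 7 := by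
      rw [show 25 - 3 = 15 + 7 from rfl, pow_add, h15]; ring
    rw [e, uu_eq]
    simp only [LL, sum_range_succ, range_zero, sum_empty]
    linear_combination (-1 + -1 * zt) * h10

theorem TNB_sg_cont : Continuous sg := by
  unfold sg
  have := Complex.continuous_conj
  fun_prop

theorem k_TNB : T_DIS → T_RF → T_FSUB → T_SIG → T_CINT → T_ISO → T_BAIRE → T_NA → T_NB → T_SGB → T_VTX → T_VTY → T_TNB := by
  intro hDIS hRF hFSUB hSIG hCINT hISO hBAIRE hNA hNB hSGB hVTX hVTY k hk1 hk3 S hS
  have h0T : (0 : ℂ) ∈ Tile := by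
    have := TNB_vtile hVTX hVTY 0 (by norm_num)
    simpa [vx, LL_zero] using this
  have happ : ∀ k' : ℕ, zt ^ 5 * uu ∈ rf k' := by
    intro k'
    refine ⟨0, h0T, ?_⟩
    simp [mp]
  constructor
  · rintro ⟨x, hxS, hxr⟩
    rcases hS with ⟨b, k1, i, j, hk30, hnf, rfl⟩ | ⟨k', hk', rfl⟩
    · rw [hRF k (by omega)] at hxr
      obtain ⟨y, hy, rfl⟩ := hxr
      obtain ⟨w, hw, rfl⟩ := (TNB_mem_tl k y).1 hy
      by_cases hw0 : w = 0
      · left
        subst hw0
        simpa [sg] using hxS
      · right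
        set f : ℕ → ℕ := fun e => if e = 0 then 29 else e - 1 with hf
        have hG : sg (zt ^ k * w) ∈ interior {z : ℂ | ∃ e < 6, z ∈ tl false (f e) 0 0} := by
          by_cases hseg : w ∈ segment ℝ uu (zt * uu)
          · have h1 := hSGB k hk1 hk3 w hseg
            have h2 := hNB (4 - k) (by omega) (by omega) (sg (zt ^ k * w))
              (by rw [show 4 - k + 1 = 5 - k by omega]; exact h1)
            refine interior_mono ?_ h2
            rintro z (hz | hz)
            · exact ⟨0, by norm_num, by simpa [hf] using hz⟩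
            · exact ⟨1, by norm_num, by simpa [hf] using hz⟩
          · have h1 := hNA k hk1 hk3 w hw hw0 hseg
            rw [mem_interior]
            refine ⟨sg ⁻¹' interior FF, ?_, isOpen_interior.preimage TNB_sg_cont, ?_⟩
            · intro z hz
              have hz' : sg z ∈ FF := interior_subset hz
              have hz2 : z ∈ FF := by
                have := hSIG.2 _ hz'
                rwa [hSIG.1] at this
              obtain ⟨q, hq, hzq⟩ := hFSUB z hz2
              exact ⟨q + 1, by omega, by simpa [hf] using hzq⟩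
            · rw [Set.mem_preimage, hSIG.1]
              exact h1
        have hcl := (TNB_tl hCINT hISO b k1 i j).2 hxS
        have hne : (interior {z : ℂ | ∃ e < 6, z ∈ tl false (f e) 0 0} ∩ interior (tl b k1 i j)).Nonempty :=
          mem_closure_iff.1 hcl _ isOpen_interior hG
        obtain ⟨e, he, O', hO', hO'o, hO'n, hO't⟩ := hBAIRE 6 (fun e => tl false (f e) 0 0)
          (interior {z : ℂ | ∃ e < 6, z ∈ tl false (f e) 0 0} ∩ interior (tl b k1 i j))
          (fun e _ => (TNB_tl hCINT hISO false (f e) 0 0).1)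
          (isOpen_interior.inter isOpen_interior) hne
          (fun z hz => by
            have hz1 : z ∈ {z : ℂ | ∃ e < 6, z ∈ tl false (f e) 0 0} := interior_subset hz.1
            exact hz1)
        have hfe : f e < 30 := by
          simp only [hf]; split_ifs <;> omega
        have heq : (b, k1, i, j) = (false, f e, 0, 0) := by
          by_contra hcon
          have := hDIS b k1 i j false (f e) 0 0 hk30 hfe hcon O' hO'o
            (fun z hz => interior_subset (hO' hz).2) hO't
          exact hO'n.ne_empty this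
        simp only [Prod.mk.injEq] at heq
        obtain ⟨rfl, rfl, rfl, rfl⟩ := heq
        by_cases he0 : e = 0
        · subst he0
          simp [hf]
        · exfalso
          apply hnf
          refine ⟨rfl, ?_, rfl, rfl⟩
          simp only [hf, he0, if_false]
          omega
    · left
      exact happ k'
  · rintro (h | h)
    · exact ⟨_, h, happ k⟩
    · subst h
      refine ⟨sg (zt ^ k * uu), ?_, ?_⟩
      · rw [TNB_mem_tl]
        refine ⟨zt * LL (5 - k), ?_, TNB_pt hk1 hk3⟩
        have h1 := TNB_vtile hVTX hVTY (6 + k) (by omega)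
        rw [vx_of_gt (by omega), show 11 - (6 + k) = 5 - k by omega] at h1
        exact h1
      · rw [hRF k (by omega)]
        refine ⟨zt ^ k * uu, ?_, rfl⟩
        rw [TNB_mem_tl]
        refine ⟨uu, ?_, rfl⟩
        have h1 := TNB_vtile hVTX hVTY 5 (by norm_num)
        rw [vx_of_le (le_refl 5)] at h1
        exact h1

end VT927
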