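import Pool.Agent.H927R2.VT.Basic

/-! task TNE: the three tiles are different (15-30 lines) -/

open Finset

namespace VT927

theorem tne_aux (hD : T_DIS) (hRF : T_RF) (hC : T_CINT) (hS : T_SIG) (hI : T_ISO) (k k' : ℕ)
    (hk : k < 5) (hk' : k' < 5) (hne : k ≠ k') : rf k ≠ rf k' := by
  intro h
  rw [hRF k hk, hRF k' hk'] at h
  have hinv : ∀ A : Set ℂ, sg '' (sg '' A) = A := by
    intro A
    rw [← Set.image_comp]
    have h1 : sg ∘ sg = id := funext hS.1
    rw [h1, Set.image_id]
  have h2 : tl false k 0 0 = tl false k' 0 0 := by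
    rw [← hinv (tl false k 0 0), h, hinv]
  have h3 := hD false k 0 0 false k' 0 0 (by omega) (by omega)
    (by
      intro he
      simp only [Prod.mk.injEq] at he
      exact hne he.2.1)
    (interior (tl false k 0 0)) isOpen_interior interior_subset
    (by rw [← h2]; exact interior_subset)
  obtain ⟨g, hg⟩ := hI false (pt k 0 0) (zt ^ k) (zt_pow_norm k)
  have h4 : tl false k 0 0 = g.toHomeomorph '' Tile := by
    unfold tl
    simp only [Bool.false_eq_true, if_false]
    apply Set.image_congr
    intro z _
    exact (hg z).symm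
  rw [h4, ← Homeomorph.image_interior, Set.image_eq_empty] at h3
  exact hC.2.2.ne_empty h3

theorem k_TNE : T_DIS → T_RF → T_CINT → T_SIG → T_ISO → T_TNE := by
  intro hD hRF hC hS hI
  exact ⟨tne_aux hD hRF hC hS hI 1 2 (by norm_num) (by norm_num) (by norm_num),
    tne_aux hD hRF hC hS hI 1 3 (by norm_num) (by norm_num) (by norm_num),
    tne_aux hD hRF hC hS hI 2 3 (by norm_num) (by norm_num) (by norm_num)⟩

end VT927
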