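import Pool.Agent.H927R2.VT.Basic

/-! task TOT1: total crossing number is 1 (40-80 lines) -/

open Finset

namespace VT927

namespace TOT1

theorem im_add15 (k : ℕ) : (zt ^ (k + 15)).im = - (zt ^ k).im := by
  rw [pow_add, zt_pow_15]; simp

theorem im_pos {k : ℕ} (h0 : 0 < k) (h1 : k < 15) : 0 < (zt ^ k).im := by
  rw [zt_pow_im]; exact sin_pos_k h0 h1

theorem im_zero : (zt ^ 0).im = 0 := by simp

theorem sign (k : ℕ) (hk : k < 30) : (0 < (zt ^ (k + 10)).im) ↔ (k ≤ 4 ∨ 21 ≤ k) := by
  by_cases h1 : k ≤ 4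
  · exact ⟨fun _ => Or.inl h1, fun _ => im_pos (by omega) (by omega)⟩
  by_cases h2 : k = 5
  · subst h2
    have := im_add15 0
    norm_num at this
    norm_num [this]
  by_cases h3 : k < 20
  · obtain ⟨m, rfl⟩ : ∃ m, k = m + 5 := ⟨k - 5, by omega⟩
    have h4 := im_add15 m
    have h5 : 0 < (zt ^ m).im := im_pos (by omega) (by omega)
    rw [show m + 5 + 10 = m + 15 by ring, h4]
    constructor
    · intro h; linarith
    · intro h; omega
  by_cases h4 : k = 20
  · subst h4
    rw [show (20 + 10 : ℕ) = 30 from rfl, zt_pow_30]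
    norm_num
  · obtain ⟨m, rfl⟩ : ∃ m, k = m + 20 := ⟨k - 20, by omega⟩
    have h5 : 0 < (zt ^ m).im := im_pos (by omega) (by omega)
    rw [show m + 20 + 10 = m + 15 + 15 by ring, im_add15, im_add15]
    constructor
    · intro _; right; omega
    · intro _; linarith

theorem im_ge {k : ℕ} (h0 : 5 ≤ k) (h1 : k ≤ 10) : 1 / 2 ≤ (zt ^ k).im := by
  rw [zt_pow_im, ← Real.sin_pi_div_six]
  have hpi := Real.pi_pos
  have h2 : (5 : ℝ) ≤ k := by exact_mod_cast h0
  have h3 : (k : ℝ) ≤ 10 := by exact_mod_cast h1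
  by_cases h : (k : ℝ) * (Real.pi / 15) ≤ Real.pi / 2
  · apply Real.sin_le_sin_of_le_of_le_pi_div_two <;> nlinarith
  · rw [← Real.sin_pi_sub ((k : ℝ) * (Real.pi / 15))]
    push Not at h
    apply Real.sin_le_sin_of_le_of_le_pi_div_two <;> nlinarith

theorem pt_im (k R : ℕ) : (pt k R 0).im = R * ((zt ^ k).im + (zt ^ (k + 1)).im + (zt ^ (k + 2)).im
    + (zt ^ (k + 3)).im + (zt ^ (k + 4)).im) := by
  have : pt k R 0 = ((R : ℝ) : ℂ) * (zt ^ k + zt ^ (k + 1) + zt ^ (k + 2) + zt ^ (k + 3) + zt ^ (k + 4)) := by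
    unfold pt; rw [uu_eq]; push_cast; ring
  rw [this, Complex.re_ofReal_mul |> fun _ => Complex.im_ofReal_mul]
  simp only [Complex.add_im]

end TOT1

open TOT1 in
theorem k_TOT1 : T_TOTB → T_BSIDE → T_TOT1 := by
  intro hT hB R z hz
  rw [hT R z]
  have hR : (0 : ℝ) < R := lt_of_le_of_lt (norm_nonneg z) hz
  have him := Complex.abs_im_le_norm z
  rw [abs_le] at him
  set h : ℕ → ℤ := fun k => if (pt k R 0).im ≤ z.im then 1 else 0 with hh
  have e1 : ∑ k ∈ range 30, BB k R z
      = ∑ k ∈ range 30, if (k ≤ 4 ∨ 21 ≤ k) then h k - h (k + 1) else 0 := by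
    apply sum_congr rfl
    intro k hk
    rw [hB k R z hz]
    have := sign k (mem_range.mp hk)
    simp only [this, hh]
  rw [e1]
  have h30 : h 30 = h 0 := by
    simp only [hh]
    have : pt 30 R 0 = pt 0 R 0 := by unfold pt; rw [zt_pow_30]; simp
    rw [this]
  have h5 : h 5 = 0 := by
    simp only [hh]
    rw [if_neg]
    rw [not_le, pt_im]
    have a1 := im_ge (k := 5) (by norm_num) (by norm_num)
    have a2 := im_ge (k := 6) (by norm_num) (by norm_num)
    have a3 := im_ge (k := 7) (by norm_num) (by norm_num)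
    have a4 := im_ge (k := 8) (by norm_num) (by norm_num)
    have a5 := im_ge (k := 9) (by norm_num) (by norm_num)
    norm_num
    nlinarith
  have h21 : h 21 = 1 := by
    simp only [hh]
    rw [if_pos]
    rw [pt_im]
    have a1 := im_ge (k := 6) (by norm_num) (by norm_num)
    have a2 := im_ge (k := 7) (by norm_num) (by norm_num)
    have a3 := im_ge (k := 8) (by norm_num) (by norm_num)
    have a4 := im_ge (k := 9) (by norm_num) (by norm_num)
    have a5 := im_ge (k := 10) (by norm_num) (by norm_num)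
    have b1 := im_add15 6
    have b2 := im_add15 7
    have b3 := im_add15 8
    have b4 := im_add15 9
    have b5 := im_add15 10
    norm_num at b1 b2 b3 b4 b5 ⊢
    rw [b1, b2, b3, b4, b5]
    nlinarith
  simp [sum_range_succ, h30, h5, h21]
  ring

end VT927
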