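import Pool.Agent.H927R2.VT.Basic

/-! task TOTB: sum over the 30 wedges -/

open Finset

namespace VT927

theorem k_TOTB : T_ROW → T_TOTB := by
  intro hrow R z
  have hpt : ∀ k r : ℕ, pt k 0 r = pt (k + 1) r 0 := by
    intro k r
    simp only [pt]
    push_cast
    ring
  have hz : ∀ r : ℕ, leg z (pt 30 r 0) 30 = leg z (pt 0 r 0) 0 := by
    intro r
    have h : pt 30 r 0 = pt 0 r 0 := by simp [pt, zt_pow_30]
    rw [h]
    simp [leg, zt_pow_30]
  have hsum : ∀ r : ℕ, ∑ k ∈ range 30, (leg z (pt k r 0) k - leg z (pt k 0 r) (k + 1)) = 0 := by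
    intro r
    simp only [hpt]
    have h := Finset.sum_range_sub' (fun k => leg z (pt k r 0) k) 30
    rw [h]
    simp only [hz, sub_self]
  have hk : ∀ k : ℕ, ∑ r ∈ range R, Row k r z
      = ∑ r ∈ range R, (leg z (pt k r 0) k - leg z (pt k 0 r) (k + 1)) + BB k R z := by
    intro k
    have h := Finset.sum_range_sub (fun r => BB k r z) R
    have h0 : BB k 0 z = 0 := by simp [BB]
    simp only [h0, sub_zero] at h
    rw [← h, ← Finset.sum_add_distrib]
    apply Finset.sum_congr rfl
    intro r _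
    rw [hrow k r z]
    ring
  unfold Tot
  rw [Finset.sum_congr rfl (fun k _ => hk k), Finset.sum_add_distrib, Finset.sum_comm]
  rw [Finset.sum_congr rfl (fun r _ => hsum r)]
  simp

end VT927
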