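import Pool.Agent.H927R2.VT.Basic

/-! task TRANS: transport from ℂ to the Euclidean plane (40-80 lines) -/

open Finset

namespace VT927

theorem TRANS_aux {P Q : Type*} [PseudoEMetricSpace P] [PseudoEMetricSpace Q] (Φ : P ≃ᵢ Q)
    (h : HasThree P) : HasThree Q := by
  obtain ⟨C, TTs, ⟨hC1, ⟨hC2⟩⟩, ⟨ht1, ht2, ht3⟩, T1, hT1, T2, hT2, T3, hT3, h12, h13, h23, n12, n23⟩ := h
  have hinj : Function.Injective (fun S : Set P => Φ '' S) := Φ.injective.image_injective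
  have hnb : ∀ T : Set P, nbhd ((fun S : Set P => Φ '' S) '' TTs) (Φ '' T)
      = Φ '' nbhd TTs T := by
    intro T
    ext x
    simp only [nbhd, Set.mem_sUnion, Set.mem_setOf_eq, Set.mem_image]
    constructor
    · rintro ⟨S, ⟨⟨S', hS', rfl⟩, h2⟩, hx⟩
      rw [← Set.image_inter Φ.injective, Set.image_nonempty] at h2
      obtain ⟨y, hy, rfl⟩ := hx
      exact ⟨y, ⟨S', ⟨hS', h2⟩, hy⟩, rfl⟩
    · rintro ⟨y, ⟨S', ⟨h1, h2⟩, hy⟩, rfl⟩
      refine ⟨Φ '' S', ⟨⟨S', h1, rfl⟩, ?_⟩, ⟨y, hy, rfl⟩⟩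
      rw [← Set.image_inter Φ.injective, Set.image_nonempty]
      exact h2
  have hint : ∀ S : Set P, interior (Φ '' S) = Φ '' interior S := by
    intro S
    exact (Φ.toHomeomorph.image_interior S).symm
  refine ⟨Φ '' C, (fun S : Set P => Φ '' S) '' TTs,
    ⟨hC1.image Φ.continuous, ⟨(Φ.toHomeomorph.image C).symm.trans hC2⟩⟩,
    ⟨?_, ?_, ?_⟩, Φ '' T1, ⟨T1, hT1, rfl⟩, Φ '' T2, ⟨T2, hT2, rfl⟩, Φ '' T3, ⟨T3, hT3, rfl⟩,
    fun e => h12 (hinj e), fun e => h13 (hinj e), fun e => h23 (hinj e), ?_, ?_⟩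
  · rintro T ⟨T', hT', rfl⟩
    obtain ⟨g, hg⟩ := ht1 T' hT'
    refine ⟨(Φ.symm.trans g).trans Φ, ?_⟩
    show Φ '' T' = _
    rw [hg]
    ext x
    simp only [Set.mem_image]
    constructor
    · rintro ⟨y, ⟨z, hz, rfl⟩, rfl⟩
      exact ⟨Φ z, ⟨z, hz, rfl⟩, by simp⟩
    · rintro ⟨y, ⟨z, hz, rfl⟩, rfl⟩
      exact ⟨g z, ⟨z, hz, rfl⟩, by simp⟩
  · rw [Set.sUnion_image, ← Set.image_iUnion₂, ← Set.sUnion_eq_biUnion, ht2, Set.image_univ]
    exact Φ.surjective.range_eq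
  · rintro T ⟨T', hT', rfl⟩ S ⟨S', hS', rfl⟩ hne
    show Disjoint (interior (Φ '' T')) (interior (Φ '' S'))
    rw [hint, hint]
    refine (Set.disjoint_image_iff Φ.injective).mpr (ht3 T' hT' S' hS' ?_)
    intro e
    exact hne (by rw [e])
  · rw [hnb, hnb, n12]
  · rw [hnb, hnb, n23]

theorem k_TRANS : T_TRANS := by
  intro h
  exact TRANS_aux (Complex.orthonormalBasisOneI.repr.toIsometryEquiv) h

end VT927
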