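import Pool.Agent.H927R2.VT.Basic

open Finset

namespace VT927

theorem tri01_aux (zx zy px py qx qy rx ry C1 C2 C3 D : ℝ)
    (h1 : C1 = (qx - px) * (zy - py) - (qy - py) * (zx - px))
    (h2 : C2 = (rx - qx) * (zy - qy) - (ry - qy) * (zx - qx))
    (h3 : C3 = (px - rx) * (zy - ry) - (py - ry) * (zx - rx))
    (hD : D = (qx - px) * (ry - py) - (qy - py) * (rx - px)) :
    C1 + C2 + C3 = D ∧ D * (zy - py) = C3 * (qy - py) + C1 * (ry - py) ∧
    D * (zy - qy) = C1 * (ry - qy) + C2 * (py - qy) ∧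
    D * (zy - ry) = C2 * (py - ry) + C3 * (qy - ry) := by
  subst h1 h2 h3 hD
  refine ⟨by ring, by ring, by ring, by ring⟩

/-- everything for the case where the vertex `p` is alone on its side of the horizontal line through `z` -/
theorem tri01_alone (z p q r : ℂ) (hD : 0 < cr (q - p) (r - p))
    (h : (p.im ≤ z.im ∧ z.im < q.im ∧ z.im < r.im) ∨ (z.im < p.im ∧ q.im ≤ z.im ∧ r.im ≤ z.im)) :
    (tri z p q r = 0 ∨ tri z p q r = 1) ∧ (tri z p q r = 1 → z ∈ clT p q r) := by
  obtain ⟨e0, e1, e2, e3⟩ := tri01_aux z.re z.im p.re p.im q.re q.im r.re r.im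
    (cr (q - p) (z - p)) (cr (r - q) (z - q)) (cr (p - r) (z - r)) (cr (q - p) (r - p))
    (by simp [cr]) (by simp [cr]) (by simp [cr]) (by simp [cr])
  unfold tri chi clT
  simp only [Set.mem_setOf_eq]
  generalize cr (q - p) (z - p) = C1 at *
  generalize cr (r - q) (z - q) = C2 at *
  generalize cr (p - r) (z - r) = C3 at *
  generalize cr (q - p) (r - p) = D at *
  rcases h with ⟨hp, hq, hr⟩ | ⟨hp, hq, hr⟩
  · -- p low alone
    have hq' : ¬ q.im ≤ z.im := not_le.mpr hq
    have hr' : ¬ r.im ≤ z.im := not_le.mpr hr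
    have hp' : ¬ z.im < p.im := not_lt.mpr hp
    simp only [hp, hq, hr, hq', hr', hp', true_and, false_and, and_true, if_false, if_true, and_false]
    by_cases a1 : 0 < C1
    · by_cases a3 : C3 < 0
      · simp [a1, a3]
      · simp only [a1, a3, if_true, if_false]
        refine ⟨Or.inr (by norm_num), fun _ => ⟨a1.le, ?_, not_lt.mp a3⟩⟩
        by_contra hc
        push Not at hc
        have b1 : 0 < C2 * (p.im - q.im) := mul_pos_of_neg_of_neg hc (by linarith)
        have b2 : 0 < C2 * (p.im - r.im) := mul_pos_of_neg_of_neg hc (by linarith)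
        have b3 : D * (z.im - q.im) < 0 := mul_neg_of_pos_of_neg hD (by linarith)
        have b4 : D * (z.im - r.im) < 0 := mul_neg_of_pos_of_neg hD (by linarith)
        have b5 : C1 * (r.im - q.im) < 0 := by linarith
        have b6 : r.im - q.im < 0 := by
          by_contra hh
          push Not at hh
          have := mul_nonneg a1.le hh
          linarith
        have b7 : 0 ≤ C3 * (q.im - r.im) := mul_nonneg (not_lt.mp a3) (by linarith)
        linarith
    · by_cases a3 : C3 < 0
      · exfalso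
        have b1 : C3 * (q.im - p.im) < 0 := mul_neg_of_neg_of_pos a3 (by linarith)
        have b2 : C1 * (r.im - p.im) ≤ 0 := mul_nonpos_of_nonpos_of_nonneg (not_lt.mp a1) (by linarith)
        have b3 : 0 ≤ D * (z.im - p.im) := mul_nonneg hD.le (by linarith)
        linarith
      · simp [a1, a3]
  · -- p high alone
    have hq' : ¬ z.im < q.im := not_lt.mpr hq
    have hr' : ¬ z.im < r.im := not_lt.mpr hr
    have hp' : ¬ p.im ≤ z.im := not_le.mpr hp
    simp only [hp, hq, hr, hq', hr', hp', true_and, false_and, and_true, if_false, if_true, and_false]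
    by_cases a3 : 0 < C3
    · by_cases a1 : C1 < 0
      · simp [a1, a3]
      · simp only [a1, a3, if_true, if_false]
        refine ⟨Or.inr (by norm_num), fun _ => ⟨not_lt.mp a1, ?_, a3.le⟩⟩
        by_contra hc
        push Not at hc
        have b1 : C2 * (p.im - q.im) < 0 := mul_neg_of_neg_of_pos hc (by linarith)
        have b2 : C2 * (p.im - r.im) < 0 := mul_neg_of_neg_of_pos hc (by linarith)
        have b3 : 0 ≤ D * (z.im - q.im) := mul_nonneg hD.le (by linarith)
        have b4 : 0 ≤ D * (z.im - r.im) := mul_nonneg hD.le (by linarith)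
        have b5 : 0 < C3 * (q.im - r.im) := by linarith
        have b6 : 0 < q.im - r.im := by
          by_contra hh
          push Not at hh
          have := mul_nonpos_of_nonneg_of_nonpos a3.le hh
          linarith
        have b7 : C1 * (r.im - q.im) ≤ 0 := mul_nonpos_of_nonneg_of_nonpos (not_lt.mp a1) (by linarith)
        linarith
    · by_cases a1 : C1 < 0
      · exfalso
        have b1 : 0 < C1 * (r.im - p.im) := mul_pos_of_neg_of_neg a1 (by linarith)
        have b2 : 0 ≤ C3 * (q.im - p.im) := mul_nonneg_of_nonpos_of_nonpos (not_lt.mp a3) (by linarith)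
        have b3 : D * (z.im - p.im) < 0 := mul_neg_of_pos_of_neg hD (by linarith)
        linarith
      · simp [a1, a3]

theorem tri01_rot (z p q r : ℂ) : tri z p q r = tri z q r p := by
  unfold tri; ring

theorem tri01_crrot (p q r : ℂ) : cr (q - p) (r - p) = cr (r - q) (p - q) := by
  simp [cr]; ring

theorem tri01_clrot (z p q r : ℂ) (h : z ∈ clT q r p) : z ∈ clT p q r := ⟨h.2.2, h.1, h.2.1⟩

theorem tri01_all (z p q r : ℂ) (hD : 0 < cr (q - p) (r - p)) :
    (tri z p q r = 0 ∨ tri z p q r = 1) ∧ (tri z p q r = 1 → z ∈ clT p q r) := by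
  have hD2 : 0 < cr (r - q) (p - q) := by rw [← tri01_crrot]; exact hD
  have hD3 : 0 < cr (p - r) (q - r) := by rw [← tri01_crrot]; exact hD2
  have rot1 : ((q.im ≤ z.im ∧ z.im < r.im ∧ z.im < p.im) ∨ (z.im < q.im ∧ r.im ≤ z.im ∧ p.im ≤ z.im)) →
      (tri z p q r = 0 ∨ tri z p q r = 1) ∧ (tri z p q r = 1 → z ∈ clT p q r) := by
    intro h
    obtain ⟨a, b⟩ := tri01_alone z q r p hD2 h
    rw [tri01_rot z p q r]
    exact ⟨a, fun hh => tri01_clrot z p q r (b hh)⟩
  have rot2 : ((r.im ≤ z.im ∧ z.im < p.im ∧ z.im < q.im) ∨ (z.im < r.im ∧ p.im ≤ z.im ∧ q.im ≤ z.im)) →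
      (tri z p q r = 0 ∨ tri z p q r = 1) ∧ (tri z p q r = 1 → z ∈ clT p q r) := by
    intro h
    obtain ⟨a, b⟩ := tri01_alone z r p q hD3 h
    rw [tri01_rot z p q r, tri01_rot z q r p]
    exact ⟨a, fun hh => tri01_clrot z p q r (tri01_clrot z q r p (b hh))⟩
  rcases le_or_gt p.im z.im with hp | hp <;> rcases le_or_gt q.im z.im with hq | hq <;>
    rcases le_or_gt r.im z.im with hr | hr
  · -- all low
    have : tri z p q r = 0 := by
      unfold tri chi
      simp [not_lt.mpr hp, not_lt.mpr hq, not_lt.mpr hr]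
    rw [this]
    exact ⟨Or.inl rfl, fun h => absurd h (by norm_num)⟩
  · exact rot2 (Or.inr ⟨hr, hp, hq⟩)
  · exact rot1 (Or.inr ⟨hq, hr, hp⟩)
  · exact tri01_alone z p q r hD (Or.inl ⟨hp, hq, hr⟩)
  · exact tri01_alone z p q r hD (Or.inr ⟨hp, hq, hr⟩)
  · exact rot1 (Or.inl ⟨hq, hr, hp⟩)
  · exact rot2 (Or.inl ⟨hr, hp, hq⟩)
  · have : tri z p q r = 0 := by
      unfold tri chi
      simp [not_le.mpr hp, not_le.mpr hq, not_le.mpr hr]
    rw [this]
    exact ⟨Or.inl rfl, fun h => absurd h (by norm_num)⟩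

theorem k_TRI01 : T_TRI01 := fun z p q r hD => (tri01_all z p q r hD).1

end VT927
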