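import Pool.Agent.H927R2.VT.KTRI01

/-! task TRIC: half-open triangle: tri = 1 implies closed triangle (40-80 lines) -/

open Finset

namespace VT927

theorem k_TRIC : T_TRIC := fun z p q r hD => (tri01_all z p q r hD).2

end VT927
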