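import Pool.Agent.H927R2.VT.Ori

/-! task TRIIN -/

open Finset

namespace VT927

theorem k_TRIIN : T_BARY → T_KER → T_CPOS → T_VTX → T_VTY → T_TRIIN := by
  intro hB hK hC hX hY e he z hz
  obtain ⟨α, β, γ, h1, h2, h3, h4, h5⟩ := hB cc (vx e) (vx (e + 1)) z (ker_orient hK he) hz
  obtain ⟨a1, a2⟩ := hX e (by omega)
  obtain ⟨b1, b2⟩ := hX (e + 1) (by omega)
  refine ⟨?_, ?_, ?_⟩
  · intro j hj
    rw [h5, phi_comb j h4]
    have := (hC.1 j hj).le
    have := a1 j hj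
    have := b1 j hj
    positivity
  · obtain ⟨j, hj, y1, y2⟩ := hY e he
    refine ⟨j, hj, ?_⟩
    have e1 : zt⁻¹ * z = (α : ℂ) * (zt⁻¹ * cc) + (β : ℂ) * (zt⁻¹ * vx e) + (γ : ℂ) * (zt⁻¹ * vx (e + 1)) := by
      rw [h5]; ring
    rw [e1, phi_comb j h4]
    have k1 := mul_nonpos_of_nonneg_of_nonpos h1 (hC.2.1 j hj).le
    have k2 := mul_nonpos_of_nonneg_of_nonpos h2 y1
    have k3 := mul_nonpos_of_nonneg_of_nonpos h3 y2
    linarith
  · have e1 : z - uu = (α : ℂ) * (cc - uu) + (β : ℂ) * (vx e - uu) + (γ : ℂ) * (vx (e + 1) - uu) := by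
      have h6 : (α : ℂ) + β + γ = 1 := by exact_mod_cast h4
      rw [h5]
      linear_combination uu * h6
    rw [e1, cr_add_right, cr_add_right, cr_real_right, cr_real_right, cr_real_right]
    have := hC.2.2.le
    positivity

end VT927
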