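import Pool.Agent.H927R2.VT.Basic

/-! task TRIO: open triangle: tri = 1 (30-60 lines) -/

open Finset

namespace VT927

theorem chi_of_pos (z p q : ℂ) (h : 0 < cr (q - p) (z - p)) :
    chi z p q = if p.im ≤ z.im ∧ z.im < q.im then 1 else 0 := by
  unfold chi
  have h2 : ¬ (cr (q - p) (z - p) < 0) := not_lt.2 h.le
  by_cases h1 : p.im ≤ z.im ∧ z.im < q.im
  · rw [if_pos ⟨h1.1, h1.2, h⟩, if_pos h1]
  · rw [if_neg (fun h3 => h1 ⟨h3.1, h3.2.1⟩), if_neg (fun h3 => h2 h3.2.2), if_neg h1]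

theorem k_TRIO : T_TRIO := by
  intro z p q r hD hz
  obtain ⟨hA, hB, hC⟩ := hz
  have key : cr (q - p) (z - p) * (r.im - z.im) + cr (r - q) (z - q) * (p.im - z.im) +
      cr (p - r) (z - r) * (q.im - z.im) = 0 := by
    simp only [cr, Complex.sub_re, Complex.sub_im]; ring
  unfold tri
  rw [chi_of_pos z p q hA, chi_of_pos z q r hB, chi_of_pos z r p hC]
  rcases le_or_gt p.im z.im with h1 | h1 <;> rcases le_or_gt q.im z.im with h2 | h2 <;>
    rcases le_or_gt r.im z.im with h3 | h3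
  · exfalso
    have e3 : cr (q - p) (z - p) * (z.im - r.im) ≥ 0 := mul_nonneg hA.le (by linarith)
    have e1 : cr (r - q) (z - q) * (z.im - p.im) ≥ 0 := mul_nonneg hB.le (by linarith)
    have e2 : cr (p - r) (z - r) * (z.im - q.im) ≥ 0 := mul_nonneg hC.le (by linarith)
    have f3 : cr (q - p) (z - p) * (z.im - r.im) = 0 := by linarith
    have f1 : cr (r - q) (z - q) * (z.im - p.im) = 0 := by linarith
    have f2 : cr (p - r) (z - r) * (z.im - q.im) = 0 := by linarith
    have g3 : z.im - r.im = 0 := (mul_eq_zero.1 f3).resolve_left hA.ne'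
    have g1 : z.im - p.im = 0 := (mul_eq_zero.1 f1).resolve_left hB.ne'
    have g2 : z.im - q.im = 0 := (mul_eq_zero.1 f2).resolve_left hC.ne'
    have : cr (q - p) (r - p) = 0 := by
      simp only [cr, Complex.sub_re, Complex.sub_im]
      have h4 : q.im = p.im := by linarith
      have h5 : r.im = p.im := by linarith
      rw [h4, h5]; ring
    linarith
  · simp [h1, h2, h3, not_lt.2 h1, not_lt.2 h2, not_le.2 h3]
  · simp [h1, h2, h3, not_lt.2 h1, not_lt.2 h3, not_le.2 h2]
  · simp [h1, h2, h3, not_lt.2 h1, not_le.2 h2, not_le.2 h3]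
  · simp [h1, h2, h3, not_lt.2 h2, not_lt.2 h3, not_le.2 h1]
  · simp [h1, h2, h3, not_lt.2 h2, not_le.2 h1, not_le.2 h3]
  · simp [h1, h2, h3, not_lt.2 h3, not_le.2 h1, not_le.2 h2]
  · exfalso
    have e3 : 0 < cr (q - p) (z - p) * (r.im - z.im) := mul_pos hA (by linarith)
    have e1 : 0 < cr (r - q) (z - q) * (p.im - z.im) := mul_pos hB (by linarith)
    have e2 : 0 < cr (p - r) (z - r) * (q.im - z.im) := mul_pos hC (by linarith)
    linarith

end VT927
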