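import Pool.Agent.H927R2.VT.Basic

/-! task TWO: two different tiles have no common crossing point (40-80 lines) -/

open Finset

namespace VT927

/-- the terms -/
noncomputable def twoG (z : ℂ) (x : ℕ × ℕ × ℕ × Bool) : ℤ :=
  if x.2.2.2 = true then (if x.2.2.1 < x.2.1 then WV x.1 x.2.2.1 (x.2.1 - 1 - x.2.2.1) z else 0)
  else (if x.2.2.1 < x.2.1 + 1 then WU x.1 x.2.2.1 (x.2.1 - x.2.2.1) z else 0)

/-- the index of a tile -/
def twoI (b : Bool) (k i j : ℕ) : ℕ × ℕ × ℕ × Bool :=
  (k, (if b = true then i + j + 1 else i + j), i, b)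

theorem two_sum (f : ℕ → ℤ) (r R : ℕ) (h : r ≤ R) :
    ∑ i ∈ range R, (if i < r then f i else 0) = ∑ i ∈ range r, f i := by
  rw [← Finset.sum_subset (range_subset_range.2 h)
    (f := fun i => if i < r then f i else 0) (fun i _ hi => by
      rw [Finset.mem_range] at hi
      exact if_neg hi)]
  refine Finset.sum_congr rfl (fun i hi => ?_)
  rw [Finset.mem_range] at hi
  exact if_pos hi

theorem two_tot (R : ℕ) (z : ℂ) :
    Tot R z = ∑ x ∈ range 30 ×ˢ (range R ×ˢ (range R ×ˢ (Finset.univ : Finset Bool))), twoG z x := by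
  rw [Finset.sum_product]
  unfold Tot
  refine Finset.sum_congr rfl (fun k _ => ?_)
  rw [Finset.sum_product]
  refine Finset.sum_congr rfl (fun r hr => ?_)
  rw [Finset.mem_range] at hr
  rw [Finset.sum_product]
  have h1 : ∀ i : ℕ, ∑ b : Bool, twoG z (k, r, i, b) =
      (if i < r then WV k i (r - 1 - i) z else 0) + (if i < r + 1 then WU k i (r - i) z else 0) := by
    intro i
    rw [Fintype.sum_bool]
    simp [twoG]
  simp only [h1]
  rw [Finset.sum_add_distrib, two_sum _ r R hr.le, two_sum _ (r + 1) R hr]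
  unfold Row
  ring

theorem two_nonneg (h : T_WPOS) (z : ℂ) (x : ℕ × ℕ × ℕ × Bool) : 0 ≤ twoG z x := by
  unfold twoG WV WU
  split_ifs
  · exact h _ _ _ _ (zt_pow_norm _)
  · exact le_refl _
  · exact h _ _ _ _ (zt_pow_norm _)
  · exact le_refl _

theorem two_val (z : ℂ) (b : Bool) (k i j : ℕ) : twoG z (twoI b k i j) = WT b k i j z := by
  unfold twoG twoI WT
  cases b
  · simp only [Bool.false_eq_true, if_false]
    rw [if_pos (by omega), Nat.add_sub_cancel_left]
  · simp only [if_true]
    rw [if_pos (by omega)]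
    congr 1
    omega

theorem two_mem (b : Bool) (k i j R : ℕ) (hk : k < 30) (hR : i + j + 2 < R) :
    twoI b k i j ∈ range 30 ×ˢ (range R ×ˢ (range R ×ˢ (Finset.univ : Finset Bool))) := by
  unfold twoI
  simp only [Finset.mem_product, Finset.mem_range, Finset.mem_univ, and_true]
  refine ⟨hk, ?_, by omega⟩
  split_ifs <;> omega

theorem k_TWO : T_TOT1 → T_WPOS → T_TWO := by
  intro hT hW b k i j b' k' i' j' z hk hk' hne hcon
  obtain ⟨R0, hR0⟩ := exists_nat_gt ‖z‖
  set R : ℕ := R0 + (i + j + 3) + (i' + j' + 3) with hR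
  have h1 : Tot R z = 1 := by
    apply hT
    refine lt_of_lt_of_le hR0 ?_
    exact_mod_cast (by omega : R0 ≤ R)
  rw [two_tot] at h1
  have hidx : twoI b k i j ≠ twoI b' k' i' j' := by
    intro he
    apply hne
    unfold twoI at he
    simp only [Prod.mk.injEq] at he ⊢
    obtain ⟨e1, e2, e3, e4⟩ := he
    refine ⟨e4, e1, e3, ?_⟩
    rw [e4] at e2
    split_ifs at e2 <;> omega
  have h2 : ∑ x ∈ ({twoI b k i j, twoI b' k' i' j'} : Finset (ℕ × ℕ × ℕ × Bool)), twoG z x ≤
      ∑ x ∈ range 30 ×ˢ (range R ×ˢ (range R ×ˢ (Finset.univ : Finset Bool))), twoG z x := by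
    apply Finset.sum_le_sum_of_subset_of_nonneg
    · intro x hx
      rw [Finset.mem_insert, Finset.mem_singleton] at hx
      rcases hx with rfl | rfl
      · exact two_mem b k i j R hk (by omega)
      · exact two_mem b' k' i' j' R hk' (by omega)
    · intro x _ _
      exact two_nonneg hW z x
  rw [Finset.sum_pair hidx, two_val, two_val, h1] at h2
  linarith [hcon.1, hcon.2]

end VT927
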