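import Pool.Agent.H927R2.VT.Basic

/-! task VTX: vertices satisfy the convex constraints -/

open Finset

namespace VT927

theorem k_VTX : T_VTX := by
  intro e he
  have h0 : ∀ i j : ℕ, i ≤ j → j ≤ i + 15 → 0 ≤ cr (zt ^ i) (zt ^ j) := fun i j => cr_zt_nonneg
  have hsw : ∀ i j : ℕ, cr (zt ^ i) (zt ^ j) = - cr (zt ^ j) (zt ^ i) := fun i j => cr_swap _ _
  have L1 : LL 1 = zt ^ 0 := by simp [LL]
  have L2 : LL 2 = zt ^ 0 + zt ^ 1 := by simp [LL, sum_range_succ]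
  have L3 : LL 3 = zt ^ 0 + zt ^ 1 + zt ^ 2 := by simp [LL, sum_range_succ]
  have L4 : LL 4 = zt ^ 0 + zt ^ 1 + zt ^ 2 + zt ^ 3 := by simp [LL, sum_range_succ]
  have L5 : LL 5 = zt ^ 0 + zt ^ 1 + zt ^ 2 + zt ^ 3 + zt ^ 4 := by simp [LL, sum_range_succ]
  have M1 : zt * LL 1 = zt ^ 1 := by rw [L1]; ring
  have M2 : zt * LL 2 = zt ^ 1 + zt ^ 2 := by rw [L2]; ring
  have M3 : zt * LL 3 = zt ^ 1 + zt ^ 2 + zt ^ 3 := by rw [L3]; ring
  have M4 : zt * LL 4 = zt ^ 1 + zt ^ 2 + zt ^ 3 + zt ^ 4 := by rw [L4]; ring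
  have M5 : zt * LL 5 = zt ^ 1 + zt ^ 2 + zt ^ 3 + zt ^ 4 + zt ^ 5 := by rw [L5]; ring
  have M5' : zt * LL 5 = zt ^ 0 + zt ^ 1 + zt ^ 2 + zt ^ 3 + zt ^ 4 + zt ^ 10 := by
    have h := zt_mul_uu
    rw [uu] at h
    rw [h, L5]
  have e01 := h0 0 1 (by norm_num) (by norm_num)
  have e02 := h0 0 2 (by norm_num) (by norm_num)
  have e03 := h0 0 3 (by norm_num) (by norm_num)
  have e04 := h0 0 4 (by norm_num) (by norm_num)
  have e05 := h0 0 5 (by norm_num) (by norm_num)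
  have e12 := h0 1 2 (by norm_num) (by norm_num)
  have e13 := h0 1 3 (by norm_num) (by norm_num)
  have e14 := h0 1 4 (by norm_num) (by norm_num)
  have e15 := h0 1 5 (by norm_num) (by norm_num)
  have e23 := h0 2 3 (by norm_num) (by norm_num)
  have e24 := h0 2 4 (by norm_num) (by norm_num)
  have e25 := h0 2 5 (by norm_num) (by norm_num)
  have e34 := h0 3 4 (by norm_num) (by norm_num)
  have e35 := h0 3 5 (by norm_num) (by norm_num)
  have e45 := h0 4 5 (by norm_num) (by norm_num)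
  have t0 := h0 0 10 (by norm_num) (by norm_num)
  have t1 := h0 1 10 (by norm_num) (by norm_num)
  have t2 := h0 2 10 (by norm_num) (by norm_num)
  have t3 := h0 3 10 (by norm_num) (by norm_num)
  have t4 := h0 4 10 (by norm_num) (by norm_num)
  have t5 := h0 5 10 (by norm_num) (by norm_num)
  have s10 := hsw 1 0
  have s20 := hsw 2 0
  have s30 := hsw 3 0
  have s40 := hsw 4 0
  have s21 := hsw 2 1
  have s31 := hsw 3 1
  have s41 := hsw 4 1
  have s32 := hsw 3 2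
  have s42 := hsw 4 2
  have s43 := hsw 4 3
  have c0 := cr_self (zt ^ 0)
  have c1 := cr_self (zt ^ 1)
  have c2 := cr_self (zt ^ 2)
  have c3 := cr_self (zt ^ 3)
  have c4 := cr_self (zt ^ 4)
  have c10 := cr_self (zt ^ 10)
  have z0 := hsw 10 0
  have z1 := hsw 10 1
  have z2 := hsw 10 2
  have z3 := hsw 10 3
  have z4 := hsw 10 4
  have z5 := hsw 10 5
  have V0 : vx 0 = 0 := by rw [vx_of_le (by norm_num)]; exact LL_zero
  have V1 : vx 1 = zt ^ 0 := by rw [vx_of_le (by norm_num)]; exact L1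
  have V2 : vx 2 = zt ^ 0 + zt ^ 1 := by rw [vx_of_le (by norm_num)]; exact L2
  have V3 : vx 3 = zt ^ 0 + zt ^ 1 + zt ^ 2 := by rw [vx_of_le (by norm_num)]; exact L3
  have V4 : vx 4 = zt ^ 0 + zt ^ 1 + zt ^ 2 + zt ^ 3 := by rw [vx_of_le (by norm_num)]; exact L4
  have V5 : vx 5 = zt ^ 0 + zt ^ 1 + zt ^ 2 + zt ^ 3 + zt ^ 4 := by rw [vx_of_le (by norm_num)]; exact L5
  have V6 : vx 6 = zt ^ 1 + zt ^ 2 + zt ^ 3 + zt ^ 4 + zt ^ 5 := by rw [vx_of_gt (by norm_num)]; exact M5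
  have V6' : vx 6 = zt ^ 0 + zt ^ 1 + zt ^ 2 + zt ^ 3 + zt ^ 4 + zt ^ 10 := by
    rw [vx_of_gt (by norm_num)]; exact M5'
  have V7 : vx 7 = zt ^ 1 + zt ^ 2 + zt ^ 3 + zt ^ 4 := by rw [vx_of_gt (by norm_num)]; exact M4
  have V8 : vx 8 = zt ^ 1 + zt ^ 2 + zt ^ 3 := by rw [vx_of_gt (by norm_num)]; exact M3
  have V9 : vx 9 = zt ^ 1 + zt ^ 2 := by rw [vx_of_gt (by norm_num)]; exact M2
  have V10 : vx 10 = zt ^ 1 := by rw [vx_of_gt (by norm_num)]; exact M1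
  have V11 : vx 11 = 0 := by
    rw [vx_of_gt (by norm_num)]
    show zt * LL 0 = 0
    rw [LL_zero, mul_zero]
  have U : uu = zt ^ 0 + zt ^ 1 + zt ^ 2 + zt ^ 3 + zt ^ 4 := L5
  constructor
  · intro j hj
    clear V6' M5' t0 t1 t2 t3 t4 t5 z0 z1 z2 z3 z4 z5 c10
    interval_cases e <;> interval_cases j <;>
      simp only [V0, V1, V2, V3, V4, V5, V6, V7, V8, V9, V10, V11, phi_eq, LL_zero, L1, L2, L3, L4,
        cr_add_right, cr_zero_right] <;>
      linarith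
  · clear V6 M5
    interval_cases e <;>
      simp only [V0, V1, V2, V3, V4, V5, V6', V7, V8, V9, V10, V11, U, cr_sub_right,
        cr_add_right, cr_zero_right] <;>
      linarith

end VT927
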