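import Pool.Agent.H927R2.VT.Basic

/-! task VTY: each edge is right of one concave line (20-50 lines) -/

open Finset

namespace VT927

theorem vty_key (j : ℕ) (x : ℂ) :
    phi j (zt⁻¹ * x) = cr (zt ^ (j + 1)) x - cr (zt ^ j) (LL j) := by
  rw [phi_eq]
  have h := cr_mul_of_norm zt_norm (zt ^ j) (zt⁻¹ * x)
  rw [← mul_assoc, mul_inv_cancel₀ zt_ne, one_mul] at h
  rw [← h, pow_succ']

theorem vty_crz (i k : ℕ) : cr (zt ^ (i + k)) (zt ^ i) = - cr (zt ^ 0) (zt ^ k) := by
  rw [cr_zt, cr_zt, ← Real.sin_neg]
  congr 1
  push_cast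
  ring

theorem vty_mono (k : ℕ) (h1 : 1 ≤ k) (h2 : k ≤ 5) :
    cr (zt ^ 0) (zt ^ 1) ≤ cr (zt ^ 0) (zt ^ k) := by
  rw [cr_zt, cr_zt]
  have hpi := Real.pi_pos
  have h1' : (1 : ℝ) ≤ k := by exact_mod_cast h1
  have h2' : (k : ℝ) ≤ 5 := by exact_mod_cast h2
  apply Real.sin_le_sin_of_le_of_le_pi_div_two
  · push_cast; nlinarith
  · push_cast; nlinarith
  · push_cast; nlinarith

theorem vty_phi_inv (j : ℕ) : phi j (LL j) = 0 := by
  rw [phi_eq, sub_self]

theorem vty_phi_succ (j : ℕ) : phi j (LL (j + 1)) = 0 := by
  rw [phi_eq, LL_succ, cr_add_right, cr_self]; ring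

theorem vty_inv_mul (x : ℂ) : zt⁻¹ * (zt * x) = x := by
  rw [← mul_assoc, inv_mul_cancel₀ zt_ne, one_mul]

theorem k_VTY : T_VTY := by
  intro e he
  by_cases h4 : e ≤ 4
  · refine ⟨e, by omega, ?_, ?_⟩
    · rw [vx_of_le (by omega), vty_key]
      have c1 := vty_mono 1 (by norm_num) (by norm_num)
      have c2 := vty_mono 2 (by norm_num) (by norm_num)
      have c3 := vty_mono 3 (by norm_num) (by norm_num)
      have c4 := vty_mono 4 (by norm_num) (by norm_num)
      have c5 := vty_mono 5 (by norm_num) (by norm_num)
      interval_cases e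
      · rw [LL_zero, cr_zero_right, cr_zero_right, sub_self]
      · simp only [LL_succ, LL_zero, cr_add_right, cr_zero_right]
        have a1 := vty_crz 0 2
        have a2 := vty_crz 0 1
        norm_num only at a1 a2 c1 c2 ⊢
        linarith
      · simp only [LL_succ, LL_zero, cr_add_right, cr_zero_right]
        have a1 := vty_crz 0 3
        have a2 := vty_crz 1 2
        have b1 := vty_crz 0 2
        have b2 := vty_crz 1 1
        norm_num only at a1 a2 b1 b2 c1 c2 c3 ⊢
        linarith
      · simp only [LL_succ, LL_zero, cr_add_right, cr_zero_right]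
        have a1 := vty_crz 0 4
        have a2 := vty_crz 1 3
        have a3 := vty_crz 2 2
        have b1 := vty_crz 0 3
        have b2 := vty_crz 1 2
        have b3 := vty_crz 2 1
        norm_num only at a1 a2 a3 b1 b2 b3 c1 c2 c3 c4 ⊢
        linarith
      · simp only [LL_succ, LL_zero, cr_add_right, cr_zero_right]
        have a1 := vty_crz 0 5
        have a2 := vty_crz 1 4
        have a3 := vty_crz 2 3
        have a4 := vty_crz 3 2
        have b1 := vty_crz 0 4
        have b2 := vty_crz 1 3
        have b3 := vty_crz 2 2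
        have b4 := vty_crz 3 1
        norm_num only at a1 a2 a3 a4 b1 b2 b3 b4 c1 c2 c3 c4 c5 ⊢
        linarith
    · rw [vx_of_le (by omega), vty_key]
      have c1 := cr_zt_nonneg (i := 0) (j := 1) (by norm_num) (by norm_num)
      have c2 := cr_zt_nonneg (i := 0) (j := 2) (by norm_num) (by norm_num)
      have c3 := cr_zt_nonneg (i := 0) (j := 3) (by norm_num) (by norm_num)
      have c4 := cr_zt_nonneg (i := 0) (j := 4) (by norm_num) (by norm_num)
      have c5 := cr_zt_nonneg (i := 0) (j := 5) (by norm_num) (by norm_num)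
      interval_cases e
      · simp only [LL_succ, LL_zero, cr_add_right, cr_zero_right]
        have a1 := vty_crz 0 1
        norm_num only at a1 c1 c2 ⊢
        linarith
      · simp only [LL_succ, LL_zero, cr_add_right, cr_zero_right]
        have a1 := vty_crz 0 2
        have a2 := vty_crz 1 1
        have b1 := vty_crz 0 1
        norm_num only at a1 a2 b1 c1 c2 ⊢
        linarith
      · simp only [LL_succ, LL_zero, cr_add_right, cr_zero_right]
        have a1 := vty_crz 0 3
        have a2 := vty_crz 1 2
        have a3 := vty_crz 2 1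
        have b1 := vty_crz 0 2
        have b2 := vty_crz 1 1
        norm_num only at a1 a2 a3 b1 b2 c1 c2 c3 ⊢
        linarith
      · simp only [LL_succ, LL_zero, cr_add_right, cr_zero_right]
        have a1 := vty_crz 0 4
        have a2 := vty_crz 1 3
        have a3 := vty_crz 2 2
        have a4 := vty_crz 3 1
        have b1 := vty_crz 0 3
        have b2 := vty_crz 1 2
        have b3 := vty_crz 2 1
        norm_num only at a1 a2 a3 a4 b1 b2 b3 c1 c2 c3 c4 ⊢
        linarith
      · simp only [LL_succ, LL_zero, cr_add_right, cr_zero_right]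
        have a1 := vty_crz 0 5
        have a2 := vty_crz 1 4
        have a3 := vty_crz 2 3
        have a4 := vty_crz 3 2
        have a5 := vty_crz 4 1
        have b1 := vty_crz 0 4
        have b2 := vty_crz 1 3
        have b3 := vty_crz 2 2
        have b4 := vty_crz 3 1
        norm_num only at a1 a2 a3 a4 a5 b1 b2 b3 b4 c1 c2 c3 c4 c5 ⊢
        linarith
  · push Not at h4
    by_cases h5 : e = 5
    · subst h5
      refine ⟨4, by omega, ?_, ?_⟩
      · rw [vx_of_le (by omega), vty_key]
        have c5 := cr_zt_nonneg (i := 0) (j := 5) (by norm_num) (by norm_num)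
        simp only [LL_succ, LL_zero, cr_add_right, cr_zero_right]
        have a1 := vty_crz 0 5
        have a2 := vty_crz 1 4
        have a3 := vty_crz 2 3
        have a4 := vty_crz 3 2
        have a5 := vty_crz 4 1
        have b1 := vty_crz 0 4
        have b2 := vty_crz 1 3
        have b3 := vty_crz 2 2
        have b4 := vty_crz 3 1
        norm_num only at a1 a2 a3 a4 a5 b1 b2 b3 b4 c5 ⊢
        linarith
      · rw [vx_of_gt (by omega), vty_inv_mul]
        exact (vty_phi_succ 4).le
    · have h6 : 6 ≤ e := by omega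
      obtain ⟨m, hm⟩ : ∃ m, 11 - e = m + 1 := ⟨10 - e, by omega⟩
      refine ⟨m, by omega, ?_, ?_⟩
      · rw [vx_of_gt (by omega), vty_inv_mul, hm]
        exact (vty_phi_succ m).le
      · rw [vx_of_gt (by omega), vty_inv_mul, show 11 - (e + 1) = m by omega]
        exact (vty_phi_inv m).le

end VT927
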