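import Pool.Agent.H927R2.VT.Ori

/-! task WIN -/

open Finset

namespace VT927

theorem k_WIN : T_KER → T_TRI01 → T_TRIC → T_TRIIN → T_WIN := by
  intro hK hT hC hI m p w z hw h1
  have hex : ∃ e ∈ range 11, tri z (mp m p w cc) (mp m p w (vx (if m then e + 1 else e)))
    (mp m p w (vx (if m then e else e + 1))) ≠ 0 := by
    by_contra hcon
    push Not at hcon
    have : WW m p w z = 0 := by
      unfold WW
      exact sum_eq_zero hcon
    omega
  obtain ⟨e, he, hne⟩ := hex
  have he' := mem_range.mp he
  have hor := mp_orient hK hw m p he'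
  have h2 : tri z (mp m p w cc) (mp m p w (vx (if m then e + 1 else e)))
    (mp m p w (vx (if m then e else e + 1))) = 1 := by
    rcases hT z _ _ _ hor with h | h
    · exact absurd h hne
    · exact h
  have h3 := hC z _ _ _ hor h2
  obtain ⟨y, rfl⟩ := mp_surj hw m p z
  exact ⟨y, hI e he' (clT_mp hw m p y e h3), rfl⟩

end VT927
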