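import Pool.Agent.H927R2.VT.Basic

/-! task WOP: open subsets of a tile (60-100 lines) -/

open Finset

namespace VT927

theorem WOP_nudge (O : Set ℂ) (hO : IsOpen O) (hne : O.Nonempty) (d a : ℂ) (hd : d ≠ 0) :
    ∃ O' ⊆ O, IsOpen O' ∧ O'.Nonempty ∧ ∀ z ∈ O', cr d (z - a) ≠ 0 := by
  have hc : Continuous (fun z : ℂ => cr d (z - a)) :=
    (cr_continuous_right d).comp (continuous_id.sub continuous_const)
  refine ⟨O ∩ {z | cr d (z - a) ≠ 0}, Set.inter_subset_left, hO.inter ?_, ?_, fun z hz => hz.2⟩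
  · exact isOpen_ne_fun hc continuous_const
  · obtain ⟨z, hz⟩ := hne
    by_cases h : cr d (z - a) = 0
    · have hcont : Continuous (fun ε : ℝ => z + (ε : ℂ) * (Complex.I * d)) := by fun_prop
      have h0 : ∀ᶠ ε : ℝ in nhds (0 : ℝ), z + (ε : ℂ) * (Complex.I * d) ∈ O := by
        have := hcont.continuousAt (x := (0 : ℝ))
        refine this.eventually_mem ?_
        have e : z + ((0 : ℝ) : ℂ) * (Complex.I * d) = z := by simp
        rw [e]
        exact hO.mem_nhds hz
      have h1 : ∀ᶠ ε : ℝ in nhdsWithin (0 : ℝ) {0}ᶜ, z + (ε : ℂ) * (Complex.I * d) ∈ O :=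
        h0.filter_mono nhdsWithin_le_nhds
      have h2 : ∀ᶠ ε : ℝ in nhdsWithin (0 : ℝ) {0}ᶜ, ε ∈ ({0}ᶜ : Set ℝ) := self_mem_nhdsWithin
      obtain ⟨ε, h3, h4⟩ := (h1.and h2).exists
      refine ⟨z + (ε : ℂ) * (Complex.I * d), h3, ?_⟩
      change cr d (z + (ε : ℂ) * (Complex.I * d) - a) ≠ 0
      have e : z + (ε : ℂ) * (Complex.I * d) - a = (z - a) + (ε : ℂ) * (Complex.I * d) := by ring
      rw [e, cr_add_right, h, cr_real_right, zero_add]
      have e2 : cr d (Complex.I * d) = Complex.normSq d := by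
        simp only [cr, Complex.mul_re, Complex.mul_im, Complex.I_re, Complex.I_im,
          Complex.normSq_apply]
        ring
      rw [e2]
      exact mul_ne_zero h4 (Complex.normSq_pos.2 hd).ne'
    · exact ⟨z, hz, h⟩

theorem WOP_cr_false {p w : ℂ} (hw : ‖w‖ = 1) (a b c d : ℂ) :
    cr (mp false p w b - mp false p w a) (mp false p w d - mp false p w c) =
      cr (b - a) (d - c) := by
  rw [mp_false, mp_false, mp_false, mp_false]
  have e1 : p + w * b - (p + w * a) = w * (b - a) := by ring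
  have e2 : p + w * d - (p + w * c) = w * (d - c) := by ring
  rw [e1, e2, cr_mul_of_norm hw]

theorem WOP_cr_true {p w : ℂ} (hw : ‖w‖ = 1) (a b c d : ℂ) :
    cr (mp true p w b - mp true p w a) (mp true p w d - mp true p w c) =
      - cr (b - a) (d - c) := by
  rw [mp_true, mp_true, mp_true, mp_true]
  have e1 : p + w * (starRingEnd ℂ) b - (p + w * (starRingEnd ℂ) a) =
      w * (starRingEnd ℂ) (b - a) := by rw [map_sub]; ring
  have e2 : p + w * (starRingEnd ℂ) d - (p + w * (starRingEnd ℂ) c) =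
      w * (starRingEnd ℂ) (d - c) := by rw [map_sub]; ring
  rw [e1, e2, cr_mul_of_norm hw, cr_conj]

theorem WOP_clT (m : Bool) {p w : ℂ} (hw : ‖w‖ = 1) (a b c y : ℂ) (hy : y ∈ clT a b c) :
    mp m p w y ∈ clT (mp m p w a) (mp m p w (if m then c else b))
      (mp m p w (if m then b else c)) := by
  obtain ⟨h1, h2, h3⟩ := hy
  cases m with
  | false =>
    simp only [Bool.false_eq_true, if_false]
    refine ⟨?_, ?_, ?_⟩
    · rw [WOP_cr_false hw]; exact h1
    · rw [WOP_cr_false hw]; exact h2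
    · rw [WOP_cr_false hw]; exact h3
  | true =>
    simp only [if_true]
    refine ⟨?_, ?_, ?_⟩
    · rw [WOP_cr_true hw]
      have e : -cr (c - a) (y - a) = cr (a - c) (y - c) := by
        simp only [cr, Complex.sub_re, Complex.sub_im]; ring
      rw [e]; exact h3
    · rw [WOP_cr_true hw]
      have e : -cr (b - c) (y - c) = cr (c - b) (y - b) := by
        simp only [cr, Complex.sub_re, Complex.sub_im]; ring
      rw [e]; exact h2
    · rw [WOP_cr_true hw]
      have e : -cr (a - b) (y - b) = cr (b - a) (y - a) := by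
        simp only [cr, Complex.sub_re, Complex.sub_im]; ring
      rw [e]; exact h1

theorem WOP_or (hK : T_KER) (m : Bool) {p w : ℂ} (hw : ‖w‖ = 1) {e : ℕ} (he : e < 11) :
    0 < cr (mp m p w (vx (if m then e + 1 else e)) - mp m p w cc)
      (mp m p w (vx (if m then e else e + 1)) - mp m p w cc) := by
  have h := hK e he
  cases m with
  | false =>
    simp only [Bool.false_eq_true, if_false]
    rw [WOP_cr_false hw]
    have e : cr (vx e - cc) (vx (e + 1) - cc) = cr (vx (e + 1) - vx e) (cc - vx e) := by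
      simp only [cr, Complex.sub_re, Complex.sub_im]; ring
    rw [e]; exact h
  | true =>
    simp only [if_true]
    rw [WOP_cr_true hw]
    have e : -cr (vx (e + 1) - cc) (vx e - cc) = cr (vx (e + 1) - vx e) (cc - vx e) := by
      simp only [cr, Complex.sub_re, Complex.sub_im]; ring
    rw [e]; exact h

theorem WOP_closed (a b c : ℂ) : IsClosed (clT a b c) := by
  have h : ∀ d a : ℂ, Continuous (fun z : ℂ => cr d (z - a)) := fun d a =>
    (cr_continuous_right d).comp (continuous_id.sub continuous_const)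
  exact (isClosed_le continuous_const (h _ _)).inter
    ((isClosed_le continuous_const (h _ _)).inter (isClosed_le continuous_const (h _ _)))

theorem k_WOP : T_KER → T_TRI01 → T_TRIO → T_BETA → T_BAIRE → T_WOP := by
  intro hK h01 hO hB hBaire m p w hw O hOo hOn hsub
  let P : ℂ := mp m p w cc
  let Q : ℕ → ℂ := fun e => mp m p w (vx (if m then e + 1 else e))
  let R : ℕ → ℂ := fun e => mp m p w (vx (if m then e else e + 1))
  have hor : ∀ e < 11, 0 < cr (Q e - P) (R e - P) := fun e he => WOP_or hK m hw he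
  obtain ⟨e, he, O1, hO1, ho1, hn1, hs1⟩ := hBaire 11 (fun e => clT P (Q e) (R e)) O
    (fun e _ => WOP_closed _ _ _) hOo hOn (by
      intro z hz
      obtain ⟨y, hy, rfl⟩ := hsub hz
      obtain ⟨e, he, hye⟩ := hB y hy
      refine ⟨e, he, ?_⟩
      have := WOP_clT m (p := p) hw cc (vx e) (vx (e + 1)) y hye
      cases m with
      | false => exact this
      | true => exact this)
  have hore := hor e he
  have hd1 : Q e - P ≠ 0 := by
    intro h
    rw [h, cr_zero_left] at hore
    exact lt_irrefl _ hore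
  have hd2 : R e - Q e ≠ 0 := by
    intro h
    rw [sub_eq_zero.1 h, cr_self] at hore
    exact lt_irrefl _ hore
  have hd3 : P - R e ≠ 0 := by
    intro h
    rw [← sub_eq_zero.1 h, sub_self, cr_zero_right] at hore
    exact lt_irrefl _ hore
  obtain ⟨O2, hO2, ho2, hn2, hs2⟩ := WOP_nudge O1 ho1 hn1 (Q e - P) P hd1
  obtain ⟨O3, hO3, ho3, hn3, hs3⟩ := WOP_nudge O2 ho2 hn2 (R e - Q e) (Q e) hd2
  obtain ⟨O4, hO4, ho4, hn4, hs4⟩ := WOP_nudge O3 ho3 hn3 (P - R e) (R e) hd3
  refine ⟨O4, fun z hz => hO1 (hO2 (hO3 (hO4 hz))), ho4, hn4, ?_⟩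
  intro z hz
  obtain ⟨c1, c2, c3⟩ := hs1 (hO2 (hO3 (hO4 hz)))
  have hop : z ∈ opT P (Q e) (R e) :=
    ⟨lt_of_le_of_ne c1 (hs2 z (hO3 (hO4 hz))).symm, lt_of_le_of_ne c2 (hs3 z (hO4 hz)).symm,
      lt_of_le_of_ne c3 (hs4 z hz).symm⟩
  have h1 : tri z P (Q e) (R e) = 1 := hO z P (Q e) (R e) hore hop
  have hnn : ∀ e' ∈ range 11, 0 ≤ tri z P (Q e') (R e') := by
    intro e' he'
    rcases h01 z P (Q e') (R e') (hor e' (mem_range.1 he')) with h | h
    · rw [h]
    · rw [h]; norm_num
  have h2 : tri z P (Q e) (R e) ≤ ∑ e' ∈ range 11, tri z P (Q e') (R e') :=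
    single_le_sum hnn (mem_range.2 he)
  rw [h1] at h2
  exact h2

end VT927
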