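import Pool.Agent.H927R2.VT.Ori

/-! task WPOS -/

open Finset

namespace VT927

theorem k_WPOS : T_KER → T_TRI01 → T_WPOS := by
  intro hK hT m p w z hw
  unfold WW
  apply sum_nonneg
  intro e he
  rcases hT z _ _ _ (mp_orient hK hw m p (mem_range.mp he)) with h | h <;> rw [h]
  norm_num

end VT927
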