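import Pool.Agent.H927R2.VT.Basic

/-! task WSUM -/

open Finset

namespace VT927

theorem k_WSUM : T_ANTI → T_WSUM := by
  intro hA m p w z
  have h11 : mp m p w (vx 11) = mp m p w (vx 0) := by
    congr 1
    rw [vx_of_gt (by norm_num), vx_of_le (by norm_num)]
    simp [LL]
  unfold WW ES
  cases m with
  | false =>
    simp only [Bool.false_eq_true, if_false, one_mul]
    have : ∀ e ∈ range 11, tri z (mp false p w cc) (mp false p w (vx e)) (mp false p w (vx (e + 1)))
        = chi z (mp false p w (vx e)) (mp false p w (vx (e + 1)))
          + (chi z (mp false p w cc) (mp false p w (vx e))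
            - chi z (mp false p w cc) (mp false p w (vx (e + 1)))) := by
      intro e _
      unfold tri
      rw [hA z (mp false p w cc) (mp false p w (vx (e + 1)))]
      ring
    rw [sum_congr rfl this, sum_add_distrib]
    have h2 : ∑ e ∈ range 11, (chi z (mp false p w cc) (mp false p w (vx e))
            - chi z (mp false p w cc) (mp false p w (vx (e + 1)))) = 0 := by
      rw [sum_range_sub' (fun e => chi z (mp false p w cc) (mp false p w (vx e))) 11, h11]
      ring
    rw [h2, add_zero]
  | true =>
    simp only [if_true]
    have : ∀ e ∈ range 11, tri z (mp true p w cc) (mp true p w (vx (e + 1))) (mp true p w (vx e))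
        = - chi z (mp true p w (vx e)) (mp true p w (vx (e + 1)))
          - (chi z (mp true p w cc) (mp true p w (vx e))
            - chi z (mp true p w cc) (mp true p w (vx (e + 1)))) := by
      intro e _
      unfold tri
      rw [hA z (mp true p w cc) (mp true p w (vx e)), hA z (mp true p w (vx e)) (mp true p w (vx (e + 1)))]
      ring
    rw [sum_congr rfl this, sum_sub_distrib, sum_neg_distrib]
    have h2 : ∑ e ∈ range 11, (chi z (mp true p w cc) (mp true p w (vx e))
            - chi z (mp true p w cc) (mp true p w (vx (e + 1)))) = 0 := by
      rw [sum_range_sub' (fun e => chi z (mp true p w cc) (mp true p w (vx e))) 11, h11]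
      ring
    rw [h2]
    ring

end VT927
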