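import Pool.Agent.H927R2.VT.Basic

/-! helper lemmas on placements -/

open Finset

namespace VT927

theorem cr_mp {w : ℂ} (hw : ‖w‖ = 1) (m : Bool) (p x y z t : ℂ) :
    cr (mp m p w x - mp m p w y) (mp m p w z - mp m p w t) = (if m then -1 else 1) * cr (x - y) (z - t) := by
  cases m with
  | false =>
    simp only [mp_false, Bool.false_eq_true, if_false, one_mul]
    rw [show p + w * x - (p + w * y) = w * (x - y) by ring,
      show p + w * z - (p + w * t) = w * (z - t) by ring, cr_mul_of_norm hw]
  | true =>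
    simp only [mp_true, if_true]
    rw [show p + w * (starRingEnd ℂ) x - (p + w * (starRingEnd ℂ) y) = w * (starRingEnd ℂ) (x - y) by
        rw [map_sub]; ring,
      show p + w * (starRingEnd ℂ) z - (p + w * (starRingEnd ℂ) t) = w * (starRingEnd ℂ) (z - t) by
        rw [map_sub]; ring, cr_mul_of_norm hw, cr_conj]
    ring

theorem mp_surj {w : ℂ} (hw : ‖w‖ = 1) (m : Bool) (p z : ℂ) : ∃ y, mp m p w y = z := by
  have hw0 : w ≠ 0 := by
    intro h; rw [h, norm_zero] at hw; exact zero_ne_one hw
  cases m with
  | false =>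
    refine ⟨w⁻¹ * (z - p), ?_⟩
    rw [mp_false]; field_simp; ring
  | true =>
    refine ⟨(starRingEnd ℂ) (w⁻¹ * (z - p)), ?_⟩
    rw [mp_true, Complex.conj_conj]; field_simp; ring

theorem ker_orient (hK : T_KER) {e : ℕ} (he : e < 11) : 0 < cr (vx e - cc) (vx (e + 1) - cc) := by
  have := hK e he
  have e1 : cr (vx (e + 1) - vx e) (cc - vx e) = cr (vx e - cc) (vx (e + 1) - cc) := by
    simp only [cr, Complex.sub_re, Complex.sub_im]; ring
  rw [e1] at this
  exact this

theorem mp_orient (hK : T_KER) {w : ℂ} (hw : ‖w‖ = 1) (m : Bool) (p : ℂ) {e : ℕ} (he : e < 11) :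
    0 < cr (mp m p w (vx (if m then e + 1 else e)) - mp m p w cc)
      (mp m p w (vx (if m then e else e + 1)) - mp m p w cc) := by
  rw [cr_mp hw]
  have := ker_orient hK he
  cases m with
  | false => simpa using this
  | true =>
    simp only [if_true]
    rw [cr_swap]
    linarith

theorem phi_comb (j : ℕ) {α β γ : ℝ} (h : α + β + γ = 1) (p q r : ℂ) :
    phi j ((α : ℂ) * p + (β : ℂ) * q + (γ : ℂ) * r) = α * phi j p + β * phi j q + γ * phi j r := by
  simp only [phi_eq, cr_add_right, cr_real_right]
  have : γ = 1 - α - β := by linarith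
  rw [this]; ring

/-- a point of the closed placed triangle is the image of a point of the closed triangle -/
theorem clT_mp {w : ℂ} (hw : ‖w‖ = 1) (m : Bool) (p y : ℂ) (e : ℕ)
    (h : mp m p w y ∈ clT (mp m p w cc) (mp m p w (vx (if m then e + 1 else e)))
      (mp m p w (vx (if m then e else e + 1)))) : y ∈ clT cc (vx e) (vx (e + 1)) := by
  obtain ⟨h1, h2, h3⟩ := h
  rw [cr_mp hw] at h1 h2 h3
  cases m with
  | false =>
    simp only [Bool.false_eq_true, if_false, one_mul] at h1 h2 h3
    exact ⟨h1, h2, h3⟩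
  | true =>
    simp only [if_true] at h1 h2 h3
    refine ⟨?_, ?_, ?_⟩
    · have : cr (cc - vx e) (y - vx e) = - cr (vx e - cc) (y - cc) := by
        simp only [cr, Complex.sub_re, Complex.sub_im]; ring
      linarith
    · have : cr (vx e - vx (e + 1)) (y - vx (e + 1)) = - cr (vx (e + 1) - vx e) (y - vx e) := by
        simp only [cr, Complex.sub_re, Complex.sub_im]; ring
      linarith
    · have : cr (vx (e + 1) - cc) (y - cc) = - cr (cc - vx (e + 1)) (y - vx (e + 1)) := by
        simp only [cr, Complex.sub_re, Complex.sub_im]; ring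
      linarith

end VT927
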