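import Mathlib

/-!
# MP_73e00a_co: a tiling with three tiles that have the same neighbourhood (helper927)

`Tile` is an 11-gon with unit sides (`zt = e^{iπ/15}`, 12 degrees): vertices `LL 0 = 0, LL 1 = 1, ..., LL 5 = uu`
(convex leg), then `zt*uu, zt*LL 4, ..., zt*LL 1` (concave leg).
The ring tiling of the plane: `tl false k i j` = direct copies with apex at the lattice point `pt k i j`,
`tl true k i j` = mirrored copies with apex at `pt k (i+1) (j+1)` (k < 30, i j arbitrary).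
The crossing function `chi` (a ray to the right) turns the covering statement into an algebraic identity.
The fan of the tiles `tl false k 0 0`, `k < 5` is symmetric under the reflection `sg`; after reflecting these five
tiles, the three middle ones have the same neighbourhood.
-/

open Finset

namespace VT927

/-- `e^{iπ/15}` -/
noncomputable def zt : ℂ := Complex.exp (((Real.pi / 15 : ℝ) : ℂ) * Complex.I)

/-- cross product -/
noncomputable def cr (x y : ℂ) : ℝ := x.re * y.im - x.im * y.re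

/-- `LL j = 1 + zt + ... + zt^(j-1)` -/
noncomputable def LL (j : ℕ) : ℂ := ∑ i ∈ range j, zt ^ i

noncomputable def uu : ℂ := LL 5

/-- a point of the kernel of the tile -/
noncomputable def cc : ℂ := 1 + (9 / 10) * (zt + zt ^ 2)

noncomputable def phi (j : ℕ) (z : ℂ) : ℝ := cr (zt ^ j) (z - LL j)

/-- the tile -/
def Tile : Set ℂ :=
  {z | (∀ j < 5, 0 ≤ phi j z) ∧ (∃ j < 5, phi j (zt⁻¹ * z) ≤ 0) ∧ 0 ≤ cr (zt ^ 10) (z - uu)}

/-- the vertices of the tile, `e = 0, ..., 11` (`vx 11 = vx 0 = 0`) -/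
noncomputable def vx (e : ℕ) : ℂ := if e ≤ 5 then LL e else zt * LL (11 - e)

/-- signed crossing of the directed segment `p → q` with the ray to the right from `z` -/
noncomputable def chi (z p q : ℂ) : ℤ :=
  if p.im ≤ z.im ∧ z.im < q.im ∧ 0 < cr (q - p) (z - p) then 1
  else if q.im ≤ z.im ∧ z.im < p.im ∧ cr (q - p) (z - p) < 0 then -1
  else 0

noncomputable def tri (z p q r : ℂ) : ℤ := chi z p q + chi z q r + chi z r p

/-- closed triangle with (counter-clockwise) vertices `p q r` -/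
def clT (p q r : ℂ) : Set ℂ :=
  {z | 0 ≤ cr (q - p) (z - p) ∧ 0 ≤ cr (r - q) (z - q) ∧ 0 ≤ cr (p - r) (z - r)}

/-- open triangle with (counter-clockwise) vertices `p q r` -/
def opT (p q r : ℂ) : Set ℂ :=
  {z | 0 < cr (q - p) (z - p) ∧ 0 < cr (r - q) (z - q) ∧ 0 < cr (p - r) (z - r)}

/-- placement: `m = false`: `z ↦ p + w z`; `m = true`: `z ↦ p + w conj z` -/
noncomputable def mp (m : Bool) (p w z : ℂ) : ℂ := p + w * (if m then (starRingEnd ℂ) z else z)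

/-- crossing function of the placed tile, cut into 11 triangles at `cc` -/
noncomputable def WW (m : Bool) (p w z : ℂ) : ℤ :=
  ∑ e ∈ range 11, tri z (mp m p w cc) (mp m p w (vx (if m then e + 1 else e)))
    (mp m p w (vx (if m then e else e + 1)))

/-- crossing sum of the 11 boundary edges -/
noncomputable def ES (m : Bool) (p w z : ℂ) : ℤ :=
  ∑ e ∈ range 11, chi z (mp m p w (vx e)) (mp m p w (vx (e + 1)))

/-- crossing sum of a leg that starts at `p`, rotated by `zt^k` -/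
noncomputable def leg (z p : ℂ) (k : ℕ) : ℤ :=
  ∑ j ∈ range 5, chi z (p + zt ^ k * LL j) (p + zt ^ k * LL (j + 1))

/-- lattice points of the wedge `k` -/
noncomputable def pt (k i j : ℕ) : ℂ := zt ^ k * ((i : ℂ) * uu + (j : ℂ) * (zt * uu))

noncomputable def WU (k i j : ℕ) (z : ℂ) : ℤ := WW false (pt k i j) (zt ^ k) z
noncomputable def WV (k i j : ℕ) (z : ℂ) : ℤ := WW true (pt k (i + 1) (j + 1)) (zt ^ (k + 20)) z

/-- crossing sum of the side `k` of the 30-gon of side length `r` -/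
noncomputable def BB (k r : ℕ) (z : ℂ) : ℤ :=
  ∑ i ∈ range r, chi z (pt k (i + 1) (r - 1 - i)) (pt k i (r - i))

noncomputable def Row (k r : ℕ) (z : ℂ) : ℤ :=
  ∑ i ∈ range (r + 1), WU k i (r - i) z + ∑ i ∈ range r, WV k i (r - 1 - i) z

noncomputable def Tot (R : ℕ) (z : ℂ) : ℤ := ∑ k ∈ range 30, ∑ r ∈ range R, Row k r z

/-- the tiles of the ring tiling -/
noncomputable def tl (b : Bool) (k i j : ℕ) : Set ℂ :=
  if b then mp true (pt k (i + 1) (j + 1)) (zt ^ (k + 20)) '' Tile else mp false (pt k i j) (zt ^ k) '' Tile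

noncomputable def WT (b : Bool) (k i j : ℕ) (z : ℂ) : ℤ := if b then WV k i j z else WU k i j z

def Pos (z : ℂ) : Prop := ∀ j < 5, 0 ≤ phi j z
def SPos (z : ℂ) : Prop := ∀ j < 5, 0 < phi j z

noncomputable def side (k : ℕ) (z : ℂ) : ℝ := cr (zt ^ (k + 10)) (z - zt ^ k * uu)

/-- the fan of five tiles, described by lines -/
def FF : Set ℂ := {z | Pos z ∧ ¬ SPos (zt ^ 25 * z) ∧ ∀ k < 5, 0 ≤ side k z}

/-- the reflection that preserves the fan -/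
noncomputable def sg (z : ℂ) : ℂ := zt ^ 5 * uu + zt ^ 29 * (starRingEnd ℂ) z

/-! ## crossing function -/

def T_ANTI : Prop := ∀ z p q : ℂ, chi z q p = - chi z p q

def T_TRI01 : Prop := ∀ z p q r : ℂ, 0 < cr (q - p) (r - p) → tri z p q r = 0 ∨ tri z p q r = 1

def T_TRIC : Prop := ∀ z p q r : ℂ, 0 < cr (q - p) (r - p) → tri z p q r = 1 → z ∈ clT p q r

def T_TRIO : Prop := ∀ z p q r : ℂ, 0 < cr (q - p) (r - p) → z ∈ opT p q r → tri z p q r = 1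

/-- barycentric coordinates -/
def T_BARY : Prop := ∀ p q r z : ℂ, 0 < cr (q - p) (r - p) → z ∈ clT p q r →
  ∃ α β γ : ℝ, 0 ≤ α ∧ 0 ≤ β ∧ 0 ≤ γ ∧ α + β + γ = 1 ∧ z = (α : ℂ) * p + (β : ℂ) * q + (γ : ℂ) * r

/-! ## sums of crossings -/

def T_WSUM : Prop := ∀ (m : Bool) (p w z : ℂ), WW m p w z = (if m then -1 else 1) * ES m p w z

def T_EU : Prop := ∀ (k i j : ℕ) (z : ℂ),
  ES false (pt k i j) (zt ^ k) z
    = leg z (pt k i j) k + chi z (pt k (i + 1) j) (pt k i (j + 1)) - leg z (pt k i j) (k + 1)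

def T_EV : Prop := ∀ (k i j : ℕ) (z : ℂ),
  ES true (pt k (i + 1) (j + 1)) (zt ^ (k + 20)) z
    = - leg z (pt k (i + 1) j) (k + 1) + chi z (pt k (i + 1) j) (pt k i (j + 1)) + leg z (pt k i (j + 1)) k

def T_ROW : Prop := ∀ (k r : ℕ) (z : ℂ),
  Row k r z = leg z (pt k r 0) k - leg z (pt k 0 r) (k + 1) + BB k (r + 1) z - BB k r z

def T_TOTB : Prop := ∀ (R : ℕ) (z : ℂ), Tot R z = ∑ k ∈ range 30, BB k R z

def T_BSIDE : Prop := ∀ (k R : ℕ) (z : ℂ), ‖z‖ < R →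
  BB k R z = if 0 < (zt ^ (k + 10)).im then
      (if (pt k R 0).im ≤ z.im then 1 else 0) - (if (pt (k + 1) R 0).im ≤ z.im then 1 else 0)
    else 0

def T_TOT1 : Prop := ∀ (R : ℕ) (z : ℂ), ‖z‖ < R → Tot R z = 1

/-! ## the polygon -/

def T_KER : Prop := ∀ e < 11, 0 < cr (vx (e + 1) - vx e) (cc - vx e)

def T_CPOS : Prop := (∀ j < 5, 0 < phi j cc) ∧ (∀ j < 5, phi j (zt⁻¹ * cc) < 0) ∧ 0 < cr (zt ^ 10) (cc - uu)

def T_VTX : Prop := ∀ e < 12, (∀ j < 5, 0 ≤ phi j (vx e)) ∧ 0 ≤ cr (zt ^ 10) (vx e - uu)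

def T_VTY : Prop := ∀ e < 11, ∃ j < 5, phi j (zt⁻¹ * vx e) ≤ 0 ∧ phi j (zt⁻¹ * vx (e + 1)) ≤ 0

def T_TRIIN : Prop := ∀ e < 11, clT cc (vx e) (vx (e + 1)) ⊆ Tile

def T_CC : Prop := ∀ x : ℂ, ∃ e < 11, ∃ s t : ℝ, 0 ≤ s ∧ 0 ≤ t ∧
  x = (s : ℂ) * (vx e - cc) + (t : ℂ) * (vx (e + 1) - cc)

def T_BETA : Prop := ∀ z ∈ Tile, ∃ e < 11, z ∈ clT cc (vx e) (vx (e + 1))

def T_STAR : Prop := ∀ f : ℂ → ℝ, Continuous f → (∀ t : ℝ, 0 ≤ t → ∀ x : ℂ, f ((t : ℂ) * x) = t * f x) →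
  (∀ x : ℂ, x ≠ 0 → 0 < f x) → IsCompact {x : ℂ | f x ≤ 1} ∧
    Nonempty ({x : ℂ | f x ≤ 1} ≃ₜ Metric.closedBall (0 : ℂ) 1)

def T_FF : Prop := ∃ f : ℂ → ℝ, Continuous f ∧ (∀ t : ℝ, 0 ≤ t → ∀ x : ℂ, f ((t : ℂ) * x) = t * f x) ∧
  (∀ x : ℂ, x ≠ 0 → 0 < f x) ∧ ∀ z : ℂ, z ∈ Tile ↔ f (z - cc) ≤ 1

def T_BODY : Prop := IsCompact Tile ∧ Nonempty (Tile ≃ₜ Metric.closedBall (0 : ℂ) 1)

def T_CINT : Prop := IsClosed Tile ∧ Tile ⊆ closure (interior Tile) ∧ (interior Tile).Nonempty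

/-! ## placed tiles -/

def T_ISO : Prop := ∀ (m : Bool) (p w : ℂ), ‖w‖ = 1 → ∃ g : ℂ ≃ᵢ ℂ, ∀ z, g z = mp m p w z

def T_WPOS : Prop := ∀ (m : Bool) (p w z : ℂ), ‖w‖ = 1 → 0 ≤ WW m p w z

def T_WIN : Prop := ∀ (m : Bool) (p w z : ℂ), ‖w‖ = 1 → 1 ≤ WW m p w z → z ∈ mp m p w '' Tile

def T_WOP : Prop := ∀ (m : Bool) (p w : ℂ), ‖w‖ = 1 → ∀ O : Set ℂ, IsOpen O → O.Nonempty →
  O ⊆ mp m p w '' Tile → ∃ O' ⊆ O, IsOpen O' ∧ O'.Nonempty ∧ ∀ z ∈ O', 1 ≤ WW m p w z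

/-- a nonempty open set covered by finitely many closed sets contains a nonempty open subset of one of them -/
def T_BAIRE : Prop := ∀ (n : ℕ) (S : ℕ → Set ℂ) (O : Set ℂ), (∀ e < n, IsClosed (S e)) → IsOpen O → O.Nonempty →
  (∀ z ∈ O, ∃ e < n, z ∈ S e) → ∃ e < n, ∃ O' ⊆ O, IsOpen O' ∧ O'.Nonempty ∧ O' ⊆ S e

/-! ## the ring tiling -/

def T_COV : Prop := ∀ z : ℂ, ∃ (b : Bool) (k i j : ℕ), k < 30 ∧ z ∈ tl b k i j

def T_TWO : Prop := ∀ (b : Bool) (k i j : ℕ) (b' : Bool) (k' i' j' : ℕ) (z : ℂ), k < 30 → k' < 30 →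
  (b, k, i, j) ≠ (b', k', i', j') → ¬ (1 ≤ WT b k i j z ∧ 1 ≤ WT b' k' i' j' z)

/-- no nonempty open set lies in two different tiles -/
def T_DIS : Prop := ∀ (b : Bool) (k i j : ℕ) (b' : Bool) (k' i' j' : ℕ), k < 30 → k' < 30 →
  (b, k, i, j) ≠ (b', k', i', j') → ∀ O : Set ℂ, IsOpen O → O ⊆ tl b k i j → O ⊆ tl b' k' i' j' → O = ∅

/-! ## the fan -/

def T_MON : Prop := ∀ p : ℂ, Pos p → 0 < p.re → SPos (zt * p)

/-- the tile lies in the cone between the directions `1` and `zt^3` -/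
def T_CN : Prop := ∀ w ∈ Tile, ∃ s t : ℝ, 0 ≤ s ∧ 0 ≤ t ∧ w = (s : ℂ) + (t : ℂ) * zt ^ 3

def T_CONE : Prop := ∀ w ∈ Tile, w ≠ 0 → ∀ k < 10, 0 < (zt ^ (25 + k) * w).re

def T_SIDE : Prop := ∀ w ∈ Tile, ∀ d : ℕ, cr (zt ^ 10) uu ≤ cr (zt ^ d) w

def T_SIDES : Prop := ∀ w ∈ Tile, w ∉ segment ℝ uu (zt * uu) → ∀ d : ℕ, cr (zt ^ 10) uu < cr (zt ^ d) w

/-- `FF` is contained in the union of the five tiles -/
def T_FSUB : Prop := ∀ z ∈ FF, ∃ k < 5, z ∈ tl false k 0 0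

def T_FSUP : Prop := ∀ k < 5, tl false k 0 0 ⊆ FF

def T_SIG : Prop := (∀ z : ℂ, sg (sg z) = z) ∧ ∀ z : ℂ, z ∈ FF → sg z ∈ FF

def T_NA : Prop := ∀ k : ℕ, 1 ≤ k → k ≤ 3 → ∀ w ∈ Tile, w ≠ 0 → w ∉ segment ℝ uu (zt * uu) →
  zt ^ k * w ∈ interior FF

def T_NB : Prop := ∀ j : ℕ, 1 ≤ j → j ≤ 3 → ∀ x ∈ segment ℝ (LL j) (LL (j + 1)),
  x ∈ interior (tl false 29 0 0 ∪ tl false 0 0 0)

def T_SGB : Prop := ∀ k : ℕ, 1 ≤ k → k ≤ 3 → ∀ w ∈ segment ℝ uu (zt * uu),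
  sg (zt ^ k * w) ∈ segment ℝ (LL (4 - k)) (LL (5 - k))

/-! ## the modified tiling -/

/-- the five reflected tiles -/
noncomputable def rf (k : ℕ) : Set ℂ := mp true (zt ^ 5 * uu) (zt ^ (29 - k)) '' Tile

def TT : Set (Set ℂ) :=
  {T | ∃ (b : Bool) (k i j : ℕ), k < 30 ∧ ¬ (b = false ∧ k < 5 ∧ i = 0 ∧ j = 0) ∧ T = tl b k i j} ∪
    {T | ∃ k < 5, T = rf k}

/-- the union of the tiles that meet `T` -/
def nbhd {P : Type*} (𝒯 : Set (Set P)) (T : Set P) : Set P := ⋃₀ {T' ∈ 𝒯 | (T' ∩ T).Nonempty}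

def T_RF : Prop := ∀ k < 5, rf k = sg '' (tl false k 0 0)

def T_TCOV : Prop := ⋃₀ TT = Set.univ

def T_TISO : Prop := ∀ T ∈ TT, ∃ g : ℂ ≃ᵢ ℂ, T = g '' Tile

def T_TDIS : Prop := ∀ T ∈ TT, ∀ T' ∈ TT, T ≠ T' → Disjoint (interior T) (interior T')

def T_TNE : Prop := rf 1 ≠ rf 2 ∧ rf 1 ≠ rf 3 ∧ rf 2 ≠ rf 3

/-- the tiles that meet `rf k` (`k = 1,2,3`) are the tiles that contain the common apex, and the tile number 29 -/
def T_TNB : Prop := ∀ k : ℕ, 1 ≤ k → k ≤ 3 → ∀ S ∈ TT,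
  ((S ∩ rf k).Nonempty ↔ (zt ^ 5 * uu ∈ S ∨ S = tl false 29 0 0))

/-! ## the final statement -/

abbrev E2 := EuclideanSpace ℝ (Fin 2)

/-- a body: a compact set homeomorphic to the closed unit disc -/
def IsBody {P : Type*} [TopologicalSpace P] (C : Set P) : Prop :=
  IsCompact C ∧ Nonempty (C ≃ₜ Metric.closedBall (0 : E2) 1)

/-- a tiling of the plane by congruent copies of `C` -/
def IsTiling {P : Type*} [PseudoEMetricSpace P] (C : Set P) (𝒯 : Set (Set P)) : Prop :=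
  (∀ T ∈ 𝒯, ∃ g : P ≃ᵢ P, T = g '' C) ∧ ⋃₀ 𝒯 = Set.univ ∧
    ∀ T ∈ 𝒯, ∀ T' ∈ 𝒯, T ≠ T' → Disjoint (interior T) (interior T')

def HasThree (P : Type*) [PseudoEMetricSpace P] : Prop :=
  ∃ (C : Set P) (𝒯 : Set (Set P)), IsBody C ∧ IsTiling C 𝒯 ∧
    ∃ T₁ ∈ 𝒯, ∃ T₂ ∈ 𝒯, ∃ T₃ ∈ 𝒯, T₁ ≠ T₂ ∧ T₁ ≠ T₃ ∧ T₂ ≠ T₃ ∧
      nbhd 𝒯 T₁ = nbhd 𝒯 T₂ ∧ nbhd 𝒯 T₂ = nbhd 𝒯 T₃

def T_CB : Prop := Nonempty (Metric.closedBall (0 : ℂ) 1 ≃ₜ Metric.closedBall (0 : E2) 1)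

def T_TRANS : Prop := HasThree ℂ → HasThree E2

end VT927
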