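import Pool.Agent.H927R2.VT.KANTI
import Pool.Agent.H927R2.VT.KTRI01
import Pool.Agent.H927R2.VT.KTRIC
import Pool.Agent.H927R2.VT.KTRIO
import Pool.Agent.H927R2.VT.KBARY
import Pool.Agent.H927R2.VT.KBAIRE
import Pool.Agent.H927R2.VT.KWSUM
import Pool.Agent.H927R2.VT.KEU
import Pool.Agent.H927R2.VT.KEV
import Pool.Agent.H927R2.VT.KROW
import Pool.Agent.H927R2.VT.KTOTB
import Pool.Agent.H927R2.VT.KBSIDE
import Pool.Agent.H927R2.VT.KTOT1
import Pool.Agent.H927R2.VT.KKER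
import Pool.Agent.H927R2.VT.KCPOS
import Pool.Agent.H927R2.VT.KVTX
import Pool.Agent.H927R2.VT.KVTY
import Pool.Agent.H927R2.VT.KTRIIN
import Pool.Agent.H927R2.VT.KCN
import Pool.Agent.H927R2.VT.KCC
import Pool.Agent.H927R2.VT.KBETA
import Pool.Agent.H927R2.VT.KSTAR
import Pool.Agent.H927R2.VT.KFF
import Pool.Agent.H927R2.VT.KBODY
import Pool.Agent.H927R2.VT.KCINT
import Pool.Agent.H927R2.VT.KISO
import Pool.Agent.H927R2.VT.KWPOS
import Pool.Agent.H927R2.VT.KWIN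
import Pool.Agent.H927R2.VT.KWOP
import Pool.Agent.H927R2.VT.KCOV
import Pool.Agent.H927R2.VT.KTWO
import Pool.Agent.H927R2.VT.KDIS
import Pool.Agent.H927R2.VT.KMON
import Pool.Agent.H927R2.VT.KCONE
import Pool.Agent.H927R2.VT.KSIDE
import Pool.Agent.H927R2.VT.KSIDES
import Pool.Agent.H927R2.VT.KFSUB
import Pool.Agent.H927R2.VT.KFSUP
import Pool.Agent.H927R2.VT.KSIG
import Pool.Agent.H927R2.VT.KNA
import Pool.Agent.H927R2.VT.KNB
import Pool.Agent.H927R2.VT.KSGB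
import Pool.Agent.H927R2.VT.KRF
import Pool.Agent.H927R2.VT.KTCOV
import Pool.Agent.H927R2.VT.KTISO
import Pool.Agent.H927R2.VT.KTDIS
import Pool.Agent.H927R2.VT.KTNE
import Pool.Agent.H927R2.VT.KTNB
import Pool.Agent.H927R2.VT.KCB
import Pool.Agent.H927R2.VT.KTRANS
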